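import Pool.Agent.Lib.MP_0430e4_lc.Harm.Space

/-!
# The certificate built from the squared kernel of the harmonic functions
-/

set_option autoImplicit false
set_option linter.unusedSectionVars false

namespace Pool.Agent.Lib.MP_0430e4_lc.Harm

open Finset Tensor

variable {ι : Type*} [Fintype ι] [DecidableEq ι]

/-- reproducing kernel of a family -/
def ker {D : ℕ} (f : Fin D → (ι → Bool) → ℝ) (z z' : ι → Bool) : ℝ := ∑ k, f k z * f k z'

theorem ker_isHarm {m D : ℕ} {f : Fin D → (ι → Bool) → ℝ} (hf : ∀ k, IsHarm m (f k))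
    (z : ι → Bool) : IsHarm m (ker f z) :=
  IsHarm.sum univ (fun k => f k z) f hf

/-- the certificate -/
def hcert {D : ℕ} (f : Fin D → (ι → Bool) → ℝ) (w : ℕ → ℝ) (v : ι → Bool) : ℝ :=
  ∑ z, w (wt z) * w (wt fun i => xor (z i) (v i)) * ker f z (fun i => xor (z i) (v i)) ^ 2

/-- translation by `z` -/
def tr (z : ι → Bool) : Equiv.Perm (ι → Bool) :=
  Function.Involutive.toPerm (fun (v : ι → Bool) => fun i => xor (z i) (v i)) (by
    intro v
    funext i
    show xor (z i) (xor (z i) (v i)) = v i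
    cases z i <;> cases v i <;> rfl)

theorem sum_tr (z : ι → Bool) (F : (ι → Bool) → ℝ) :
    ∑ v : ι → Bool, F (fun i => xor (z i) (v i)) = ∑ v, F v := Equiv.sum_comp (tr z) F

theorem ker_sq_sum {D : ℕ} (f : Fin D → (ι → Bool) → ℝ) (c : (ι → Bool) → ℝ) :
    ∑ z, ∑ z', c z * c z' * ker f z z' ^ 2
      = ∑ k, ∑ k', (∑ z, c z * f k z * f k' z) ^ 2 := by
  have h1 : ∀ z z', c z * c z' * ker f z z' ^ 2
      = ∑ k, ∑ k', (c z * f k z * f k' z) * (c z' * f k z' * f k' z') := by
    intro z z'
    unfold ker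
    rw [sq, Finset.sum_mul_sum, Finset.mul_sum]
    apply Finset.sum_congr rfl
    intro k _
    rw [Finset.mul_sum]
    apply Finset.sum_congr rfl
    intro k' _
    ring
  simp only [h1]
  calc ∑ z, ∑ z', ∑ k, ∑ k', (c z * f k z * f k' z) * (c z' * f k z' * f k' z')
      = ∑ z, ∑ k, ∑ z', ∑ k', (c z * f k z * f k' z) * (c z' * f k z' * f k' z') := by
        apply Finset.sum_congr rfl
        intro z _
        rw [Finset.sum_comm]
    _ = ∑ k, ∑ z, ∑ z', ∑ k', (c z * f k z * f k' z) * (c z' * f k z' * f k' z') :=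
        Finset.sum_comm
    _ = ∑ k, ∑ z, ∑ k', ∑ z', (c z * f k z * f k' z) * (c z' * f k z' * f k' z') := by
        apply Finset.sum_congr rfl
        intro k _
        apply Finset.sum_congr rfl
        intro z _
        rw [Finset.sum_comm]
    _ = ∑ k, ∑ k', ∑ z, ∑ z', (c z * f k z * f k' z) * (c z' * f k z' * f k' z') := by
        apply Finset.sum_congr rfl
        intro k _
        rw [Finset.sum_comm]
    _ = _ := by
        apply Finset.sum_congr rfl
        intro k _
        apply Finset.sum_congr rfl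
        intro k' _
        rw [sq, Finset.sum_mul_sum]

theorem hcert_sum {D : ℕ} (f : Fin D → (ι → Bool) → ℝ) (w : ℕ → ℝ) (g : (ι → Bool) → ℝ)
    (hg : ∀ z v : ι → Bool, g v = g z * g (fun i => xor (z i) (v i))) :
    ∑ v, hcert f w v * g v = ∑ k, ∑ k', (∑ z, w (wt z) * g z * f k z * f k' z) ^ 2 := by
  rw [← ker_sq_sum f (fun z => w (wt z) * g z)]
  unfold hcert
  simp only [Finset.sum_mul]
  rw [Finset.sum_comm]
  apply Finset.sum_congr rfl
  intro z _
  rw [← sum_tr z (fun z' => w (wt z) * g z * (w (wt z') * g z') * ker f z z' ^ 2)]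
  apply Finset.sum_congr rfl
  intro v _
  rw [hg z v]
  ring

theorem hcert_nonneg {D : ℕ} (f : Fin D → (ι → Bool) → ℝ) {w : ℕ → ℝ} (hw : ∀ a, 0 ≤ w a)
    (v : ι → Bool) : 0 ≤ hcert f w v := by
  unfold hcert
  apply Finset.sum_nonneg
  intro z _
  exact mul_nonneg (mul_nonneg (hw _) (hw _)) (sq_nonneg _)

theorem chi_mul (x z v : ι → Bool) :
    chi x v = chi x z * chi x (fun i => xor (z i) (v i)) := by
  simp only [chi_eq]
  rw [← Finset.prod_mul_distrib]
  apply Finset.prod_congr rfl
  intro i _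
  cases x i <;> cases z i <;> cases v i <;> simp [sg]

theorem hcert_fourier {D : ℕ} (f : Fin D → (ι → Bool) → ℝ) (w : ℕ → ℝ) (x : ι → Bool) :
    0 ≤ ∑ v, hcert f w v * chi x v := by
  rw [hcert_sum f w (chi x) (chi_mul x)]
  apply Finset.sum_nonneg
  intro k _
  apply Finset.sum_nonneg
  intro k' _
  exact sq_nonneg _

theorem cs_sum (s : Finset ι) (g : ι → ℝ) : (∑ i ∈ s, g i) ^ 2 ≤ s.card * ∑ i ∈ s, g i ^ 2 :=
  sq_sum_le_card_mul_sum_sq

theorem level_aux {m : ℕ} {f : (ι → Bool) → ℝ} (hf : IsHarm m f) {w : ℕ → ℝ}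
    (hw : ∀ a, 0 ≤ w a) {l : ℝ}
    (hL : ∀ a, a ≤ Fintype.card ι → l * w a
      ≤ w (a + 1) * (((Fintype.card ι : ℝ) - a - m) ^ 2 / ((Fintype.card ι : ℝ) - a))
        + w (a - 1) * (((a : ℝ) - m) ^ 2 / a)) (z : ι → Bool) :
    l * (w (wt z) * f z ^ 2) ≤ ∑ i, w (wt (flp z i)) * f (flp z i) ^ 2 := by
  have h1 : ∀ i, w (wt (flp z i)) * f (flp z i) ^ 2
      = w (wt z + 1) * (if z i = false then f (flp z i) ^ 2 else 0)
        + w (wt z - 1) * (if z i = true then f (flp z i) ^ 2 else 0) := by
    intro i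
    cases h : z i
    · rw [wt_flp_false h]
      simp
    · have := wt_flp_true h
      have h2 : wt (flp z i) = wt z - 1 := by omega
      rw [h2]
      simp
  simp only [h1]
  rw [Finset.sum_add_distrib, ← Finset.mul_sum, ← Finset.mul_sum]
  have h2 : (((Fintype.card ι : ℝ) - wt z - m) ^ 2 / ((Fintype.card ι : ℝ) - wt z)) * f z ^ 2
      ≤ ∑ i, (if z i = false then f (flp z i) ^ 2 else 0) := by
    have h3 := cs_sum (univ.filter fun i => z i = false) (fun i => f (flp z i))
    rw [Finset.sum_filter, Finset.sum_filter, hf.up z] at h3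
    have h4 : ((univ.filter fun i => z i = false).card : ℝ) = (Fintype.card ι : ℝ) - wt z := by
      rw [wt_co, Finset.sum_boole]
    rw [h4] at h3
    have h5 : (0 : ℝ) ≤ (Fintype.card ι : ℝ) - wt z := by
      rw [← h4]
      exact Nat.cast_nonneg _
    rcases eq_or_lt_of_le h5 with h6 | h6
    · rw [← h6]
      simp only [div_zero, zero_mul]
      apply Finset.sum_nonneg
      intro i _
      split_ifs
      · exact sq_nonneg _
      · exact le_refl _
    · rw [div_mul_eq_mul_div, div_le_iff₀ h6]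
      nlinarith
  have h3 : (((wt z : ℝ) - m) ^ 2 / (wt z : ℝ)) * f z ^ 2
      ≤ ∑ i, (if z i = true then f (flp z i) ^ 2 else 0) := by
    have h3 := cs_sum (univ.filter fun i => z i = true) (fun i => f (flp z i))
    rw [Finset.sum_filter, Finset.sum_filter, hf.down z] at h3
    have h4 : ((univ.filter fun i => z i = true).card : ℝ) = (wt z : ℝ) := rfl
    rw [h4] at h3
    have h5 : (0 : ℝ) ≤ (wt z : ℝ) := Nat.cast_nonneg _
    rcases eq_or_lt_of_le h5 with h6 | h6
    · rw [← h6]
      simp only [div_zero, zero_mul]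
      apply Finset.sum_nonneg
      intro i _
      split_ifs
      · exact sq_nonneg _
      · exact le_refl _
    · rw [div_mul_eq_mul_div, div_le_iff₀ h6]
      nlinarith
  have h4 := mul_le_mul_of_nonneg_right (hL (wt z) (wt_le z)) (sq_nonneg (f z))
  have h5 := mul_le_mul_of_nonneg_left h2 (hw (wt z + 1))
  have h6 := mul_le_mul_of_nonneg_left h3 (hw (wt z - 1))
  nlinarith

theorem xor_flp (z v : ι → Bool) (i : ι) :
    (fun j => xor (z j) (flp v i j)) = flp (fun j => xor (z j) (v j)) i := by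
  funext j
  by_cases hj : j = i
  · subst hj
    rw [flp_self, flp_self]
    cases z j <;> cases v j <;> rfl
  · rw [flp_ne _ hj, flp_ne _ hj]

theorem hcert_adj {m D : ℕ} {f : Fin D → (ι → Bool) → ℝ} (hf : ∀ k, IsHarm m (f k)) {w : ℕ → ℝ}
    (hw : ∀ a, 0 ≤ w a) {l : ℝ}
    (hL : ∀ a, a ≤ Fintype.card ι → l * w a
      ≤ w (a + 1) * (((Fintype.card ι : ℝ) - a - m) ^ 2 / ((Fintype.card ι : ℝ) - a))
        + w (a - 1) * (((a : ℝ) - m) ^ 2 / a)) (v : ι → Bool) :
    l * hcert f w v ≤ ∑ i, hcert f w (flp v i) := by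
  unfold hcert
  rw [Finset.sum_comm, Finset.mul_sum]
  apply Finset.sum_le_sum
  intro z _
  simp only [xor_flp]
  have h1 := level_aux (ker_isHarm hf z) hw hL (fun j => xor (z j) (v j))
  have h2 := mul_le_mul_of_nonneg_left h1 (hw (wt z))
  rw [Finset.mul_sum] at h2
  calc l * (w (wt z) * w (wt fun i => xor (z i) (v i)) * ker f z (fun i => xor (z i) (v i)) ^ 2)
      = w (wt z) * (l * (w (wt fun j => xor (z j) (v j))
          * ker f z (fun j => xor (z j) (v j)) ^ 2)) := by ring
    _ ≤ _ := h2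
    _ = _ := by
      apply Finset.sum_congr rfl
      intro i _
      ring

theorem sum_layers (F : (ι → Bool) → ℝ) (w : ℕ → ℝ) (W : Finset ℕ) (hw : ∀ a, a ∉ W → w a = 0) :
    ∑ z, w (wt z) * F z = ∑ a ∈ W, w a * ∑ z, (if wt z = a then F z else 0) := by
  simp only [Finset.mul_sum]
  rw [Finset.sum_comm]
  apply Finset.sum_congr rfl
  intro z _
  by_cases h : wt z ∈ W
  · rw [Finset.sum_eq_single (wt z)]
    · simp
    · intro b _ hb
      rw [if_neg (Ne.symm hb), mul_zero]
    · intro h2
      exact absurd h h2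
  · rw [hw _ h, zero_mul]
    symm
    apply Finset.sum_eq_zero
    intro a ha
    rw [if_neg, mul_zero]
    intro h2
    exact h (h2 ▸ ha)

/-- the main finite statement -/
theorem exists_cert {m : ℕ} (hm : 2 * m ≤ Fintype.card ι) {w : ℕ → ℝ} (hw : ∀ a, 0 ≤ w a)
    (W : Finset ℕ) (hW : ∀ a ∈ W, m ≤ a ∧ a ≤ Fintype.card ι - m) (hs : ∀ a, a ∉ W → w a = 0)
    (hpos : ∃ a ∈ W, 0 < w a) {l : ℝ}
    (hL : ∀ a, a ≤ Fintype.card ι → l * w a
      ≤ w (a + 1) * (((Fintype.card ι : ℝ) - a - m) ^ 2 / ((Fintype.card ι : ℝ) - a))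
        + w (a - 1) * (((a : ℝ) - m) ^ 2 / a)) :
    ∃ h : (ι → Bool) → ℝ, IsCert l h ∧
      Tensor.val h ≤ ((Fintype.card ι : ℝ) + 1) * (∑ a ∈ W, ((Fintype.card ι).choose a : ℝ))
        / ((Fintype.card ι).choose m : ℝ) := by
  obtain ⟨D, f, hf, ho, hD⟩ := exists_family (ι := ι) m hm
  set n := Fintype.card ι with hn
  -- the numbers b_a
  set b : ℕ → ℝ := fun a => ((n - 2 * m).choose (a - m) : ℝ) with hb
  have hN : ∀ a ∈ W, ∀ k k', N a (f k) (f k') = b a * (if k = k' then 1 else 0) := by
    intro a ha k k'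
    obtain ⟨h1, h2⟩ := hW a ha
    have h3 := N_eq hm (hf k) (hf k') (a - m) (by omega)
    rw [ho, show m + (a - m) = a by omega] at h3
    exact h3
  have hbpos : ∀ a ∈ W, 0 < b a := by
    intro a ha
    obtain ⟨h1, h2⟩ := hW a ha
    simp only [hb]
    exact_mod_cast Nat.choose_pos (by omega)
  -- total sum
  have hsum : ∑ v, hcert f w v = D * (∑ a ∈ W, w a * b a) ^ 2 := by
    have h1 := hcert_sum f w (fun _ => (1 : ℝ)) (by intros; simp)
    simp only [mul_one] at h1
    rw [h1]
    have h2 : ∀ k k', ∑ z, w (wt z) * f k z * f k' z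
        = (∑ a ∈ W, w a * b a) * (if k = k' then 1 else 0) := by
      intro k k'
      have h3 := sum_layers (fun z => f k z * f k' z) w W hs
      simp only [← mul_assoc] at h3
      rw [h3, Finset.sum_mul]
      apply Finset.sum_congr rfl
      intro a ha
      have := hN a ha k k'
      unfold N at this
      rw [this]
      ring
    simp only [h2]
    have h4 : ∀ k : Fin D, ∑ k', ((∑ a ∈ W, w a * b a) * (if k = k' then (1 : ℝ) else 0)) ^ 2
        = (∑ a ∈ W, w a * b a) ^ 2 := by
      intro k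
      rw [Finset.sum_eq_single k]
      · simp
      · intro k' _ hk
        rw [if_neg (Ne.symm hk)]
        simp
      · intro h
        exact absurd (Finset.mem_univ k) h
    simp only [h4]
    simp
  -- value at zero
  have hzero : D ^ 2 * ∑ a ∈ W, (w a * b a) ^ 2 / (n.choose a : ℝ) ≤ hcert f w (fun _ => false) := by
    have h1 : hcert f w (fun _ => false) = ∑ z, (fun a => w a ^ 2) (wt z) * ker f z z ^ 2 := by
      unfold hcert
      apply Finset.sum_congr rfl
      intro z _
      simp only [Bool.xor_false]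
      ring
    have h2 := sum_layers (fun z => ker f z z ^ 2) (fun a => w a ^ 2) W
      (fun a ha => by simp [hs a ha])
    rw [h1, h2, Finset.mul_sum]
    apply Finset.sum_le_sum
    intro a ha
    -- Cauchy-Schwarz on the layer
    have h3 : ∑ z, (if wt z = a then ker f z z else 0) = D * b a := by
      have h4 : ∀ z, (if wt z = a then ker f z z else 0)
          = ∑ k, (if wt z = a then f k z * f k z else 0) := by
        intro z
        split_ifs
        · rfl
        · simp
      simp only [h4]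
      rw [Finset.sum_comm]
      have h5 : ∀ k, ∑ z, (if wt z = a then f k z * f k z else 0) = b a := by
        intro k
        have := hN a ha k k
        unfold N at this
        rw [this]
        simp
      simp only [h5]
      simp
    have h6 : (D * b a) ^ 2 ≤ (n.choose a : ℝ) * ∑ z, (if wt z = a then ker f z z ^ 2 else 0) := by
      rw [← h3, ← Finset.sum_filter, ← Finset.sum_filter]
      have h7 : ((univ.filter fun z : ι → Bool => wt z = a).card : ℝ) = (n.choose a : ℝ) := by
        rw [hn, ← card_layer (ι := ι) a, Fintype.card_subtype]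
      rw [← h7]
      exact sq_sum_le_card_mul_sum_sq
    have hc : (0 : ℝ) < (n.choose a : ℝ) := by
      have := hW a ha
      exact_mod_cast Nat.choose_pos (by omega)
    rw [mul_div_assoc', div_le_iff₀ hc]
    have h8 := mul_le_mul_of_nonneg_left h6 (sq_nonneg (w a))
    nlinarith
  -- positivity
  have hDpos : (0 : ℝ) < D := by
    have h1 : 0 < n.choose m := Nat.choose_pos (by omega)
    have h2 : 0 < D := by
      rcases Nat.eq_zero_or_pos D with h | h
      · rw [h] at hD
        omega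
      · exact h
    exact_mod_cast h2
  obtain ⟨a0, ha0, hw0⟩ := hpos
  have hS : 0 < ∑ a ∈ W, (w a * b a) ^ 2 / (n.choose a : ℝ) := by
    apply Finset.sum_pos'
    · intro a _
      positivity
    · refine ⟨a0, ha0, ?_⟩
      have h1 := hbpos a0 ha0
      have h2 := hW a0 ha0
      have hc : (0 : ℝ) < (n.choose a0 : ℝ) := by exact_mod_cast Nat.choose_pos (by omega)
      positivity
  have hpos0 : 0 < hcert f w (fun _ => false) := lt_of_lt_of_le (by positivity) hzero
  refine ⟨hcert f w, ⟨hcert_nonneg f hw, hcert_fourier f w, hcert_adj hf hw hL, hpos0⟩, ?_⟩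
  unfold Tensor.val
  rw [hsum]
  -- final Cauchy-Schwarz
  have hcs : (∑ a ∈ W, w a * b a) ^ 2
      ≤ (∑ a ∈ W, (n.choose a : ℝ)) * ∑ a ∈ W, (w a * b a) ^ 2 / (n.choose a : ℝ) := by
    apply Finset.sum_sq_le_sum_mul_sum_of_sq_le_mul
    · intro a _
      positivity
    · intro a _
      positivity
    · intro a ha
      have := hW a ha
      have hc : (n.choose a : ℝ) ≠ 0 := by
        have : 0 < n.choose a := Nat.choose_pos (by omega)
        positivity
      apply le_of_eq
      field_simp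
  have hch : (0 : ℝ) < (n.choose m : ℝ) := by exact_mod_cast Nat.choose_pos (by omega)
  have hD' : (n.choose m : ℝ) ≤ ((n : ℝ) + 1) * D := by exact_mod_cast hD
  set S := ∑ a ∈ W, (w a * b a) ^ 2 / (n.choose a : ℝ) with hSdef
  set C := ∑ a ∈ W, (n.choose a : ℝ) with hC
  have hC0 : 0 ≤ C := Finset.sum_nonneg fun a _ => Nat.cast_nonneg _
  rw [div_le_div_iff₀ hpos0 hch]
  calc D * (∑ a ∈ W, w a * b a) ^ 2 * (n.choose m : ℝ)
      ≤ D * (C * S) * (((n : ℝ) + 1) * D) := by
        apply mul_le_mul (mul_le_mul_of_nonneg_left hcs hDpos.le) hD' hch.le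
        positivity
    _ = ((n : ℝ) + 1) * C * (D ^ 2 * S) := by ring
    _ ≤ ((n : ℝ) + 1) * C * hcert f w (fun _ => false) := by
        apply mul_le_mul_of_nonneg_left hzero
        positivity

end Pool.Agent.Lib.MP_0430e4_lc.Harm
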