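import Pool.Agent.Lib.MP_0430e4_lc.TensorAsym
import Pool.Agent.Lib.MP_0430e4_lc.Harm.Finite

/-!
# Asymptotics of the harmonic certificates (Theorem V1)

The finite part is in `Harm/Finite.lean`.
-/

set_option autoImplicit false
set_option linter.unusedSectionVars false

namespace Pool.Agent.Lib.MP_0430e4_lc.Harm

open Finset Filter Topology
open Pool.Agent.Lib.MP_0430e4_lc.Tensor

/-- the finite part in the form used below -/
theorem finPart (n m lo r : ℕ) (hm1 : 1 ≤ m) (hm : 2 * m ≤ n) (hlo : m < lo)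
    (hhi : lo + r + m ≤ n) (w : ℕ → ℝ) (hw : ∀ a, 0 ≤ w a)
    (hs : ∀ a, a ∉ Finset.Icc lo (lo + r) → w a = 0) (hpos : 0 < w lo) (l : ℝ)
    (hL : ∀ a ∈ Finset.Icc lo (lo + r),
      l * w a ≤ w (a + 1) * (((n : ℝ) - a - m) ^ 2 / (n - a))
        + w (a - 1) * (((a : ℝ) - m) ^ 2 / a)) :
    ∃ h : (Fin n → Bool) → ℝ, IsCert l h ∧
      Tensor.val h ≤ (∑ a ∈ Finset.Icc lo (lo + r), (n.choose a : ℝ)) / (n.choose m / (n + 1)) := by
  have h1 := exists_cert (ι := Fin n) (m := m) (by rw [Fintype.card_fin]; exact hm) hw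
    (Finset.Icc lo (lo + r))
    (by
      intro a ha
      rw [Finset.mem_Icc] at ha
      rw [Fintype.card_fin]
      omega)
    hs ⟨lo, Finset.mem_Icc.2 ⟨le_rfl, by omega⟩, hpos⟩ (l := l)
    (by
      intro a ha
      rw [Fintype.card_fin] at ha ⊢
      by_cases haI : a ∈ Finset.Icc lo (lo + r)
      · exact hL a haI
      · rw [hs a haI, mul_zero]
        have h2 : (0 : ℝ) ≤ (n : ℝ) - a := by
          have : (a : ℝ) ≤ n := by exact_mod_cast ha
          linarith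
        have h3 : (0 : ℝ) ≤ (a : ℝ) := Nat.cast_nonneg a
        exact add_nonneg (mul_nonneg (hw _) (div_nonneg (sq_nonneg _) h2))
          (mul_nonneg (hw _) (div_nonneg (sq_nonneg _) h3)))
  obtain ⟨h, hh1, hh2⟩ := h1
  refine ⟨h, hh1, ?_⟩
  rw [Fintype.card_fin] at hh2
  refine hh2.trans (le_of_eq ?_)
  have hc : (0 : ℝ) < n.choose m := by exact_mod_cast Nat.choose_pos (by omega)
  field_simp

/-- the weights of the window -/
noncomputable def wwt (lo r : ℕ) (g : ℝ) (a : ℕ) : ℝ :=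
  if a ∈ Finset.Icc lo (lo + r) then sw lo r a * g ^ a else 0

theorem wwt_nonneg (lo r : ℕ) {g : ℝ} (hg : 0 ≤ g) (a : ℕ) : 0 ≤ wwt lo r g a := by
  unfold wwt
  split_ifs with h
  · rw [Finset.mem_Icc] at h
    have h1 : (lo : ℝ) ≤ a := by exact_mod_cast h.1
    have h2 : (a : ℝ) ≤ lo + r := by exact_mod_cast h.2
    apply mul_nonneg _ (pow_nonneg hg _)
    apply sw_nonneg <;> linarith
  · exact le_rfl

theorem wwt_mid {lo r : ℕ} (g : ℝ) {a : ℕ} (ha : a ∈ Finset.Icc lo (lo + r)) :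
    wwt lo r g a = sw lo r a * g ^ a := if_pos ha

theorem wwt_up {lo r : ℕ} (g : ℝ) {a : ℕ} (ha : a ∈ Finset.Icc lo (lo + r)) :
    wwt lo r g (a + 1) = sw lo r ((a : ℝ) + 1) * g ^ (a + 1) := by
  unfold wwt
  rw [Finset.mem_Icc] at ha
  split_ifs with h
  · push_cast
    rfl
  · rw [Finset.mem_Icc] at h
    have : a = lo + r := by omega
    rw [this]
    push_cast
    rw [sw_right, zero_mul]

theorem wwt_down {lo r : ℕ} (g : ℝ) (hlo : 1 ≤ lo) {a : ℕ} (ha : a ∈ Finset.Icc lo (lo + r)) :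
    wwt lo r g (a - 1) = sw lo r ((a : ℝ) - 1) * g ^ (a - 1) := by
  unfold wwt
  rw [Finset.mem_Icc] at ha
  obtain ⟨b, rfl⟩ : ∃ b, a = b + 1 := ⟨a - 1, by omega⟩
  split_ifs with h
  · push_cast
    simp
  · rw [Finset.mem_Icc] at h
    have : b + 1 = lo := by omega
    rw [this, sw_left, zero_mul]

theorem window_level {lo r : ℕ} (hlo : 1 ≤ lo) {Xp Xm : ℝ} (hXp : 0 < Xp) (hXm : 0 < Xm)
    {P M : ℕ → ℝ} (hP : ∀ a ∈ Finset.Icc lo (lo + r), Xp ≤ P a)
    (hM : ∀ a ∈ Finset.Icc lo (lo + r), Xm ≤ M a) :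
    ∀ a ∈ Finset.Icc lo (lo + r),
      (2 * Real.sqrt (Xp * Xm) * Real.cos (Real.pi / (r + 2))) * wwt lo r (Real.sqrt (Xm / Xp)) a
        ≤ wwt lo r (Real.sqrt (Xm / Xp)) (a + 1) * P a
          + wwt lo r (Real.sqrt (Xm / Xp)) (a - 1) * M a := by
  intro a ha
  set g := Real.sqrt (Xm / Xp) with hg
  have hg0 : 0 < g := Real.sqrt_pos.2 (div_pos hXm hXp)
  have hgp : g * Xp = Real.sqrt (Xp * Xm) := by
    have h1 : Xp * Xm = (g * Xp) ^ 2 := by
      rw [mul_pow, hg, Real.sq_sqrt (div_pos hXm hXp).le]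
      field_simp
    rw [h1, Real.sqrt_sq (by positivity)]
  have hgm : Xm = g * Real.sqrt (Xp * Xm) := by
    rw [← hgp]
    have : g * (g * Xp) = g ^ 2 * Xp := by ring
    rw [this, hg, Real.sq_sqrt (div_pos hXm hXp).le]
    field_simp
  rw [wwt_mid g ha, wwt_up g ha, wwt_down g hlo ha]
  have ha' := ha
  rw [Finset.mem_Icc] at ha'
  have hja : (lo : ℝ) ≤ a := by exact_mod_cast ha'.1
  have hjr : (a : ℝ) ≤ lo + r := by exact_mod_cast ha'.2
  have s1 : 0 ≤ sw lo r ((a : ℝ) + 1) := sw_nonneg lo r (by linarith) (by linarith)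
  have s2 : 0 ≤ sw lo r ((a : ℝ) - 1) := sw_nonneg lo r (by linarith) (by linarith)
  have hgj : g ^ a = g * g ^ (a - 1) := by
    rw [← pow_succ']
    congr 1
    omega
  have hgj1 : 0 < g ^ (a - 1) := pow_pos hg0 _
  have e1 : (sw lo r ((a : ℝ) + 1) * g ^ (a + 1)) * Xp
      ≤ (sw lo r ((a : ℝ) + 1) * g ^ (a + 1)) * P a :=
    mul_le_mul_of_nonneg_left (hP a ha) (by positivity)
  have e2 : (sw lo r ((a : ℝ) - 1) * g ^ (a - 1)) * Xm
      ≤ (sw lo r ((a : ℝ) - 1) * g ^ (a - 1)) * M a :=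
    mul_le_mul_of_nonneg_left (hM a ha) (by positivity)
  have e4 : (sw lo r ((a : ℝ) + 1) * g ^ (a + 1)) * Xp
      + (sw lo r ((a : ℝ) - 1) * g ^ (a - 1)) * Xm
      = 2 * Real.sqrt (Xp * Xm) * Real.cos (Real.pi / (r + 2)) * (sw lo r a * g ^ a) := by
    have h5 : (sw lo r ((a : ℝ) + 1) * g ^ (a + 1)) * Xp
        = sw lo r ((a : ℝ) + 1) * g ^ a * Real.sqrt (Xp * Xm) := by
      rw [← hgp, pow_succ]
      ring
    have h6 : (sw lo r ((a : ℝ) - 1) * g ^ (a - 1)) * Xm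
        = sw lo r ((a : ℝ) - 1) * g ^ a * Real.sqrt (Xp * Xm) := by
      rw [hgj]
      nth_rewrite 1 [hgm]
      ring
    rw [h5, h6]
    have h7 := sw_add lo r (a : ℝ)
    have : sw lo r ((a : ℝ) + 1) = 2 * Real.cos (Real.pi / (r + 2)) * sw lo r a
        - sw lo r ((a : ℝ) - 1) := by linarith
    rw [this]
    ring
  linarith

/-- limits of the neighbour weights -/
noncomputable def hp (τ lam : ℝ) : ℝ := (1 - τ - lam) ^ 2 / (1 - τ)
noncomputable def hm (τ lam : ℝ) : ℝ := (τ - lam) ^ 2 / τ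

theorem tendsto_hp {τ lam : ℝ} (hτ0 : 0 ≤ τ) (hτ : τ < 1) (hl : 0 ≤ lam) (t : ℕ) :
    Tendsto (fun n : ℕ => ((n : ℝ) - (⌊τ * n⌋₊ + t : ℕ) - (⌊lam * n⌋₊ : ℕ)) ^ 2
      / (n - (⌊τ * n⌋₊ + t : ℕ)) / n) atTop (𝓝 (hp τ lam)) := by
  have h1 := ((tendsto_floor_add_div hτ0 t).const_sub 1)
  have h2 := (h1.sub (tendsto_floor_div hl)).pow 2
  have h3 := h2.div h1 (by linarith)
  apply h3.congr'
  filter_upwards [eventually_ge_atTop 1] with n hn
  have hn0 : (0 : ℝ) < n := by exact_mod_cast hn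
  simp only [Pi.div_apply]
  generalize ((⌊τ * n⌋₊ + t : ℕ) : ℝ) = A
  generalize ((⌊lam * n⌋₊ : ℕ) : ℝ) = L
  have e1 : (1 : ℝ) - A / n = (n - A) / n := by field_simp
  have e2 : (1 : ℝ) - A / n - L / n = (n - A - L) / n := by field_simp
  rw [e2, e1]
  rcases eq_or_ne ((n : ℝ) - A) 0 with h | h
  · simp [h]
  · field_simp

theorem tendsto_hm {τ lam : ℝ} (hτ0 : 0 < τ) (hl : 0 ≤ lam) (t : ℕ) :
    Tendsto (fun n : ℕ => (((⌊τ * n⌋₊ + t : ℕ) : ℝ) - (⌊lam * n⌋₊ : ℕ)) ^ 2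
      / (⌊τ * n⌋₊ + t : ℕ) / n) atTop (𝓝 (hm τ lam)) := by
  have h1 := (tendsto_floor_add_div hτ0.le t)
  have h2 := (h1.sub (tendsto_floor_div hl)).pow 2
  have h3 := h2.div h1 hτ0.ne'
  apply h3.congr'
  filter_upwards [eventually_ge_atTop 1] with n hn
  have hn0 : (0 : ℝ) < n := by exact_mod_cast hn
  simp only [Pi.div_apply]
  generalize ((⌊τ * n⌋₊ + t : ℕ) : ℝ) = A
  generalize ((⌊lam * n⌋₊ : ℕ) : ℝ) = L
  have e2 : A / n - L / n = (A - L) / n := by field_simp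
  rw [e2]
  rcases eq_or_ne A 0 with h | h
  · simp [h]
  · field_simp

theorem sum_choose_le {n m : ℕ} (lo r : ℕ) (hm : lo + r ≤ m) :
    ∑ a ∈ Finset.Icc lo (lo + r), (n.choose a : ℝ)
      ≤ ((univ.filter fun T : Finset (Fin n) => T.card < m + 1).card : ℝ) := by
  have h1 : ∀ a, n.choose a = (Finset.powersetCard a (univ : Finset (Fin n))).card := by
    intro a
    rw [Finset.card_powersetCard, Finset.card_univ, Fintype.card_fin]
  have h2 : ((Finset.Icc lo (lo + r)).biUnion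
      fun a => Finset.powersetCard a (univ : Finset (Fin n))).card
      = ∑ a ∈ Finset.Icc lo (lo + r), (Finset.powersetCard a (univ : Finset (Fin n))).card := by
    apply Finset.card_biUnion
    intro a _ b _ hab
    rw [Function.onFun, Finset.disjoint_left]
    intro T hT hT'
    rw [Finset.mem_powersetCard] at hT hT'
    exact hab (hT.2.symm.trans hT'.2)
  have h3 : (∑ a ∈ Finset.Icc lo (lo + r), n.choose a)
      ≤ (univ.filter fun T : Finset (Fin n) => T.card < m + 1).card := by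
    simp only [h1]
    rw [← h2]
    apply Finset.card_le_card
    intro T hT
    rw [Finset.mem_biUnion] at hT
    obtain ⟨a, ha, hT⟩ := hT
    rw [Finset.mem_powersetCard] at hT
    rw [Finset.mem_Icc] at ha
    rw [Finset.mem_filter]
    exact ⟨Finset.mem_univ _, by omega⟩
  exact_mod_cast h3

/-- the certificates for large `n` -/
theorem asym_cert {τ lam : ℝ} (hl : 0 < lam) (hlt : lam < τ) (hτ : τ < 1 / 2)
    (r : ℕ) {ε : ℝ} (hε : 0 < ε) (hp1 : ε < hp τ lam) (hm1 : ε < hm τ lam) :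
    ∀ᶠ n : ℕ in atTop, ∃ h : (Fin n → Bool) → ℝ,
      IsCert (n * (2 * Real.sqrt ((hp τ lam - ε) * (hm τ lam - ε))
        * Real.cos (Real.pi / (r + 2)))) h ∧
      val h ≤ ((univ.filter fun T : Finset (Fin n) => T.card < ⌊τ * n⌋₊ + r + 1).card : ℝ)
        / (n.choose ⌊lam * n⌋₊ / (n + 1)) := by
  have hτ0 : 0 < τ := by linarith
  have h1 : ∀ᶠ n : ℕ in atTop, ∀ t ∈ range (r + 1),
      (hp τ lam - ε) < ((n : ℝ) - (⌊τ * n⌋₊ + t : ℕ) - (⌊lam * n⌋₊ : ℕ)) ^ 2
      / (n - (⌊τ * n⌋₊ + t : ℕ)) / n := by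
    rw [Filter.eventually_all_finset]
    intro t _
    exact (tendsto_hp hτ0.le (by linarith) hl.le t).eventually_const_lt (by linarith)
  have h2 : ∀ᶠ n : ℕ in atTop, ∀ t ∈ range (r + 1),
      (hm τ lam - ε) < (((⌊τ * n⌋₊ + t : ℕ) : ℝ) - (⌊lam * n⌋₊ : ℕ)) ^ 2
      / (⌊τ * n⌋₊ + t : ℕ) / n := by
    rw [Filter.eventually_all_finset]
    intro t _
    exact (tendsto_hm hτ0 hl.le t).eventually_const_lt (by linarith)
  have h4 : ∀ᶠ n : ℕ in atTop, ⌊lam * n⌋₊ < ⌊τ * n⌋₊ := by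
    have h5 := (tendsto_floor_div hτ0.le).sub (tendsto_floor_div hl.le)
    filter_upwards [h5.eventually_const_lt (show 0 < τ - lam by linarith),
      eventually_ge_atTop 1] with n hn hn1
    have hn0 : (0 : ℝ) < n := by exact_mod_cast hn1
    rw [← sub_div, lt_div_iff₀ hn0, zero_mul] at hn
    have : ((⌊lam * n⌋₊ : ℕ) : ℝ) < (⌊τ * n⌋₊ : ℕ) := by linarith
    exact_mod_cast this
  have h5 : ∀ᶠ n : ℕ in atTop, 1 ≤ ⌊lam * n⌋₊ := by
    have : Tendsto (fun n : ℕ => lam * (n : ℝ)) atTop atTop :=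
      (tendsto_natCast_atTop_atTop (R := ℝ)).const_mul_atTop hl
    filter_upwards [this.eventually_ge_atTop 1] with n hn
    exact Nat.le_floor (by exact_mod_cast hn)
  have h6 : ∀ᶠ n : ℕ in atTop, ⌊τ * n⌋₊ + r + ⌊lam * n⌋₊ ≤ n := by
    have h7 := (tendsto_floor_add_div hτ0.le r).add (tendsto_floor_div hl.le)
    filter_upwards [h7.eventually_lt_const (show τ + lam < 1 by linarith),
      eventually_ge_atTop 1] with n hn hn1
    have hn0 : (0 : ℝ) < n := by exact_mod_cast hn1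
    rw [← add_div, div_lt_iff₀ hn0, one_mul] at hn
    have : ((⌊τ * n⌋₊ + r + ⌊lam * n⌋₊ : ℕ) : ℝ) < n := by
      push_cast
      push_cast at hn
      linarith
    exact_mod_cast this.le
  have h7 : ∀ᶠ n : ℕ in atTop, 2 * ⌊lam * n⌋₊ ≤ n := by
    filter_upwards [h4, h6] with n g1 g2
    omega
  filter_upwards [h1, h2, h4, h5, h6, h7, eventually_ge_atTop 1] with n g1 g2 g4 g5 g6 g7 g8
  have hn0 : (0 : ℝ) < n := by exact_mod_cast g8
  have key : ∀ j ∈ Finset.Icc ⌊τ * n⌋₊ (⌊τ * n⌋₊ + r), ∃ t ∈ range (r + 1), j = ⌊τ * n⌋₊ + t := by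
    intro j hj
    rw [Finset.mem_Icc] at hj
    exact ⟨j - ⌊τ * n⌋₊, by rw [Finset.mem_range]; omega, by omega⟩
  have hlo1 : 1 ≤ ⌊τ * n⌋₊ := by omega
  have hXp : 0 < n * (hp τ lam - ε) := mul_pos hn0 (by linarith)
  have hXm : 0 < n * (hm τ lam - ε) := mul_pos hn0 (by linarith)
  have hlev := window_level (r := r) hlo1 hXp hXm
    (P := fun a => ((n : ℝ) - a - (⌊lam * n⌋₊ : ℕ)) ^ 2 / (n - a))
    (M := fun a => ((a : ℝ) - (⌊lam * n⌋₊ : ℕ)) ^ 2 / a)
    (by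
      intro j hj
      obtain ⟨t, ht, rfl⟩ := key j hj
      have := g1 t ht
      rw [lt_div_iff₀ hn0] at this
      linarith)
    (by
      intro j hj
      obtain ⟨t, ht, rfl⟩ := key j hj
      have := g2 t ht
      rw [lt_div_iff₀ hn0] at this
      linarith)
  obtain ⟨h, hh1, hh2⟩ := finPart n ⌊lam * n⌋₊ ⌊τ * n⌋₊ r g5 g7 g4 g6
    (wwt ⌊τ * n⌋₊ r (Real.sqrt ((n * (hm τ lam - ε)) / (n * (hp τ lam - ε)))))
    (wwt_nonneg _ _ (Real.sqrt_nonneg _)) (fun a ha => if_neg ha)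
    (by
      rw [wwt_mid _ (Finset.mem_Icc.2 ⟨le_rfl, by omega⟩)]
      exact mul_pos (sw_pos _ _) (pow_pos (Real.sqrt_pos.2 (div_pos hXm hXp)) _))
    _ hlev
  refine ⟨h, ?_, ?_⟩
  · have e1 : Real.sqrt (n * (hp τ lam - ε) * (n * (hm τ lam - ε)))
        = n * Real.sqrt ((hp τ lam - ε) * (hm τ lam - ε)) := by
      rw [show (n : ℝ) * (hp τ lam - ε) * (n * (hm τ lam - ε))
        = n ^ 2 * ((hp τ lam - ε) * (hm τ lam - ε)) by ring, Real.sqrt_mul (by positivity),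
        Real.sqrt_sq hn0.le]
    rw [e1] at hh1
    convert hh1 using 1
    ring
  · refine hh2.trans ?_
    have hc : (0 : ℝ) < n.choose ⌊lam * n⌋₊ := by exact_mod_cast Nat.choose_pos (by omega)
    have hpos : (0 : ℝ) < n.choose ⌊lam * n⌋₊ / (n + 1) := by positivity
    exact div_le_div_of_nonneg_right (sum_choose_le _ _ le_rfl) hpos.le

theorem tendsto_level' (P M : ℝ) :
    Tendsto (fun k : ℕ => 2 * Real.sqrt ((P - 1 / ((k : ℝ) + 1))
      * (M - 1 / ((k : ℝ) + 1))) * Real.cos (Real.pi / (k + 2))) atTop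
      (𝓝 (2 * Real.sqrt (P * M))) := by
  have h1 : Tendsto (fun k : ℕ => 1 / ((k : ℝ) + 1)) atTop (𝓝 0) :=
    tendsto_one_div_add_atTop_nhds_zero_nat
  have h2 : Tendsto (fun k : ℕ => Real.pi / ((k : ℝ) + 2)) atTop (𝓝 0) := by
    apply Tendsto.div_atTop tendsto_const_nhds
    exact tendsto_atTop_add_const_right _ _ (tendsto_natCast_atTop_atTop (R := ℝ))
  have h3 := (Real.continuous_cos.tendsto 0).comp h2
  rw [Real.cos_zero] at h3
  have h4 := ((h1.const_sub P).mul (h1.const_sub M))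
  have h5 := (Real.continuous_sqrt.tendsto _).comp h4
  have h6 := (h5.const_mul 2).mul h3
  simpa using h6

theorem tendsto_log_div : Tendsto (fun n : ℕ => Real.log ((n : ℝ) + 1) / n) atTop (𝓝 0) := by
  have h1 : Tendsto (fun n : ℕ => Real.log ((n : ℝ) + 1) / ((n : ℝ) + 1)) atTop (𝓝 0) := by
    have h2 : Tendsto (fun x : ℝ => Real.log x / x) atTop (𝓝 0) := by
      have := Real.isLittleO_log_id_atTop.tendsto_div_nhds_zero
      simpa using this
    exact h2.comp (tendsto_atTop_add_const_right _ _ (tendsto_natCast_atTop_atTop (R := ℝ)))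
  have h3 : Tendsto (fun n : ℕ => ((n : ℝ) + 1) / n) atTop (𝓝 1) := by
    have h4 := (tendsto_const_nhds (x := (1 : ℝ))).add
      (tendsto_one_div_atTop_nhds_zero_nat (𝕜 := ℝ))
    rw [add_zero] at h4
    apply h4.congr'
    filter_upwards [eventually_ge_atTop 1] with n hn
    have hn0 : (0 : ℝ) < n := by exact_mod_cast hn
    field_simp
  have h5 := h1.mul h3
  rw [zero_mul] at h5
  apply h5.congr'
  filter_upwards [eventually_ge_atTop 1] with n hn
  have hn0 : (0 : ℝ) < n := by exact_mod_cast hn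
  field_simp

theorem ell_le_aux {τ lam δ : ℝ} (hl : 0 < lam) (hlt : lam < τ) (hτ : τ < 1 / 2)
    (hδ : 0 ≤ δ) (hlev : 1 - 2 * δ < 2 * Real.sqrt (hp τ lam * hm τ lam)) {τ' : ℝ} (hτ' : τ < τ')
    (hτ'2 : τ' ≤ 1 / 2) :
    ell δ ≤ (Real.binEntropy τ' - Real.binEntropy lam) / Real.log 2 := by
  have hτ0 : 0 < τ := by linarith
  have hpp : 0 < hp τ lam := by
    unfold hp
    have h1 : 0 < 1 - τ - lam := by linarith
    have h2 : 0 < 1 - τ := by linarith
    positivity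
  have hmm : 0 < hm τ lam := by
    unfold hm
    have h1 : 0 < τ - lam := by linarith
    positivity
  obtain ⟨k, hk1, hk2, hk3⟩ := (((tendsto_level' (hp τ lam)
    (hm τ lam)).eventually_const_lt hlev).and
    (((tendsto_one_div_add_atTop_nhds_zero_nat (𝕜 := ℝ)).eventually_lt_const hpp).and
    ((tendsto_one_div_add_atTop_nhds_zero_nat (𝕜 := ℝ)).eventually_lt_const hmm))).exists
  have hcert := asym_cert hl hlt hτ k (ε := 1 / ((k : ℝ) + 1)) (by positivity) hk2 hk3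
  have hlog2 : 0 < Real.log 2 := Real.log_pos (by norm_num)
  have hlim : Tendsto (fun n : ℕ => (Real.binEntropy τ'
      - (Real.binEntropy (((⌊lam * n⌋₊ : ℕ) : ℝ) / n) - 2 * (Real.log (n + 1) / n))) / Real.log 2)
      atTop (𝓝 ((Real.binEntropy τ' - (Real.binEntropy lam - 2 * 0)) / Real.log 2)) := by
    apply Tendsto.div_const
    apply Tendsto.const_sub
    apply Tendsto.sub
    · exact (Real.binEntropy_continuous.tendsto lam).comp (tendsto_floor_div hl.le)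
    · exact tendsto_log_div.const_mul 2
  rw [mul_zero, sub_zero] at hlim
  apply ge_of_tendsto hlim
  have hev : ∀ᶠ n : ℕ in atTop, ((⌊τ * n⌋₊ + k : ℕ) : ℝ) ≤ τ' * n := by
    filter_upwards [(tendsto_floor_add_div hτ0.le k).eventually_lt_const hτ',
      eventually_ge_atTop 1] with n hn hn1
    have hn0 : (0 : ℝ) < n := by exact_mod_cast hn1
    rw [div_lt_iff₀ hn0] at hn
    exact hn.le
  have hev2 : ∀ᶠ n : ℕ in atTop, 0 < ⌊lam * n⌋₊ := by
    have : Tendsto (fun n : ℕ => lam * (n : ℝ)) atTop atTop :=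
      (tendsto_natCast_atTop_atTop (R := ℝ)).const_mul_atTop hl
    filter_upwards [this.eventually_ge_atTop 1] with n hn
    exact Nat.floor_pos.2 hn
  filter_upwards [hcert, hev, hev2, eventually_ge_atTop 1] with n hc he he2 hn1
  have hn0 : (0 : ℝ) < n := by exact_mod_cast hn1
  obtain ⟨h, hh1, hh2⟩ := hc
  have hh3 : IsCert ((1 - 2 * δ) * n) h := by
    apply hh1.mono
    rw [mul_comm]
    exact mul_le_mul_of_nonneg_left hk1.le hn0.le
  refine (ell_le_of_cert hδ hn1 hh3).trans ?_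
  have hwn : ⌊lam * n⌋₊ < n := by
    have : (⌊lam * n⌋₊ : ℝ) ≤ lam * n := Nat.floor_le (by positivity)
    have h7 : (⌊lam * n⌋₊ : ℝ) < n := by nlinarith
    exact_mod_cast h7
  have hcard := card_small_le (n := n) (m := ⌊τ * n⌋₊ + k) (p := τ') (by linarith) hτ'2 he
  have hch := entropy_le_log_choose he2 hwn
  have hchp : (0 : ℝ) < n.choose ⌊lam * n⌋₊ := by exact_mod_cast Nat.choose_pos hwn.le
  have hval : val h ≤ Real.exp (n * Real.binEntropy τ') / (n.choose ⌊lam * n⌋₊ / (n + 1)) := by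
    refine hh2.trans ?_
    gcongr
  have hv1 : 0 < val h := lt_of_lt_of_le one_pos (one_le_val hh1)
  have hlog := Real.log_le_log hv1 hval
  rw [Real.log_div (by positivity) (by positivity), Real.log_div hchp.ne' (by positivity),
    Real.log_exp] at hlog
  rw [Real.logb, div_div, mul_comm (Real.log 2) (n : ℝ), div_le_iff₀ (by positivity)]
  have e1 : (Real.binEntropy τ'
      - (Real.binEntropy (((⌊lam * n⌋₊ : ℕ) : ℝ) / n) - 2 * (Real.log (n + 1) / n))) / Real.log 2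
      * (n * Real.log 2) = n * Real.binEntropy τ'
        - (n * Real.binEntropy (((⌊lam * n⌋₊ : ℕ) : ℝ) / n) - 2 * Real.log (n + 1)) := by
    field_simp
  rw [e1]
  linarith

theorem sqrt_hp_hm {τ lam : ℝ} (hl : 0 ≤ lam) (hlt : lam < τ) (hτ : τ ≤ 1 / 2) :
    2 * Real.sqrt (hp τ lam * hm τ lam)
      = 2 * (τ - lam) * (1 - τ - lam) / Real.sqrt (τ * (1 - τ)) := by
  have h0 : 0 < τ := by linarith
  have h1 : 0 ≤ (τ - lam) * (1 - τ - lam) := by
    apply mul_nonneg <;> linarith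
  have h2 : 0 < τ * (1 - τ) := mul_pos h0 (by linarith)
  have e1 : hp τ lam * hm τ lam = ((τ - lam) * (1 - τ - lam)) ^ 2 / (τ * (1 - τ)) := by
    unfold hp hm
    rw [div_mul_div_comm]
    congr 1 <;> ring
  rw [e1, Real.sqrt_div (sq_nonneg _), Real.sqrt_sq h1]
  ring

theorem ell_le_strict {τ lam δ : ℝ} (hl : 0 < lam) (hlt : lam < τ)
    (hτ : τ < 1 / 2) (hδ : 0 ≤ δ)
    (hlev : 1 - 2 * δ < 2 * (τ - lam) * (1 - τ - lam) / Real.sqrt (τ * (1 - τ))) :
    ell δ ≤ (Real.binEntropy τ - Real.binEntropy lam) / Real.log 2 := by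
  rw [← sqrt_hp_hm hl.le hlt hτ.le] at hlev
  have hlim : Tendsto (fun τ' : ℝ => (Real.binEntropy τ' - Real.binEntropy lam) / Real.log 2)
      (𝓝[>] τ) (𝓝 ((Real.binEntropy τ - Real.binEntropy lam) / Real.log 2)) := by
    apply Tendsto.div_const
    apply Tendsto.sub_const
    exact (Real.binEntropy_continuous.tendsto τ).mono_left nhdsWithin_le_nhds
  apply ge_of_tendsto hlim
  have : Set.Ioo τ (1 / 2) ∈ 𝓝[>] τ := Ioo_mem_nhdsGT hτ
  filter_upwards [this] with x hx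
  exact ell_le_aux hl hlt hτ hδ hlev hx.1 hx.2.le

theorem ell_le_strict' {τ lam δ : ℝ} (hl : 0 ≤ lam) (hlt : lam < τ)
    (hτ : τ ≤ 1 / 2) (hδ : 0 ≤ δ)
    (hlev : 1 - 2 * δ < 2 * (τ - lam) * (1 - τ - lam) / Real.sqrt (τ * (1 - τ))) :
    ell δ ≤ (Real.binEntropy τ - Real.binEntropy lam) / Real.log 2 := by
  have h0 : 0 < τ := by linarith
  have h2 : 0 < τ * (1 - τ) := mul_pos h0 (by linarith)
  have hτs : Tendsto (fun s : ℝ => τ - s) (𝓝[>] 0) (𝓝 τ) := by
    have : Tendsto (fun s : ℝ => τ - s) (𝓝 0) (𝓝 (τ - 0)) :=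
      (continuous_const.sub continuous_id).tendsto 0
    rw [sub_zero] at this
    exact this.mono_left nhdsWithin_le_nhds
  have hls : Tendsto (fun s : ℝ => lam + s) (𝓝[>] 0) (𝓝 lam) := by
    have : Tendsto (fun s : ℝ => lam + s) (𝓝 0) (𝓝 (lam + 0)) :=
      (continuous_const.add continuous_id).tendsto 0
    rw [add_zero] at this
    exact this.mono_left nhdsWithin_le_nhds
  have hlim : Tendsto (fun s : ℝ => (Real.binEntropy (τ - s) - Real.binEntropy (lam + s))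
      / Real.log 2) (𝓝[>] 0) (𝓝 ((Real.binEntropy τ - Real.binEntropy lam) / Real.log 2)) := by
    apply Tendsto.div_const
    exact ((Real.binEntropy_continuous.tendsto τ).comp hτs).sub
      ((Real.binEntropy_continuous.tendsto lam).comp hls)
  have hF : Tendsto (fun s : ℝ => 2 * ((τ - s) - (lam + s)) * (1 - (τ - s) - (lam + s))
      / Real.sqrt ((τ - s) * (1 - (τ - s)))) (𝓝[>] 0)
      (𝓝 (2 * (τ - lam) * (1 - τ - lam) / Real.sqrt (τ * (1 - τ)))) := by
    apply Tendsto.div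
    · exact ((hτs.sub hls).const_mul 2).mul ((hτs.const_sub 1).sub hls)
    · exact (Real.continuous_sqrt.tendsto _).comp (hτs.mul (hτs.const_sub 1))
    · exact (Real.sqrt_pos.2 h2).ne'
  apply ge_of_tendsto hlim
  have hs : Set.Ioo 0 ((τ - lam) / 2) ∈ 𝓝[>] (0 : ℝ) := Ioo_mem_nhdsGT (by linarith)
  filter_upwards [hs, hF.eventually_const_lt hlev] with s hs1 hs2
  obtain ⟨hs3, hs4⟩ := hs1
  exact ell_le_strict (by linarith) (by linarith) (by linarith) hδ hs2

/-- Theorem V1 -/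
theorem ell_le_V1 {τ lam δ : ℝ} (hδ : 0 < δ) (hl : 0 ≤ lam)
    (hlt : lam < τ) (hτ : τ ≤ 1 / 2)
    (hlev : 1 - 2 * δ ≤ 2 * (τ - lam) * (1 - τ - lam) / Real.sqrt (τ * (1 - τ))) :
    ell δ ≤ (Real.binEntropy τ - Real.binEntropy lam) / Real.log 2 := by
  have hcont : ContinuousAt ell δ := ell_continuousOn.continuousAt (Ioi_mem_nhds hδ)
  have hlim : Tendsto ell (𝓝[>] δ) (𝓝 (ell δ)) := hcont.tendsto.mono_left nhdsWithin_le_nhds
  apply le_of_tendsto hlim
  filter_upwards [self_mem_nhdsWithin] with x hx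
  have hx' : δ < x := hx
  exact ell_le_strict' hl hlt hτ (by linarith) (by linarith)

/-- Theorem V1 for the rate of binary codes -/
theorem rate_le_V1 {τ lam δ : ℝ} (hδ : 0 < δ) (hδ2 : δ < 1 / 2) (hl : 0 ≤ lam)
    (hlt : lam < τ) (hτ : τ ≤ 1 / 2)
    (hlev : 1 - 2 * δ ≤ 2 * (τ - lam) * (1 - τ - lam) / Real.sqrt (τ * (1 - τ))) :
    limsup (fun n : ℕ => Real.logb 2 (maxCode n ⌈δ * n⌉₊) / n) atTop
      ≤ (Real.binEntropy τ - Real.binEntropy lam) / Real.log 2 :=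
  (limsup_le_ell hδ hδ2).trans (ell_le_V1 hδ hl hlt hτ hlev)

end Pool.Agent.Lib.MP_0430e4_lc.Harm
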