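import Pool.Agent.Lib.MP_0430e4_lc.TensorCert

/-!
# Harmonic functions on the cube and the certificates built from them
-/

set_option autoImplicit false
set_option linter.unusedSectionVars false

namespace Pool.Agent.Lib.MP_0430e4_lc.Harm

open Finset Tensor

variable {ι : Type*} [Fintype ι] [DecidableEq ι]

/-- the weight -/
def wt (z : ι → Bool) : ℕ := (univ.filter fun i => z i = true).card

theorem flp_self (z : ι → Bool) (i : ι) : flp z i i = !(z i) := by simp [flp]

theorem flp_ne (z : ι → Bool) {i j : ι} (h : j ≠ i) : flp z i j = z j := by simp [flp, h]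

theorem wt_flp_false {z : ι → Bool} {i : ι} (h : z i = false) : wt (flp z i) = wt z + 1 := by
  unfold wt
  have : (univ.filter fun j => flp z i j = true) = insert i (univ.filter fun j => z j = true) := by
    ext j
    simp only [mem_filter, mem_univ, true_and, mem_insert]
    by_cases hj : j = i
    · subst hj
      simp [flp_self, h]
    · rw [flp_ne z hj]
      simp [hj]
  rw [this, card_insert_of_notMem]
  simp [h]

theorem wt_flp_true {z : ι → Bool} {i : ι} (h : z i = true) : wt (flp z i) + 1 = wt z := by
  have h1 : flp z i i = false := by simp [flp, h]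
  have := wt_flp_false h1
  rw [flp_flp] at this
  exact this.symm

theorem wt_eq_sum (z : ι → Bool) : (wt z : ℝ) = ∑ i, (if z i = true then (1 : ℝ) else 0) := by
  unfold wt
  rw [Finset.sum_boole]

theorem wt_co (z : ι → Bool) :
    (Fintype.card ι : ℝ) - wt z = ∑ i, (if z i = false then (1 : ℝ) else 0) := by
  rw [wt_eq_sum]
  have : (Fintype.card ι : ℝ) = ∑ _i : ι, (1 : ℝ) := by simp
  rw [this, ← Finset.sum_sub_distrib]
  apply Finset.sum_congr rfl
  intro i _
  cases z i <;> simp

theorem wt_le (z : ι → Bool) : wt z ≤ Fintype.card ι := by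
  unfold wt
  exact card_le_univ _

/-- harmonic functions of degree `m` on the cube -/
structure IsHarm (m : ℕ) (f : (ι → Bool) → ℝ) : Prop where
  up : ∀ z, ∑ i, (if z i = false then f (flp z i) else 0)
    = ((Fintype.card ι : ℝ) - wt z - m) * f z
  down : ∀ z, ∑ i, (if z i = true then f (flp z i) else 0) = ((wt z : ℝ) - m) * f z

theorem IsHarm.sum {m : ℕ} {κ : Type*} (s : Finset κ) (c : κ → ℝ) (f : κ → (ι → Bool) → ℝ)
    (hf : ∀ k, IsHarm m (f k)) : IsHarm m (fun z => ∑ k ∈ s, c k * f k z) := by
  constructor
  · intro z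
    have : ∀ i, (if z i = false then ∑ k ∈ s, c k * f k (flp z i) else 0)
        = ∑ k ∈ s, c k * (if z i = false then f k (flp z i) else 0) := by
      intro i
      split_ifs <;> simp
    simp only [this]
    rw [Finset.sum_comm, Finset.mul_sum]
    apply Finset.sum_congr rfl
    intro k _
    rw [← Finset.mul_sum, (hf k).up]
    ring
  · intro z
    have : ∀ i, (if z i = true then ∑ k ∈ s, c k * f k (flp z i) else 0)
        = ∑ k ∈ s, c k * (if z i = true then f k (flp z i) else 0) := by
      intro i
      split_ifs <;> simp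
    simp only [this]
    rw [Finset.sum_comm, Finset.mul_sum]
    apply Finset.sum_congr rfl
    intro k _
    rw [← Finset.mul_sum, (hf k).down]
    ring

/-- inner product on a layer -/
def N (a : ℕ) (f g : (ι → Bool) → ℝ) : ℝ := ∑ z, if wt z = a then f z * g z else 0

theorem N_succ {m : ℕ} {f g : (ι → Bool) → ℝ} (hf : IsHarm m f) (hg : IsHarm m g) (a : ℕ) :
    ((a : ℝ) + 1 - m) * N (a + 1) f g = ((Fintype.card ι : ℝ) - a - m) * N a f g := by
  have h1 : ((Fintype.card ι : ℝ) - a - m) * N a f g
      = ∑ z, ∑ i, (if z i = false then (if wt z = a then f (flp z i) * g z else 0) else 0) := by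
    unfold N
    rw [Finset.mul_sum]
    apply Finset.sum_congr rfl
    intro z _
    by_cases h : wt z = a
    · simp only [h, if_true]
      have := hf.up z
      rw [h] at this
      rw [← mul_assoc, ← this, Finset.sum_mul]
      apply Finset.sum_congr rfl
      intro i _
      split_ifs <;> simp
    · simp [h]
  have h2 : ((a : ℝ) + 1 - m) * N (a + 1) f g
      = ∑ z, ∑ i, (if z i = true then (if wt z = a + 1 then f z * g (flp z i) else 0) else 0) := by
    unfold N
    rw [Finset.mul_sum]
    apply Finset.sum_congr rfl
    intro z _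
    by_cases h : wt z = a + 1
    · simp only [h, if_true]
      have := hg.down z
      rw [h] at this
      push_cast at this
      have e : ((a : ℝ) + 1 - m) * (f z * g z) = f z * (((a : ℝ) + 1 - m) * g z) := by ring
      rw [e, ← this, Finset.mul_sum]
      apply Finset.sum_congr rfl
      intro i _
      split_ifs <;> simp
    · simp [h]
  rw [h1, h2]
  rw [Finset.sum_comm]
  conv_rhs => rw [Finset.sum_comm]
  apply Finset.sum_congr rfl
  intro i _
  rw [← sum_flp i]
  apply Finset.sum_congr rfl
  intro z _
  rw [flp_self, flp_flp]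
  cases hz : z i
  · have := wt_flp_false hz
    simp only [Bool.not_false, if_true]
    by_cases h : wt z = a
    · have h' : wt (flp z i) = a + 1 := by omega
      simp [h, h']
    · have h' : wt (flp z i) ≠ a + 1 := by omega
      simp [h, h']
  · simp

theorem N_eq {m : ℕ} (hm : 2 * m ≤ Fintype.card ι) {f g : (ι → Bool) → ℝ} (hf : IsHarm m f)
    (hg : IsHarm m g) (j : ℕ) (hj : j ≤ Fintype.card ι - 2 * m) :
    N (m + j) f g = ((Fintype.card ι - 2 * m).choose j : ℝ) * N m f g := by
  induction j with
  | zero => simp
  | succ j ih =>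
    have ih := ih (by omega)
    have h1 := N_succ hf hg (m + j)
    rw [ih] at h1
    have h2 : ((Fintype.card ι - 2 * m).choose (j + 1) : ℝ) * ((j : ℝ) + 1)
        = ((Fintype.card ι - 2 * m).choose j : ℝ) * ((Fintype.card ι : ℝ) - 2 * m - j) := by
      have := Nat.choose_succ_right_eq (Fintype.card ι - 2 * m) j
      have h3 : ((Fintype.card ι - 2 * m - j : ℕ) : ℝ) = (Fintype.card ι : ℝ) - 2 * m - j := by
        rw [Nat.cast_sub (by omega), Nat.cast_sub hm]
        push_cast
        ring
      rw [← h3]
      exact_mod_cast this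
    push_cast at h1
    have h4 : ((j : ℝ) + 1) ≠ 0 := by positivity
    have h5 : ((j : ℝ) + 1) * N (m + j + 1) f g
        = ((j : ℝ) + 1) * (((Fintype.card ι - 2 * m).choose (j + 1) : ℝ) * N m f g) := by
      have e : ((j : ℝ) + 1) * (((Fintype.card ι - 2 * m).choose (j + 1) : ℝ) * N m f g)
        = (((Fintype.card ι - 2 * m).choose (j + 1) : ℝ) * ((j : ℝ) + 1)) * N m f g := by ring
      rw [e, h2]
      linarith
    exact mul_left_cancel₀ h4 h5

end Pool.Agent.Lib.MP_0430e4_lc.Harm
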