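import Mathlib

/-!
# Calculus for the harmonic kernel bound: an explicit gain over the first MRRW bound

For every `δ` in `(0, 1/2)`, with `τ = 1/2 - √(δ(1-δ))`, there are admissible `lam < tau` with
`H₂(tau) - H₂(lam) ≤ H₂(τ) - 4 δ (1-δ) τ²`.
-/

set_option autoImplicit false

namespace Pool.Agent.Lib.MP_0430e4_lc.Harm

open Real Finset

namespace Calc

/-- `y (1 - log y) ≤ H(lam)` for `y = lam (1 - lam)`. -/
theorem binEntropy_ge {lam : ℝ} (h0 : 0 < lam) (h1 : lam < 1) :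
    lam * (1 - lam) * (1 - Real.log (lam * (1 - lam))) ≤ Real.binEntropy lam := by
  have h1' : 0 < 1 - lam := by linarith
  have e1 : Real.log (lam * (1 - lam)) = Real.log lam + Real.log (1 - lam) :=
    Real.log_mul h0.ne' h1'.ne'
  have e2 : Real.binEntropy lam = - (lam * Real.log lam) - (1 - lam) * Real.log (1 - lam) := by
    unfold Real.binEntropy
    rw [Real.log_inv, Real.log_inv]
    ring
  rw [e1, e2]
  have a1 : Real.log lam ≤ lam - 1 := Real.log_le_sub_one_of_pos h0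
  have a2 : Real.log (1 - lam) ≤ (1 - lam) - 1 := Real.log_le_sub_one_of_pos h1'
  have b1 : lam ^ 2 * Real.log lam ≤ lam ^ 2 * (lam - 1) :=
    mul_le_mul_of_nonneg_left a1 (by positivity)
  have b2 : (1 - lam) ^ 2 * Real.log (1 - lam) ≤ (1 - lam) ^ 2 * ((1 - lam) - 1) :=
    mul_le_mul_of_nonneg_left a2 (by positivity)
  nlinarith

/-- `(log (1+c) - log (1-c)) / c` is increasing. -/
theorem artanh_mono {c c0 : ℝ} (h0 : 0 ≤ c) (h1 : c ≤ c0) (h2 : c0 < 1) :
    c0 * (Real.log (1 + c) - Real.log (1 - c)) ≤ c * (Real.log (1 + c0) - Real.log (1 - c0)) := by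
  have hc0 : 0 ≤ c0 := h0.trans h1
  have s1 := (Real.hasSum_log_sub_log_of_abs_lt_one (x := c)
    (by rw [abs_of_nonneg h0]; linarith)).mul_left c0
  have s2 := (Real.hasSum_log_sub_log_of_abs_lt_one (x := c0)
    (by rw [abs_of_nonneg hc0]; exact h2)).mul_left c
  refine hasSum_le (fun k => ?_) s1 s2
  have hk : c ^ (2 * k) ≤ c0 ^ (2 * k) := pow_le_pow_left₀ h0 h1 _
  have e1 : c0 * (2 * (1 / (2 * (k : ℝ) + 1)) * c ^ (2 * k + 1))
      = (2 * (1 / (2 * (k : ℝ) + 1)) * (c0 * c)) * c ^ (2 * k) := by ring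
  have e2 : c * (2 * (1 / (2 * (k : ℝ) + 1)) * c0 ^ (2 * k + 1))
      = (2 * (1 / (2 * (k : ℝ) + 1)) * (c0 * c)) * c0 ^ (2 * k) := by ring
  rw [e1, e2]
  exact mul_le_mul_of_nonneg_left hk (by positivity)

theorem artanh_ge {c : ℝ} (h0 : 0 ≤ c) (h2 : c < 1) :
    2 * c + 2 / 3 * c ^ 3 ≤ Real.log (1 + c) - Real.log (1 - c) := by
  have s1 := Real.hasSum_log_sub_log_of_abs_lt_one (x := c)
    (by rw [abs_of_nonneg h0]; exact h2)
  have h3 := sum_le_hasSum (range 2) (fun k _ => by positivity) s1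
  simp only [sum_range_succ, sum_range_zero] at h3
  norm_num at h3
  linarith

theorem neg_log_ge {x : ℝ} (h0 : 0 ≤ x) (h1 : x < 1) :
    x + x ^ 2 / 2 + x ^ 3 / 3 + x ^ 4 / 4 ≤ - Real.log (1 - x) := by
  have s1 := Real.hasSum_pow_div_log_of_abs_lt_one (x := x)
    (by rw [abs_of_nonneg h0]; exact h1)
  have h3 := sum_le_hasSum (range 4) (fun k _ => by positivity) s1
  simp only [sum_range_succ, sum_range_zero] at h3
  norm_num at h3
  linarith

/-- tangent line inequality for the entropy as a function of `τ (1 - τ)` -/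
theorem entropy_tangent {a b : ℝ} (h0 : 0 < a) (hab : a ≤ b) (hb : b ≤ 1 / 2) (ha : a < 1 / 2) :
    Real.binEntropy b - Real.binEntropy a
      ≤ (Real.log (1 - a) - Real.log a) / (1 - 2 * a) * (b * (1 - b) - a * (1 - a)) := by
  set g := (Real.log (1 - a) - Real.log a) / (1 - 2 * a) with hg
  have hanti : AntitoneOn (fun x => Real.binEntropy x - g * (x * (1 - x))) (Set.Icc a (1 / 2)) := by
    apply antitoneOn_of_deriv_nonpos (convex_Icc a (1 / 2))
    · apply ContinuousOn.sub Real.binEntropy_continuous.continuousOn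
      fun_prop
    · intro x hx
      rw [interior_Icc] at hx
      have hx0 : x ≠ 0 := by linarith [hx.1]
      have hx1 : x ≠ 1 := by linarith [hx.2]
      exact ((Real.hasDerivAt_binEntropy hx0 hx1).differentiableAt.sub
        (by fun_prop)).differentiableWithinAt
    · intro x hx
      rw [interior_Icc] at hx
      have hx0 : x ≠ 0 := by linarith [hx.1]
      have hx1 : x ≠ 1 := by linarith [hx.2]
      have hd1 := Real.hasDerivAt_binEntropy hx0 hx1
      have hd2 : HasDerivAt (fun x : ℝ => g * (x * (1 - x))) (g * (1 * (1 - x) + x * (0 - 1))) x := by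
        have := ((hasDerivAt_id x).mul ((hasDerivAt_const x (1 : ℝ)).sub (hasDerivAt_id x))).const_mul g
        simpa using this
      have hd := (hd1.sub hd2).deriv
      rw [show (fun x => Real.binEntropy x - g * (x * (1 - x)))
        = (Real.binEntropy - fun x : ℝ => g * (x * (1 - x))) from rfl, hd]
      -- log (1-x) - log x <= g (1-2x)
      have hm := artanh_mono (c := 1 - 2 * x) (c0 := 1 - 2 * a) (by linarith [hx.2])
        (by linarith [hx.1]) (by linarith)
      have e1 : Real.log (1 + (1 - 2 * x)) = Real.log 2 + Real.log (1 - x) := by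
        rw [← Real.log_mul (by norm_num) (by linarith [hx.2])]; congr 1; ring
      have e2 : Real.log (1 - (1 - 2 * x)) = Real.log 2 + Real.log x := by
        rw [← Real.log_mul (by norm_num) hx0]; congr 1; ring
      have e3 : Real.log (1 + (1 - 2 * a)) = Real.log 2 + Real.log (1 - a) := by
        rw [← Real.log_mul (by norm_num) (by linarith)]; congr 1; ring
      have e4 : Real.log (1 - (1 - 2 * a)) = Real.log 2 + Real.log a := by
        rw [← Real.log_mul (by norm_num) h0.ne']; congr 1; ring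
      rw [e1, e2, e3, e4] at hm
      have hpos : 0 < 1 - 2 * a := by linarith
      have h5 : Real.log (1 - x) - Real.log x ≤ g * (1 - 2 * x) := by
        rw [hg, div_mul_eq_mul_div, le_div_iff₀ hpos]
        nlinarith
      linarith
  have h := hanti (Set.left_mem_Icc.2 (hab.trans hb)) ⟨hab, hb⟩ hab
  simp only at h
  linarith

/-- the lower bound for `-2 log (1-c²) - (2/c)(log (1+c) - log (1-c))`, multiplied by `c` -/
theorem D_ge {c : ℝ} (h0 : 0 ≤ c) (h1 : c < 1) :
    -4 * c + 2 / 3 * c ^ 3 + c ^ 5 / 5 + 2 / 21 * c ^ 7 + c ^ 9 / 18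
      ≤ -2 * ((1 + c) * Real.log (1 + c) - (1 - c) * Real.log (1 - c)) := by
  have hmono : MonotoneOn (fun x : ℝ => -2 * ((1 + x) * Real.log (1 + x)
      - (1 - x) * Real.log (1 - x))
      - (-4 * x + 2 / 3 * x ^ 3 + x ^ 5 / 5 + 2 / 21 * x ^ 7 + x ^ 9 / 18)) (Set.Icc 0 c) := by
    apply monotoneOn_of_deriv_nonneg (convex_Icc 0 c)
    · apply ContinuousOn.sub
      · apply ContinuousOn.mul continuousOn_const
        apply ContinuousOn.sub
        · apply ContinuousOn.mul (by fun_prop)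
          apply ContinuousOn.log (by fun_prop)
          intro x hx
          linarith [hx.1]
        · apply ContinuousOn.mul (by fun_prop)
          apply ContinuousOn.log (by fun_prop)
          intro x hx
          linarith [hx.2]
      · fun_prop
    · intro x hx
      rw [interior_Icc] at hx
      have hx1 : 1 + x ≠ 0 := by linarith [hx.1]
      have hx2 : 1 - x ≠ 0 := by linarith [hx.2]
      have : DifferentiableAt ℝ (fun x : ℝ => -2 * ((1 + x) * Real.log (1 + x)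
      - (1 - x) * Real.log (1 - x))
      - (-4 * x + 2 / 3 * x ^ 3 + x ^ 5 / 5 + 2 / 21 * x ^ 7 + x ^ 9 / 18)) x := by
        fun_prop (disch := assumption)
      exact this.differentiableWithinAt
    · intro x hx
      rw [interior_Icc] at hx
      have hx1 : 1 + x ≠ 0 := by linarith [hx.1]
      have hx2 : 1 - x ≠ 0 := by linarith [hx.2]
      have p1 : HasDerivAt (fun x : ℝ => (1 + x) * Real.log (1 + x)) (Real.log (1 + x) + 1) x := by
        have hu : HasDerivAt (fun x : ℝ => 1 + x) 1 x := (hasDerivAt_id x).const_add 1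
        have := hu.mul (hu.log hx1)
        refine HasDerivAt.congr_deriv this ?_
        field_simp
      have p2 : HasDerivAt (fun x : ℝ => (1 - x) * Real.log (1 - x)) (- Real.log (1 - x) - 1) x := by
        have hu : HasDerivAt (fun x : ℝ => 1 - x) (-1) x := (hasDerivAt_id x).const_sub 1
        have := hu.mul (hu.log hx2)
        refine HasDerivAt.congr_deriv this ?_
        field_simp
        ring
      have p3 : HasDerivAt (fun x : ℝ => -4 * x + 2 / 3 * x ^ 3 + x ^ 5 / 5 + 2 / 21 * x ^ 7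
          + x ^ 9 / 18) (-4 + 2 * x ^ 2 + x ^ 4 + 2 / 3 * x ^ 6 + x ^ 8 / 2) x := by
        have q1 := (hasDerivAt_id x).const_mul (-4 : ℝ)
        have q3 := (hasDerivAt_pow 3 x).const_mul (2 / 3 : ℝ)
        have q5 := (hasDerivAt_pow 5 x).div_const (5 : ℝ)
        have q7 := (hasDerivAt_pow 7 x).const_mul (2 / 21 : ℝ)
        have q9 := (hasDerivAt_pow 9 x).div_const (18 : ℝ)
        have := (((q1.add q3).add q5).add q7).add q9
        refine HasDerivAt.congr_deriv this ?_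
        push_cast
        ring
      have hd := (((p1.sub p2).const_mul (-2 : ℝ)).sub p3).deriv
      have e : (fun x : ℝ => -2 * ((1 + x) * Real.log (1 + x)
        - (1 - x) * Real.log (1 - x))
        - (-4 * x + 2 / 3 * x ^ 3 + x ^ 5 / 5 + 2 / 21 * x ^ 7 + x ^ 9 / 18))
        = (fun x => -2 * ((fun x : ℝ => (1 + x) * Real.log (1 + x)) - fun x : ℝ => (1 - x) * Real.log (1 - x)) x)
          - fun x : ℝ => -4 * x + 2 / 3 * x ^ 3 + x ^ 5 / 5 + 2 / 21 * x ^ 7 + x ^ 9 / 18 := by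
        ext x
        simp
      rw [e, hd]
      have hx3 : x ^ 2 < 1 := by nlinarith [hx.1, hx.2]
      have hl := neg_log_ge (x := x ^ 2) (by positivity) hx3
      have e2 : Real.log (1 - x ^ 2) = Real.log (1 + x) + Real.log (1 - x) := by
        rw [← Real.log_mul hx1 hx2]; congr 1; ring
      rw [e2] at hl
      nlinarith
  have h := hmono (Set.left_mem_Icc.2 h0) (Set.right_mem_Icc.2 h0) h0
  simp only at h
  norm_num at h
  linarith

theorem poly_ge {c : ℝ} (h0 : 0 ≤ c) (h1 : c ≤ 1) :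
    (693147 / 1000000 : ℝ) ≤ ((1 + c) / 2) ^ 2 * ((1 + (1 - c ^ 2) / 4 * c ^ 2)
      * (1 - (1 - c ^ 2) / 4 * c ^ 2 + (4 * (693147 / 1000000) - 4 + 2 / 3 * c ^ 2 + c ^ 4 / 5
        + 2 / 21 * c ^ 6 + c ^ 8 / 18)
        + 2 * ((1 - c) + (1 - c) ^ 2 / 2 + (1 - c) ^ 3 / 3))
      + (1 - c ^ 2) / 4 * c ^ 2 * (2 + 2 / 3 * c ^ 2)) := by
  have key : ((1 + c) / 2) ^ 2 * ((1 + (1 - c ^ 2) / 4 * c ^ 2)
      * (1 - (1 - c ^ 2) / 4 * c ^ 2 + (4 * (693147 / 1000000) - 4 + 2 / 3 * c ^ 2 + c ^ 4 / 5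
        + 2 / 21 * c ^ 6 + c ^ 8 / 18)
        + 2 * ((1 - c) + (1 - c) ^ 2 / 2 + (1 - c) ^ 3 / 3))
      + (1 - c ^ 2) / 4 * c ^ 2 * (2 + 2 / 3 * c ^ 2)) - 693147 / 1000000
      = (1 / 6 : ℝ) * c ^ 0 * (1 - c) ^ 14
        + (3829441 / 1500000 : ℝ) * c ^ 1 * (1 - c) ^ 13
        + (68303023 / 4000000 : ℝ) * c ^ 2 * (1 - c) ^ 12
        + (400748263 / 6000000 : ℝ) * c ^ 3 * (1 - c) ^ 11
        + (102694337 / 600000 : ℝ) * c ^ 4 * (1 - c) ^ 10
        + (56786207 / 187500 : ℝ) * c ^ 5 * (1 - c) ^ 9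
        + (15850477567 / 42000000 : ℝ) * c ^ 6 * (1 - c) ^ 8
        + (2302903943 / 7000000 : ℝ) * c ^ 7 * (1 - c) ^ 7
        + (6079244917 / 31500000 : ℝ) * c ^ 8 * (1 - c) ^ 6
        + (2170784699 / 31500000 : ℝ) * c ^ 9 * (1 - c) ^ 5
        + (314688457 / 28000000 : ℝ) * c ^ 10 * (1 - c) ^ 4
        + (44926967 / 126000000 : ℝ) * c ^ 11 * (1 - c) ^ 3
        + (61950901 / 63000000 : ℝ) * c ^ 12 * (1 - c) ^ 2
        + (1017011 / 1575000 : ℝ) * c ^ 13 * (1 - c) ^ 1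
        + (6104783 / 63000000 : ℝ) * c ^ 14 * (1 - c) ^ 0 := by
    ring
  have hc : 0 ≤ 1 - c := by linarith
  have h2 : (0 : ℝ) ≤ (1 / 6 : ℝ) * c ^ 0 * (1 - c) ^ 14
        + (3829441 / 1500000 : ℝ) * c ^ 1 * (1 - c) ^ 13
        + (68303023 / 4000000 : ℝ) * c ^ 2 * (1 - c) ^ 12
        + (400748263 / 6000000 : ℝ) * c ^ 3 * (1 - c) ^ 11
        + (102694337 / 600000 : ℝ) * c ^ 4 * (1 - c) ^ 10
        + (56786207 / 187500 : ℝ) * c ^ 5 * (1 - c) ^ 9
        + (15850477567 / 42000000 : ℝ) * c ^ 6 * (1 - c) ^ 8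
        + (2302903943 / 7000000 : ℝ) * c ^ 7 * (1 - c) ^ 7
        + (6079244917 / 31500000 : ℝ) * c ^ 8 * (1 - c) ^ 6
        + (2170784699 / 31500000 : ℝ) * c ^ 9 * (1 - c) ^ 5
        + (314688457 / 28000000 : ℝ) * c ^ 10 * (1 - c) ^ 4
        + (44926967 / 126000000 : ℝ) * c ^ 11 * (1 - c) ^ 3
        + (61950901 / 63000000 : ℝ) * c ^ 12 * (1 - c) ^ 2
        + (1017011 / 1575000 : ℝ) * c ^ 13 * (1 - c) ^ 1
        + (6104783 / 63000000 : ℝ) * c ^ 14 * (1 - c) ^ 0 := by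
    positivity
  linarith


/-- solve `x (1 - x) = t` -/
theorem exists_root {t : ℝ} (h0 : 0 < t) (h1 : t < 1 / 4) :
    ∃ x : ℝ, 0 < x ∧ x < 1 / 2 ∧ x * (1 - x) = t := by
  refine ⟨(1 - Real.sqrt (1 - 4 * t)) / 2, ?_, ?_, ?_⟩
  · have : Real.sqrt (1 - 4 * t) < 1 := by
      rw [Real.sqrt_lt' one_pos]
      linarith
    linarith
  · have : 0 < Real.sqrt (1 - 4 * t) := Real.sqrt_pos.2 (by linarith)
    linarith
  · have : Real.sqrt (1 - 4 * t) ^ 2 = 1 - 4 * t := Real.sq_sqrt (by linarith)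
    nlinarith

theorem root_lt {x y : ℝ} (hx : x < 1 / 2) (hy : y < 1 / 2)
    (h : x * (1 - x) < y * (1 - y)) : x < y := by
  by_contra hcon
  push Not at hcon
  nlinarith

/-- The choice of the parameters and the resulting gain, for a free parameter `κ`. -/
theorem core {c κ : ℝ} (hc0 : 0 < c) (hc1 : c < 1) (hκ : 0 < κ)
    (hu : (1 - c ^ 2) * (1 + κ) ^ 2 < 1) :
    ∃ tau lam : ℝ, 0 < lam ∧ lam < tau ∧ tau < 1 / 2 ∧
      Real.sqrt (1 - c ^ 2) = 2 * (tau - lam) * (1 - tau - lam) / Real.sqrt (tau * (1 - tau)) ∧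
      (1 - c ^ 2) / 4 * κ * ((1 + κ) * (1 - κ - Real.log ((1 - c ^ 2) / 4) - Real.log κ)
          - (Real.log (1 + c) - Real.log (1 - c)) / c * (2 + κ))
        ≤ Real.binEntropy ((1 - c) / 2) - Real.binEntropy tau + Real.binEntropy lam := by
  have hs0 : 0 < 1 - c ^ 2 := by nlinarith
  set t := (1 - c ^ 2) / 4 with ht
  have ht0 : 0 < t := by positivity
  have h4t : 1 - c ^ 2 = 4 * t := by rw [ht]; ring
  obtain ⟨tau, ht1, ht2, ht3⟩ := exists_root (t := t * (1 + κ) ^ 2) (by positivity)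
    (by rw [h4t] at hu; linarith)
  obtain ⟨lam, hl1, hl2, hl3⟩ := exists_root (t := t * κ * (1 + κ)) (by positivity)
    (by rw [h4t] at hu; nlinarith [mul_pos ht0 hκ])
  have hlt : lam < tau := by
    apply root_lt hl2 ht2
    rw [ht3, hl3]
    nlinarith [mul_pos ht0 hκ]
  refine ⟨tau, lam, hl1, hlt, ht2, ?_, ?_⟩
  · have e1 : Real.sqrt (tau * (1 - tau)) = Real.sqrt (1 - c ^ 2) / 2 * (1 + κ) := by
      have f1 : Real.sqrt (t * (1 + κ) ^ 2) = Real.sqrt t * (1 + κ) := by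
        rw [Real.sqrt_mul ht0.le, Real.sqrt_sq (by positivity)]
      have f2 : Real.sqrt (4 * t) = 2 * Real.sqrt t := by
        rw [show (4 : ℝ) * t = 2 ^ 2 * t by ring, Real.sqrt_mul (by norm_num),
          Real.sqrt_sq (by norm_num)]
      rw [ht3, h4t, f1, f2]
      ring
    have hs : 0 < Real.sqrt (1 - c ^ 2) := Real.sqrt_pos.2 hs0
    rw [e1, eq_div_iff (by positivity)]
    have e2 : (tau - lam) * (1 - tau - lam) = t * (1 + κ) := by
      have : (tau - lam) * (1 - tau - lam) = tau * (1 - tau) - lam * (1 - lam) := by ring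
      rw [this, ht3, hl3]
      ring
    have e3 : Real.sqrt (1 - c ^ 2) * Real.sqrt (1 - c ^ 2) = 4 * t := by
      rw [Real.mul_self_sqrt hs0.le, h4t]
    calc Real.sqrt (1 - c ^ 2) * (Real.sqrt (1 - c ^ 2) / 2 * (1 + κ))
        = (Real.sqrt (1 - c ^ 2) * Real.sqrt (1 - c ^ 2)) * (1 + κ) / 2 := by ring
      _ = 2 * (t * (1 + κ)) := by rw [e3]; ring
      _ = 2 * (tau - lam) * (1 - tau - lam) := by rw [← e2]; ring
  · -- the gain
    have ha0 : 0 < (1 - c) / 2 := by linarith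
    have hab : (1 - c) / 2 ≤ tau := by
      apply (root_lt (x := (1 - c) / 2) (by linarith) ht2 _).le
      rw [ht3]
      have : (1 - c) / 2 * (1 - (1 - c) / 2) = t := by rw [ht]; ring
      rw [this]
      nlinarith [mul_pos ht0 hκ]
    have h1 := entropy_tangent ha0 hab ht2.le (by linarith)
    have h2 := binEntropy_ge hl1 (by linarith)
    have e1 : (1 - c) / 2 * (1 - (1 - c) / 2) = t := by rw [ht]; ring
    have e2 : 1 - 2 * ((1 - c) / 2) = c := by ring
    have e3 : Real.log (1 - (1 - c) / 2) - Real.log ((1 - c) / 2)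
        = Real.log (1 + c) - Real.log (1 - c) := by
      rw [show 1 - (1 - c) / 2 = (1 + c) / 2 by ring, Real.log_div (by linarith) (by norm_num),
        Real.log_div (by linarith) (by norm_num)]
      ring
    rw [e1, e2, e3, ht3] at h1
    rw [hl3] at h2
    have e4 : Real.log (t * κ * (1 + κ)) = Real.log t + Real.log κ + Real.log (1 + κ) := by
      rw [Real.log_mul (by positivity) (by positivity), Real.log_mul ht0.ne' hκ.ne']
    have h3 : Real.log (1 + κ) ≤ κ := by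
      have := Real.log_le_sub_one_of_pos (show 0 < 1 + κ by linarith)
      linarith
    rw [e4] at h2
    set g := (Real.log (1 + c) - Real.log (1 - c)) / c with hg
    have h5 : t * κ * (1 + κ) * (1 - (Real.log t + Real.log κ + κ))
        ≤ t * κ * (1 + κ) * (1 - (Real.log t + Real.log κ + Real.log (1 + κ))) :=
      mul_le_mul_of_nonneg_left (by linarith) (by positivity)
    have e6 : t * κ * ((1 + κ) * (1 - κ - Real.log t - Real.log κ)
        - g * (2 + κ))
        = t * κ * (1 + κ) * (1 - (Real.log t + Real.log κ + κ)) - g * (t * (1 + κ) ^ 2 - t) := by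
      ring
    rw [e6]
    linarith


/-- The gain with `κ = c² (1 - c²) / 4` is at least `log 2 * τ² c²`. -/
theorem gain_one {c : ℝ} (hc0 : 0 < c) (hc1 : c < 1) :
    ∃ tau lam : ℝ, 0 < lam ∧ lam < tau ∧ tau < 1 / 2 ∧
      Real.sqrt (1 - c ^ 2) = 2 * (tau - lam) * (1 - tau - lam) / Real.sqrt (tau * (1 - tau)) ∧
      Real.log 2 * (((1 - c) / 2) ^ 2 * c ^ 2)
        ≤ Real.binEntropy ((1 - c) / 2) - Real.binEntropy tau + Real.binEntropy lam := by
  have hs0 : 0 < 1 - c ^ 2 := by nlinarith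
  set t := (1 - c ^ 2) / 4 with ht
  have ht0 : 0 < t := by positivity
  set κ := t * c ^ 2 with hκd
  have hκ : 0 < κ := by positivity
  have hu : (1 - c ^ 2) * (1 + κ) ^ 2 < 1 := by
    have h1 : κ ≤ c ^ 2 / 4 := by
      rw [hκd]
      have : t ≤ 1 / 4 := by rw [ht]; nlinarith [sq_nonneg c]
      nlinarith [sq_nonneg c]
    have h2 : (1 + κ) ^ 2 ≤ (1 + c ^ 2 / 4) ^ 2 :=
      pow_le_pow_left₀ (by linarith) (by linarith) 2
    have h3 : (1 + c ^ 2 / 4) ^ 2 ≤ 1 + c ^ 2 := by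
      have : c ^ 2 < 1 := by linarith
      nlinarith [sq_nonneg c]
    have h4 : (1 - c ^ 2) * (1 + κ) ^ 2 ≤ (1 - c ^ 2) * (1 + c ^ 2) :=
      mul_le_mul_of_nonneg_left (h2.trans h3) hs0.le
    have h5 : 0 < c ^ 4 := by positivity
    nlinarith
  obtain ⟨tau, lam, h1, h2, h3, h4, h5⟩ := core hc0 hc1 hκ hu
  refine ⟨tau, lam, h1, h2, h3, h4, le_trans ?_ h5⟩
  rw [← ht]
  -- logarithms
  set A := Real.log (1 + c) with hA
  set B := Real.log (1 - c) with hB
  have elt : Real.log t = A + B - 2 * Real.log 2 := by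
    rw [ht, Real.log_div hs0.ne' (by norm_num), show (1 - c ^ 2) = (1 + c) * (1 - c) by ring,
      Real.log_mul (by linarith) (by linarith), show (4 : ℝ) = 2 ^ 2 by norm_num, Real.log_pow]
    push_cast
    ring
  have elk : Real.log κ = Real.log t + 2 * Real.log c := by
    rw [hκd, Real.log_mul ht0.ne' (by positivity), Real.log_pow]
    push_cast
    ring
  have hD := D_ge hc0.le hc1
  have hG := artanh_ge hc0.le hc1
  have hL := neg_log_ge (x := 1 - c) (by linarith) (by linarith)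
  rw [show 1 - (1 - c) = c by ring] at hL
  have hl2 := Real.log_two_gt_d9
  set g := (A - B) / c with hg
  have hgc : g * c = A - B := by rw [hg]; field_simp
  -- D = -2 log t - 2 g
  have hDD : 4 * Real.log 2 - 4 + 2 / 3 * c ^ 2 + c ^ 4 / 5 + 2 / 21 * c ^ 6 + c ^ 8 / 18
      ≤ -2 * Real.log t - 2 * g := by
    have e : c * (-2 * Real.log t - 2 * g)
        = 4 * Real.log 2 * c - 2 * ((1 + c) * A - (1 - c) * B) := by
      rw [elt]
      calc c * (-2 * (A + B - 2 * Real.log 2) - 2 * g)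
          = 4 * Real.log 2 * c - 2 * c * (A + B) - 2 * (g * c) := by ring
        _ = _ := by rw [hgc]; ring
    apply le_of_mul_le_mul_left _ hc0
    rw [e]
    nlinarith
  have hgg : 2 + 2 / 3 * c ^ 2 ≤ g := by
    rw [hg, le_div_iff₀ hc0]
    nlinarith
  have hLL : 2 * ((1 - c) + (1 - c) ^ 2 / 2 + (1 - c) ^ 3 / 3) ≤ -2 * Real.log c := by
    have : 0 ≤ (1 - c) ^ 4 / 4 := by positivity
    linarith
  have hP := poly_ge hc0.le hc1.le
  have hκe : (1 - c ^ 2) / 4 * c ^ 2 = κ := by rw [hκd, ht]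
  rw [hκe] at hP
  -- the bracket
  set E := (1 + κ) * (1 - κ - Real.log t - Real.log κ) - g * (2 + κ) with hE
  have hE1 : E = (1 + κ) * (1 - κ + (-2 * Real.log t - 2 * g) + (-2 * Real.log c)) + κ * g := by
    rw [hE, elk]
    ring
  have hE2 : (1 + κ) * (1 - κ + (4 * Real.log 2 - 4 + 2 / 3 * c ^ 2 + c ^ 4 / 5 + 2 / 21 * c ^ 6
      + c ^ 8 / 18) + 2 * ((1 - c) + (1 - c) ^ 2 / 2 + (1 - c) ^ 3 / 3))
      + κ * (2 + 2 / 3 * c ^ 2) ≤ E := by
    rw [hE1]
    apply add_le_add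
    · apply mul_le_mul_of_nonneg_left _ (by linarith)
      linarith
    · exact mul_le_mul_of_nonneg_left hgg hκ.le
  have hfinal : Real.log 2 ≤ ((1 + c) / 2) ^ 2 * E := by
    have q1 : ((1 + c) / 2) ^ 2 * ((1 + κ) * (1 - κ + (4 * Real.log 2 - 4 + 2 / 3 * c ^ 2
      + c ^ 4 / 5 + 2 / 21 * c ^ 6
      + c ^ 8 / 18) + 2 * ((1 - c) + (1 - c) ^ 2 / 2 + (1 - c) ^ 3 / 3))
      + κ * (2 + 2 / 3 * c ^ 2)) ≤ ((1 + c) / 2) ^ 2 * E :=
      mul_le_mul_of_nonneg_left hE2 (by positivity)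
    have q2 : 1 ≤ 4 * ((1 + c) / 2) ^ 2 * (1 + κ) := by
      nlinarith [sq_nonneg c, mul_pos hκ hc0]
    have q3 : 0 ≤ (4 * ((1 + c) / 2) ^ 2 * (1 + κ) - 1) * (Real.log 2 - 693147 / 1000000) :=
      mul_nonneg (by linarith) (by norm_num at hl2 ⊢; linarith)
    generalize ((1 + c) / 2) ^ 2 = W at hP q1 q3 ⊢
    generalize 2 / 3 * c ^ 2 = m1 at hP q1
    generalize c ^ 4 / 5 = m2 at hP q1
    generalize 2 / 21 * c ^ 6 = m3 at hP q1
    generalize c ^ 8 / 18 = m4 at hP q1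
    generalize 2 * ((1 - c) + (1 - c) ^ 2 / 2 + (1 - c) ^ 3 / 3) = m5 at hP q1
    generalize Real.log 2 = l2 at q1 q3 ⊢
    linarith
  calc Real.log 2 * (((1 - c) / 2) ^ 2 * c ^ 2)
      ≤ (((1 + c) / 2) ^ 2 * E) * (((1 - c) / 2) ^ 2 * c ^ 2) :=
        mul_le_mul_of_nonneg_right hfinal (by positivity)
    _ = t * κ * E := by rw [hκd, ht]; ring


/-- The asymptotically sharp gain: `κ = (1 - c²) / 4`. -/
theorem gain_two {c : ℝ} (hc0 : 0 < c) (hc1 : c < 1) :
    ∃ tau lam : ℝ, 0 < lam ∧ lam < tau ∧ tau < 1 / 2 ∧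
      Real.sqrt (1 - c ^ 2) = 2 * (tau - lam) * (1 - tau - lam) / Real.sqrt (tau * (1 - tau)) ∧
      ((1 - c) / 2) ^ 2 * (1 - 2 * ((1 - c) / 2)
          + 4 * ((1 - c) / 2) * Real.log ((1 - c) / 2))
        ≤ Real.binEntropy ((1 - c) / 2) - Real.binEntropy tau + Real.binEntropy lam := by
  set q := (1 - c) / 2 with hq
  have hq0 : 0 < q := by rw [hq]; linarith
  rcases le_or_gt (1 / 5) q with hq5 | hq5
  · -- trivial range
    obtain ⟨tau, lam, h1, h2, h3, h4, h5⟩ := gain_one hc0 hc1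
    refine ⟨tau, lam, h1, h2, h3, h4, le_trans ?_ h5⟩
    have hq2 : q < 1 / 2 := by rw [hq]; linarith
    have hl : Real.log q ≤ q - 1 := Real.log_le_sub_one_of_pos hq0
    have h6 : 1 - 2 * q + 4 * q * Real.log q ≤ 0 := by nlinarith
    have h7 : q ^ 2 * (1 - 2 * q + 4 * q * Real.log q) ≤ 0 :=
      mul_nonpos_of_nonneg_of_nonpos (by positivity) h6
    have h8 : 0 ≤ Real.log 2 * (((1 - c) / 2) ^ 2 * c ^ 2) := by
      have := Real.log_nonneg (show (1 : ℝ) ≤ 2 by norm_num)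
      positivity
    linarith
  have hs0 : 0 < 1 - c ^ 2 := by nlinarith
  set t := (1 - c ^ 2) / 4 with ht
  have ht0 : 0 < t := by positivity
  have htq : t = q * (1 - q) := by rw [ht, hq]; ring
  have ht1 : t < 4 / 25 := by rw [htq]; nlinarith
  have h4t : 1 - c ^ 2 = 4 * t := by rw [ht]; ring
  have hu : (1 - c ^ 2) * (1 + t) ^ 2 < 1 := by
    rw [h4t]
    have h2 : (1 + t) ^ 2 < (1 + 4 / 25) ^ 2 :=
      pow_lt_pow_left₀ (by linarith) (by linarith) (by norm_num)
    nlinarith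
  obtain ⟨tau, lam, h1, h2, h3, h4, h5⟩ := core hc0 hc1 ht0 hu
  refine ⟨tau, lam, h1, h2, h3, h4, le_trans ?_ h5⟩
  rw [← ht]
  set A := Real.log (1 + c) with hA
  set B := Real.log (1 - c) with hB
  have elt : Real.log t = A + B - 2 * Real.log 2 := by
    rw [ht, Real.log_div hs0.ne' (by norm_num), show (1 - c ^ 2) = (1 + c) * (1 - c) by ring,
      Real.log_mul (by linarith) (by linarith), show (4 : ℝ) = 2 ^ 2 by norm_num, Real.log_pow]
    push_cast
    ring
  have hD := D_ge hc0.le hc1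
  have hG := artanh_ge hc0.le hc1
  have hl2 := Real.log_two_gt_d9
  set g := (A - B) / c with hg
  have hgc : g * c = A - B := by rw [hg]; field_simp
  set D := -2 * Real.log t - 2 * g with hDdef
  have eD : c * D = 4 * Real.log 2 * c - 2 * ((1 + c) * A - (1 - c) * B) := by
    rw [hDdef, elt]
    calc c * (-2 * (A + B - 2 * Real.log 2) - 2 * g)
        = 4 * Real.log 2 * c - 2 * c * (A + B) - 2 * (g * c) := by ring
      _ = _ := by rw [hgc]; ring
  have hD1 : 4 * Real.log 2 - 4 ≤ D := by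
    apply le_of_mul_le_mul_left _ hc0
    rw [eD]
    have : 0 ≤ 2 / 3 * c ^ 3 + c ^ 5 / 5 + 2 / 21 * c ^ 7 + c ^ 9 / 18 := by positivity
    linarith
  have hg2 : 2 ≤ g := by
    rw [hg, le_div_iff₀ hc0]
    have : 0 ≤ 2 / 3 * c ^ 3 := by positivity
    linarith
  -- D >= 4 q log q
  have eA : A = Real.log 2 + Real.log (1 - q) := by
    rw [hA, ← Real.log_mul (by norm_num) (by linarith)]
    congr 1
    rw [hq]; ring
  have eB : B = Real.log 2 + Real.log q := by
    rw [hB, ← Real.log_mul (by norm_num) hq0.ne']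
    congr 1
    rw [hq]; ring
  have hce : c = 1 - 2 * q := by rw [hq]; ring
  have hD2 : 4 * q * Real.log q ≤ D := by
    apply le_of_mul_le_mul_left _ hc0
    rw [eD, eA, eB]
    -- c * (4 q log q) <= -4 (p log p - q log q)
    have e1 : 4 * Real.log 2 * c - 2 * ((1 + c) * (Real.log 2 + Real.log (1 - q))
        - (1 - c) * (Real.log 2 + Real.log q))
        = -4 * ((1 - q) * Real.log (1 - q) - q * Real.log q) := by
      rw [hce]; ring
    rw [e1, hce]
    have e2 : -4 * ((1 - q) * Real.log (1 - q) - q * Real.log q)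
        - (1 - 2 * q) * (4 * q * Real.log q)
        = 4 * (2 * q ^ 2 * Real.log q - (1 - q) * Real.log (1 - q)) := by ring
    have k1 : Real.log (1 - q) ≤ - q := by
      have := Real.log_le_sub_one_of_pos (show 0 < 1 - q by linarith)
      linarith
    -- - q log q <= 2/5
    have k2 : -(q * Real.log q) ≤ 2 / 5 := by
      have hz : 0 < q⁻¹ / Real.exp 1 := by positivity
      have := Real.log_le_sub_one_of_pos hz
      rw [Real.log_div (by positivity) (by positivity), Real.log_exp, Real.log_inv] at this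
      have h6 : - Real.log q ≤ q⁻¹ / Real.exp 1 := by linarith
      have h7 : q * (- Real.log q) ≤ q * (q⁻¹ / Real.exp 1) := mul_le_mul_of_nonneg_left h6 hq0.le
      have h8 : q * (q⁻¹ / Real.exp 1) = 1 / Real.exp 1 := by field_simp
      have h9 : 1 / Real.exp 1 ≤ 2 / 5 := by
        rw [div_le_div_iff₀ (Real.exp_pos 1) (by norm_num)]
        have := Real.exp_one_gt_d9
        linarith
      linarith
    have k3 : (1 - q) * Real.log (1 - q) ≤ (1 - q) * (- q) :=
      mul_le_mul_of_nonneg_left k1 (by linarith)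
    have k4 : -(2 * q ^ 2 * Real.log q) ≤ 2 * q * (2 / 5) := by
      have := mul_le_mul_of_nonneg_left k2 (show 0 ≤ 2 * q by linarith)
      nlinarith
    nlinarith
  have hE : (1 + t) * (1 - t - Real.log t - Real.log t) - g * (2 + t)
      = 1 + D + t * (D + g - t) := by
    rw [hDdef]; ring
  rw [hE]
  have hnn : 0 ≤ t * (D + g - t) := mul_nonneg ht0.le (by norm_num at hl2; linarith)
  have hlq : Real.log q ≤ 0 := Real.log_nonpos hq0.le (by linarith)
  have hx : 0 ≤ -(4 * q * Real.log q) := by nlinarith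
  calc q ^ 2 * (1 - 2 * q + 4 * q * Real.log q)
      ≤ q ^ 2 * ((1 - q) ^ 2 * (1 + 4 * q * Real.log q)) := by
        apply mul_le_mul_of_nonneg_left _ (by positivity)
        have : 0 ≤ q ^ 2 + -(4 * q * Real.log q) * (2 * q - q ^ 2) := by
          have : 0 ≤ 2 * q - q ^ 2 := by nlinarith
          positivity
        nlinarith
    _ ≤ q ^ 2 * ((1 - q) ^ 2 * (1 + D + t * (D + g - t))) := by
        apply mul_le_mul_of_nonneg_left _ (by positivity)
        apply mul_le_mul_of_nonneg_left _ (by positivity)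
        linarith
    _ = t * t * (1 + D + t * (D + g - t)) := by
        rw [htq]; ring

end Calc

/-- **Explicit gain over the first MRRW bound, for every `δ`.** -/
theorem exists_gain {δ : ℝ} (h0 : 0 < δ) (h1 : δ < 1 / 2) :
    ∃ tau lam : ℝ, 0 < lam ∧ lam < tau ∧ tau < 1 / 2 ∧
      1 - 2 * δ = 2 * (tau - lam) * (1 - tau - lam) / Real.sqrt (tau * (1 - tau)) ∧
      (Real.binEntropy tau - Real.binEntropy lam) / Real.log 2
        ≤ Real.binEntropy (1 / 2 - Real.sqrt (δ * (1 - δ))) / Real.log 2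
          - 4 * δ * (1 - δ) * (1 / 2 - Real.sqrt (δ * (1 - δ))) ^ 2 := by
  have hd : 0 < δ * (1 - δ) := mul_pos h0 (by linarith)
  have hsq : Real.sqrt (δ * (1 - δ)) ^ 2 = δ * (1 - δ) := Real.sq_sqrt hd.le
  have hspos : 0 < Real.sqrt (δ * (1 - δ)) := Real.sqrt_pos.2 hd
  have hslt : Real.sqrt (δ * (1 - δ)) < 1 / 2 := by
    rw [Real.sqrt_lt' (by norm_num)]
    nlinarith
  obtain ⟨tau, lam, a1, a2, a3, a4, a5⟩ := Calc.gain_one (c := 2 * Real.sqrt (δ * (1 - δ)))
    (by linarith) (by linarith)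
  have e1 : 1 - (2 * Real.sqrt (δ * (1 - δ))) ^ 2 = (1 - 2 * δ) ^ 2 := by
    rw [mul_pow, hsq]; ring
  rw [e1, Real.sqrt_sq (by linarith)] at a4
  refine ⟨tau, lam, a1, a2, a3, a4, ?_⟩
  have e2 : (1 - 2 * Real.sqrt (δ * (1 - δ))) / 2 = 1 / 2 - Real.sqrt (δ * (1 - δ)) := by ring
  have e3 : (2 * Real.sqrt (δ * (1 - δ))) ^ 2 = 4 * δ * (1 - δ) := by
    rw [mul_pow, hsq]; ring
  rw [e2, e3] at a5
  have hl : 0 < Real.log 2 := Real.log_pos (by norm_num)
  rw [div_le_iff₀ hl, sub_mul, div_mul_cancel₀ _ hl.ne']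
  linarith

/-- **Asymptotically sharp gain over the first MRRW bound near `δ = 1/2`.** -/
theorem exists_gain_sharp {δ : ℝ} (h0 : 0 < δ) (h1 : δ < 1 / 2) {τ : ℝ}
    (hτ : τ = 1 / 2 - Real.sqrt (δ * (1 - δ))) :
    ∃ tau lam : ℝ, 0 < lam ∧ lam < tau ∧ tau < 1 / 2 ∧
      1 - 2 * δ = 2 * (tau - lam) * (1 - tau - lam) / Real.sqrt (tau * (1 - tau)) ∧
      (Real.binEntropy tau - Real.binEntropy lam) / Real.log 2
        ≤ (Real.binEntropy τ - τ ^ 2 * (1 - 2 * τ - 4 * τ * Real.log (1 / τ))) / Real.log 2 := by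
  have hd : 0 < δ * (1 - δ) := mul_pos h0 (by linarith)
  have hsq : Real.sqrt (δ * (1 - δ)) ^ 2 = δ * (1 - δ) := Real.sq_sqrt hd.le
  have hspos : 0 < Real.sqrt (δ * (1 - δ)) := Real.sqrt_pos.2 hd
  have hslt : Real.sqrt (δ * (1 - δ)) < 1 / 2 := by
    rw [Real.sqrt_lt' (by norm_num)]
    nlinarith
  obtain ⟨tau, lam, a1, a2, a3, a4, a5⟩ := Calc.gain_two (c := 2 * Real.sqrt (δ * (1 - δ)))
    (by linarith) (by linarith)
  have e1 : 1 - (2 * Real.sqrt (δ * (1 - δ))) ^ 2 = (1 - 2 * δ) ^ 2 := by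
    rw [mul_pow, hsq]; ring
  rw [e1, Real.sqrt_sq (by linarith)] at a4
  refine ⟨tau, lam, a1, a2, a3, a4, ?_⟩
  have e2 : (1 - 2 * Real.sqrt (δ * (1 - δ))) / 2 = τ := by rw [hτ]; ring
  rw [e2] at a5
  have hl : 0 < Real.log 2 := Real.log_pos (by norm_num)
  apply div_le_div_of_nonneg_right _ hl.le
  have e4 : Real.log (1 / τ) = - Real.log τ := by rw [one_div, Real.log_inv]
  rw [e4]
  linarith

end Pool.Agent.Lib.MP_0430e4_lc.Harm
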