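import Pool.Agent.Lib.MP_0430e4_lc.Harm.Calc2A
import Pool.Agent.Lib.MP_0430e4_lc.TensorRate

/-!
# The harmonic certificates beat the second MRRW bound for `1/5 ≤ δ ≤ 273/1000`

The function `B` lies above two explicit lines, one on `[1/5, 9/40]` and one on `[9/40, 273/1000]`,
and at the three end points the new bound lies below these lines; the exponent is convex.
-/

set_option autoImplicit false

namespace Pool.Agent.Lib.MP_0430e4_lc.Harm

open Filter Topology

namespace Calc2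

/-- One cell, with numerical bounds for the logarithms. -/
theorem cell' {q r p y1 P A B a b wl wh α β l1 l2 : ℝ} (hq0 : 0 < q) (hq1 : q < 1)
    (hy1 : 0 ≤ y1) (hr : r * q = 1) (hp : p = 1 + q ^ 2) (hP : P ≤ Real.log p)
    (hl : l1 ≤ Real.log r ∧ Real.log r ≤ l2)
    (hab : a < b) (hwlh : wl < wh)
    (hA1 : A ≤ 2 * q / (1 - q ^ 2) * l1 * (a - q)) (hA2 : A ≤ 2 * q / (1 - q ^ 2) * l2 * (a - q))
    (hB1 : B ≤ 2 * q / (1 - q ^ 2) * l1 * (b - q)) (hB2 : B ≤ 2 * q / (1 - q ^ 2) * l2 * (b - q))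
    (c1 : α + β * wl ≤ P + A + k6 y1 + k6' y1 * ((1 + a) * (wl - a) - y1))
    (c2 : α + β * wh ≤ P + A + k6 y1 + k6' y1 * ((1 + a) * (wh - a) - y1))
    (c3 : α + β * wl ≤ P + B + k6 y1 + k6' y1 * ((1 + b) * (wl - b) - y1))
    (c4 : α + β * wh ≤ P + B + k6 y1 + k6' y1 * ((1 + b) * (wh - b) - y1))
    {w u : ℝ} (hw1 : wl ≤ w) (hw2 : w ≤ wh) (hu0 : 0 < u) (hua : a ≤ u) (hub : u ≤ b)
    (huw : u ≤ w) (hw : w < 1) : α + β * w ≤ Ef u + Kf ((1 + u) * (w - u)) := by
  have hlq : -Real.log q = Real.log r := by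
    rw [← Real.log_inv]
    congr 1
    field_simp
    linarith
  have hf : 0 < 2 * q / (1 - q ^ 2) := by
    have : 0 < 1 - q ^ 2 := by nlinarith
    positivity
  have key : ∀ (X c : ℝ), X ≤ 2 * q / (1 - q ^ 2) * l1 * (c - q) →
      X ≤ 2 * q / (1 - q ^ 2) * l2 * (c - q) →
      X ≤ 2 * q / (1 - q ^ 2) * (-Real.log q) * (c - q) := by
    intro X c h1 h2
    rw [hlq]
    obtain ⟨F, hF⟩ : ∃ F, F = 2 * q / (1 - q ^ 2) := ⟨_, rfl⟩
    rw [← hF] at h1 h2 hf ⊢
    rcases le_total 0 (c - q) with h | h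
    · have : F * l1 * (c - q) ≤ F * Real.log r * (c - q) :=
        mul_le_mul_of_nonneg_right (mul_le_mul_of_nonneg_left hl.1 hf.le) h
      linarith
    · have : F * l2 * (c - q) ≤ F * Real.log r * (c - q) :=
        mul_le_mul_of_nonpos_right (mul_le_mul_of_nonneg_left hl.2 hf.le) h
      linarith
  exact cell hq0 hq1 hy1 rfl (hp ▸ hP) hab hwlh (key A a hA1 hA2) (key B b hB1 hB2)
    c1 c2 c3 c4 hw1 hw2 hu0 hua hub huw hw

theorem log_345_344 : ((11611 / 4000000) : ℝ) ≤ Real.log (345 / 344) ∧ Real.log (345 / 344) ≤ ((72569 / 25000000) : ℝ) := by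
  have h := log_bd1 (r := (345 / 344)) (x := (1 / 689)) 0 (by norm_num) (by norm_num) (by norm_num)
  exact ⟨le_trans (by norm_num) h.1, le_trans h.2 (by norm_num)⟩

theorem log_226_225 : ((443459 / 100000000) : ℝ) ≤ Real.log (226 / 225) ∧ Real.log (226 / 225) ≤ ((22173 / 5000000) : ℝ) := by
  have h := log_bd1 (r := (226 / 225)) (x := (1 / 451)) 0 (by norm_num) (by norm_num) (by norm_num)
  exact ⟨le_trans (by norm_num) h.1, le_trans h.2 (by norm_num)⟩

theorem log_177_176 : ((566573 / 100000000) : ℝ) ≤ Real.log (177 / 176) ∧ Real.log (177 / 176) ≤ ((283287 / 50000000) : ℝ) := by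
  have h := log_bd1 (r := (177 / 176)) (x := (1 / 353)) 0 (by norm_num) (by norm_num) (by norm_num)
  exact ⟨le_trans (by norm_num) h.1, le_trans h.2 (by norm_num)⟩

theorem log_170_169 : ((147493 / 25000000) : ℝ) ≤ Real.log (170 / 169) ∧ Real.log (170 / 169) ≤ ((589973 / 100000000) : ℝ) := by
  have h := log_bd1 (r := (170 / 169)) (x := (1 / 339)) 0 (by norm_num) (by norm_num) (by norm_num)
  exact ⟨le_trans (by norm_num) h.1, le_trans h.2 (by norm_num)⟩

theorem log_113_112 : ((444447 / 50000000) : ℝ) ≤ Real.log (113 / 112) ∧ Real.log (113 / 112) ≤ ((177779 / 20000000) : ℝ) := by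
  have h := log_bd1 (r := (113 / 112)) (x := (1 / 225)) 0 (by norm_num) (by norm_num) (by norm_num)
  exact ⟨le_trans (by norm_num) h.1, le_trans h.2 (by norm_num)⟩

theorem log_82_81 : ((1227009 / 100000000) : ℝ) ≤ Real.log (82 / 81) ∧ Real.log (82 / 81) ≤ ((122701 / 10000000) : ℝ) := by
  have h := log_bd1 (r := (82 / 81)) (x := (1 / 163)) 0 (by norm_num) (by norm_num) (by norm_num)
  exact ⟨le_trans (by norm_num) h.1, le_trans h.2 (by norm_num)⟩

theorem log_229_225 : ((22027 / 1250000) : ℝ) ≤ Real.log (229 / 225) ∧ Real.log (229 / 225) ≤ ((1762161 / 100000000) : ℝ) := by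
  have h := log_bd1 (r := (229 / 225)) (x := (2 / 227)) 0 (by norm_num) (by norm_num) (by norm_num)
  exact ⟨le_trans (by norm_num) h.1, le_trans h.2 (by norm_num)⟩

theorem log_50_49 : ((202027 / 10000000) : ℝ) ≤ Real.log (50 / 49) ∧ Real.log (50 / 49) ≤ ((2020271 / 100000000) : ℝ) := by
  have h := log_bd1 (r := (50 / 49)) (x := (1 / 99)) 0 (by norm_num) (by norm_num) (by norm_num)
  exact ⟨le_trans (by norm_num) h.1, le_trans h.2 (by norm_num)⟩

theorem log_173_169 : ((2339287 / 100000000) : ℝ) ≤ Real.log (173 / 169) ∧ Real.log (173 / 169) ≤ ((292411 / 12500000) : ℝ) := by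
  have h := log_bd1 (r := (173 / 169)) (x := (2 / 171)) 0 (by norm_num) (by norm_num) (by norm_num)
  exact ⟨le_trans (by norm_num) h.1, le_trans h.2 (by norm_num)⟩

theorem log_125_121 : ((3252319 / 100000000) : ℝ) ≤ Real.log (125 / 121) ∧ Real.log (125 / 121) ≤ ((20327 / 625000) : ℝ) := by
  have h := log_bd1 (r := (125 / 121)) (x := (2 / 123)) 0 (by norm_num) (by norm_num) (by norm_num)
  exact ⟨le_trans (by norm_num) h.1, le_trans h.2 (by norm_num)⟩

theorem log_26_25 : ((3922071 / 100000000) : ℝ) ≤ Real.log (26 / 25) ∧ Real.log (26 / 25) ≤ ((490259 / 12500000) : ℝ) := by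
  have h := log_bd1 (r := (26 / 25)) (x := (1 / 51)) 0 (by norm_num) (by norm_num) (by norm_num)
  exact ⟨le_trans (by norm_num) h.1, le_trans h.2 (by norm_num)⟩

theorem log_85_81 : ((482021 / 10000000) : ℝ) ≤ Real.log (85 / 81) ∧ Real.log (85 / 81) ≤ ((4820211 / 100000000) : ℝ) := by
  have h := log_bd1 (r := (85 / 81)) (x := (2 / 83)) 0 (by norm_num) (by norm_num) (by norm_num)
  exact ⟨le_trans (by norm_num) h.1, le_trans h.2 (by norm_num)⟩

theorem log_17_16 : ((3031231 / 50000000) : ℝ) ≤ Real.log (17 / 16) ∧ Real.log (17 / 16) ≤ ((6062463 / 100000000) : ℝ) := by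
  have h := log_bd1 (r := (17 / 16)) (x := (1 / 33)) 0 (by norm_num) (by norm_num) (by norm_num)
  exact ⟨le_trans (by norm_num) h.1, le_trans h.2 (by norm_num)⟩

theorem log_115_108 : ((628009 / 10000000) : ℝ) ≤ Real.log (115 / 108) ∧ Real.log (115 / 108) ≤ ((6280091 / 100000000) : ℝ) := by
  have h := log_bd1 (r := (115 / 108)) (x := (7 / 223)) 0 (by norm_num) (by norm_num) (by norm_num)
  exact ⟨le_trans (by norm_num) h.1, le_trans h.2 (by norm_num)⟩

theorem log_53_49 : ((7847161 / 100000000) : ℝ) ≤ Real.log (53 / 49) ∧ Real.log (53 / 49) ≤ ((3923581 / 50000000) : ℝ) := by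
  have h := log_bd1 (r := (53 / 49)) (x := (2 / 51)) 0 (by norm_num) (by norm_num) (by norm_num)
  exact ⟨le_trans (by norm_num) h.1, le_trans h.2 (by norm_num)⟩

theorem log_115_104 : ((5027061 / 50000000) : ℝ) ≤ Real.log (115 / 104) ∧ Real.log (115 / 104) ≤ ((10054123 / 100000000) : ℝ) := by
  have h := log_bd1 (r := (115 / 104)) (x := (11 / 219)) 0 (by norm_num) (by norm_num) (by norm_num)
  exact ⟨le_trans (by norm_num) h.1, le_trans h.2 (by norm_num)⟩

theorem log_10_9 : ((10536051 / 100000000) : ℝ) ≤ Real.log (10 / 9) ∧ Real.log (10 / 9) ≤ ((2634013 / 25000000) : ℝ) := by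
  have h := log_bd1 (r := (10 / 9)) (x := (1 / 19)) 0 (by norm_num) (by norm_num) (by norm_num)
  exact ⟨le_trans (by norm_num) h.1, le_trans h.2 (by norm_num)⟩

theorem log_74_65 : ((6483891 / 50000000) : ℝ) ≤ Real.log (74 / 65) ∧ Real.log (74 / 65) ≤ ((12967783 / 100000000) : ℝ) := by
  have h := log_bd1 (r := (74 / 65)) (x := (9 / 139)) 0 (by norm_num) (by norm_num) (by norm_num)
  exact ⟨le_trans (by norm_num) h.1, le_trans h.2 (by norm_num)⟩

theorem log_3_1 : ((54930607 / 50000000) : ℝ) ≤ Real.log 3 ∧ Real.log 3 ≤ ((21972253 / 20000000) : ℝ) := by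
  have h := log_bd2 (r := 3) (x := (1 / 7)) 2 (by norm_num) (by norm_num) (by norm_num)
  exact ⟨le_trans (by norm_num) h.1, le_trans h.2 (by norm_num)⟩

theorem log_7_2 : ((15659537 / 12500000) : ℝ) ≤ Real.log (7 / 2) ∧ Real.log (7 / 2) ≤ ((62638149 / 50000000) : ℝ) := by
  have h := log_bd2 (r := (7 / 2)) (x := (1 / 15)) 2 (by norm_num) (by norm_num) (by norm_num)
  exact ⟨le_trans (by norm_num) h.1, le_trans h.2 (by norm_num)⟩

theorem log_4_1 : ((34657359 / 25000000) : ℝ) ≤ Real.log 4 ∧ Real.log 4 ≤ ((138629437 / 100000000) : ℝ) := by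
  have h := log_bd1 (r := 4) (x := 0) 2 (by norm_num) (by norm_num) (by norm_num)
  exact ⟨le_trans (by norm_num) h.1, le_trans h.2 (by norm_num)⟩

theorem log_9_2 : ((150407739 / 100000000) : ℝ) ≤ Real.log (9 / 2) ∧ Real.log (9 / 2) ≤ ((7520387 / 5000000) : ℝ) := by
  have h := log_bd1 (r := (9 / 2)) (x := (1 / 17)) 2 (by norm_num) (by norm_num) (by norm_num)
  exact ⟨le_trans (by norm_num) h.1, le_trans h.2 (by norm_num)⟩

theorem log_5_1 : ((32188757 / 20000000) : ℝ) ≤ Real.log 5 ∧ Real.log 5 ≤ ((80471897 / 50000000) : ℝ) := by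
  have h := log_bd1 (r := 5) (x := (1 / 9)) 2 (by norm_num) (by norm_num) (by norm_num)
  exact ⟨le_trans (by norm_num) h.1, le_trans h.2 (by norm_num)⟩

theorem log_11_2 : ((170474737 / 100000000) : ℝ) ≤ Real.log (11 / 2) ∧ Real.log (11 / 2) ≤ ((170474839 / 100000000) : ℝ) := by
  have h := log_bd1 (r := (11 / 2)) (x := (3 / 19)) 2 (by norm_num) (by norm_num) (by norm_num)
  exact ⟨le_trans (by norm_num) h.1, le_trans h.2 (by norm_num)⟩

theorem log_13_2 : ((23397527 / 12500000) : ℝ) ≤ Real.log (13 / 2) ∧ Real.log (13 / 2) ≤ ((93590111 / 50000000) : ℝ) := by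
  have h := log_bd2 (r := (13 / 2)) (x := (3 / 29)) 3 (by norm_num) (by norm_num) (by norm_num)
  exact ⟨le_trans (by norm_num) h.1, le_trans h.2 (by norm_num)⟩

theorem log_7_1 : ((97295507 / 50000000) : ℝ) ≤ Real.log 7 ∧ Real.log 7 ≤ ((24323877 / 12500000) : ℝ) := by
  have h := log_bd2 (r := 7) (x := (1 / 15)) 3 (by norm_num) (by norm_num) (by norm_num)
  exact ⟨le_trans (by norm_num) h.1, le_trans h.2 (by norm_num)⟩

theorem log_15_2 : ((201490301 / 100000000) : ℝ) ≤ Real.log (15 / 2) ∧ Real.log (15 / 2) ≤ ((201490303 / 100000000) : ℝ) := by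
  have h := log_bd2 (r := (15 / 2)) (x := (1 / 31)) 3 (by norm_num) (by norm_num) (by norm_num)
  exact ⟨le_trans (by norm_num) h.1, le_trans h.2 (by norm_num)⟩

theorem log_74_9 : ((210684051 / 100000000) : ℝ) ≤ Real.log (74 / 9) ∧ Real.log (74 / 9) ≤ ((52671013 / 25000000) : ℝ) := by
  have h := log_bd1 (r := (74 / 9)) (x := (1 / 73)) 3 (by norm_num) (by norm_num) (by norm_num)
  exact ⟨le_trans (by norm_num) h.1, le_trans h.2 (by norm_num)⟩

theorem log_9_1 : ((219722457 / 100000000) : ℝ) ≤ Real.log 9 ∧ Real.log 9 ≤ ((109861229 / 50000000) : ℝ) := by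
  have h := log_bd1 (r := 9) (x := (1 / 17)) 3 (by norm_num) (by norm_num) (by norm_num)
  exact ⟨le_trans (by norm_num) h.1, le_trans h.2 (by norm_num)⟩

theorem log_115_11 : ((14668979 / 6250000) : ℝ) ≤ Real.log (115 / 11) ∧ Real.log (115 / 11) ≤ ((46940739 / 20000000) : ℝ) := by
  have h := log_bd1 (r := (115 / 11)) (x := (27 / 203)) 3 (by norm_num) (by norm_num) (by norm_num)
  exact ⟨le_trans (by norm_num) h.1, le_trans h.2 (by norm_num)⟩

theorem log_13_1 : ((128247467 / 50000000) : ℝ) ≤ Real.log 13 ∧ Real.log 13 ≤ ((12824747 / 5000000) : ℝ) := by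
  have h := log_bd2 (r := 13) (x := (3 / 29)) 4 (by norm_num) (by norm_num) (by norm_num)
  exact ⟨le_trans (by norm_num) h.1, le_trans h.2 (by norm_num)⟩

theorem log_15_1 : ((13540251 / 5000000) : ℝ) ≤ Real.log 15 ∧ Real.log 15 ≤ ((270805021 / 100000000) : ℝ) := by
  have h := log_bd2 (r := 15) (x := (1 / 31)) 4 (by norm_num) (by norm_num) (by norm_num)
  exact ⟨le_trans (by norm_num) h.1, le_trans h.2 (by norm_num)⟩

theorem log_115_7 : ((279902197 / 100000000) : ℝ) ≤ Real.log (115 / 7) ∧ Real.log (115 / 7) ≤ ((279902199 / 100000000) : ℝ) := by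
  have h := log_bd1 (r := (115 / 7)) (x := (3 / 227)) 4 (by norm_num) (by norm_num) (by norm_num)
  exact ⟨le_trans (by norm_num) h.1, le_trans h.2 (by norm_num)⟩

theorem log_113_1 : ((472738781 / 100000000) : ℝ) ≤ Real.log 113 ∧ Real.log 113 ≤ ((472738783 / 100000000) : ℝ) := by
  have h := log_bd2 (r := 113) (x := (15 / 241)) 7 (by norm_num) (by norm_num) (by norm_num)
  exact ⟨le_trans (by norm_num) h.1, le_trans h.2 (by norm_num)⟩

theorem log_177_1 : ((129403723 / 25000000) : ℝ) ≤ Real.log 177 ∧ Real.log 177 ≤ ((517615007 / 100000000) : ℝ) := by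
  have h := log_bd1 (r := 177) (x := (49 / 305)) 7 (by norm_num) (by norm_num) (by norm_num)
  exact ⟨le_trans (by norm_num) h.1, le_trans h.2 (by norm_num)⟩

theorem log_345_1 : ((146088599 / 25000000) : ℝ) ≤ Real.log 345 ∧ Real.log 345 ≤ ((584354461 / 100000000) : ℝ) := by
  have h := log_bd1 (r := 345) (x := (89 / 601)) 8 (by norm_num) (by norm_num) (by norm_num)
  exact ⟨le_trans (by norm_num) h.1, le_trans h.2 (by norm_num)⟩

theorem cell_A0 {w u : ℝ} (hw1 : (11 / 20) ≤ w) (hw2 : w ≤ (3 / 5)) (hu0 : 0 < u) (hua : 0 ≤ u)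
    (hub : u ≤ (177 / 1000)) (huw : u ≤ w) :
    (-923 / 6250) + (77873 / 100000) * w ≤ Ef u + Kf ((1 + u) * (w - u)) :=
  cell' (q := (1 / 15)) (r := 15) (p := (226 / 225)) (y1 := (13 / 25)) (P := (443459 / 100000000)) (A := (-1208951 / 50000000))
    (B := (4001627 / 100000000)) (a := 0) (b := (177 / 1000))
    (wl := (11 / 20)) (wh := (3 / 5)) (by norm_num) (by norm_num) (by norm_num) (by norm_num) (by norm_num)
    (log_226_225.1.trans' (by norm_num)) log_15_1 (by norm_num) (by norm_num)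
    (by norm_num) (by norm_num) (by norm_num) (by norm_num) (by norm_num [k6, k6'])
    (by norm_num [k6, k6']) (by norm_num [k6, k6']) (by norm_num [k6, k6'])
    hw1 hw2 hu0 hua hub huw (by linarith)

theorem cell_A1 {w u : ℝ} (hw1 : (11 / 20) ≤ w) (hw2 : w ≤ (3 / 5)) (hu0 : 0 < u) (hua : (177 / 1000) ≤ u)
    (hub : u ≤ (243 / 1000)) (huw : u ≤ w) :
    (-923 / 6250) + (77873 / 100000) * w ≤ Ef u + Kf ((1 + u) * (w - u)) :=
  cell' (q := (1 / 9)) (r := 9) (p := (82 / 81)) (y1 := (9 / 20)) (P := (1227009 / 100000000)) (A := (651477 / 20000000))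
    (B := (6520263 / 100000000)) (a := (177 / 1000)) (b := (243 / 1000))
    (wl := (11 / 20)) (wh := (3 / 5)) (by norm_num) (by norm_num) (by norm_num) (by norm_num) (by norm_num)
    (log_82_81.1.trans' (by norm_num)) log_9_1 (by norm_num) (by norm_num)
    (by norm_num) (by norm_num) (by norm_num) (by norm_num) (by norm_num [k6, k6'])
    (by norm_num [k6, k6']) (by norm_num [k6, k6']) (by norm_num [k6, k6'])
    hw1 hw2 hu0 hua hub huw (by linarith)

theorem cell_A2 {w u : ℝ} (hw1 : (11 / 20) ≤ w) (hw2 : w ≤ (3 / 5)) (hu0 : 0 < u) (hua : (243 / 1000) ≤ u)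
    (hub : u ≤ (279 / 1000)) (huw : u ≤ w) :
    (-923 / 6250) + (77873 / 100000) * w ≤ Ef u + Kf ((1 + u) * (w - u)) :=
  cell' (q := (2 / 15)) (r := (15 / 2)) (p := (229 / 225)) (y1 := (21 / 50)) (P := (22027 / 1250000)) (A := (2999561 / 50000000))
    (B := (7968439 / 100000000)) (a := (243 / 1000)) (b := (279 / 1000))
    (wl := (11 / 20)) (wh := (3 / 5)) (by norm_num) (by norm_num) (by norm_num) (by norm_num) (by norm_num)
    (log_229_225.1.trans' (by norm_num)) log_15_2 (by norm_num) (by norm_num)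
    (by norm_num) (by norm_num) (by norm_num) (by norm_num) (by norm_num [k6, k6'])
    (by norm_num [k6, k6']) (by norm_num [k6, k6']) (by norm_num [k6, k6'])
    hw1 hw2 hu0 hua hub huw (by linarith)

theorem cell_A3 {w u : ℝ} (hw1 : (11 / 20) ≤ w) (hw2 : w ≤ (3 / 5)) (hu0 : 0 < u) (hua : (279 / 1000) ≤ u)
    (hub : u ≤ (3 / 10)) (huw : u ≤ w) :
    (-923 / 6250) + (77873 / 100000) * w ≤ Ef u + Kf ((1 + u) * (w - u)) :=
  cell' (q := (1 / 7)) (r := 7) (p := (50 / 49)) (y1 := (39 / 100)) (P := (202027 / 10000000)) (A := (1931721 / 25000000))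
    (B := (4459377 / 50000000)) (a := (279 / 1000)) (b := (3 / 10))
    (wl := (11 / 20)) (wh := (3 / 5)) (by norm_num) (by norm_num) (by norm_num) (by norm_num) (by norm_num)
    (log_50_49.1.trans' (by norm_num)) log_7_1 (by norm_num) (by norm_num)
    (by norm_num) (by norm_num) (by norm_num) (by norm_num) (by norm_num [k6, k6'])
    (by norm_num [k6, k6']) (by norm_num [k6, k6']) (by norm_num [k6, k6'])
    hw1 hw2 hu0 hua hub huw (by linarith)

theorem cell_A4 {w u : ℝ} (hw1 : (11 / 20) ≤ w) (hw2 : w ≤ (3 / 5)) (hu0 : 0 < u) (hua : (3 / 10) ≤ u)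
    (hub : u ≤ (327 / 1000)) (huw : u ≤ w) :
    (-923 / 6250) + (77873 / 100000) * w ≤ Ef u + Kf ((1 + u) * (w - u)) :=
  cell' (q := (2 / 13)) (r := (13 / 2)) (p := (173 / 169)) (y1 := (9 / 25)) (P := (2339287 / 100000000)) (A := (4310817 / 50000000))
    (B := (10214367 / 100000000)) (a := (3 / 10)) (b := (327 / 1000))
    (wl := (11 / 20)) (wh := (3 / 5)) (by norm_num) (by norm_num) (by norm_num) (by norm_num) (by norm_num)
    (log_173_169.1.trans' (by norm_num)) log_13_2 (by norm_num) (by norm_num)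
    (by norm_num) (by norm_num) (by norm_num) (by norm_num) (by norm_num [k6, k6'])
    (by norm_num [k6, k6']) (by norm_num [k6, k6']) (by norm_num [k6, k6'])
    hw1 hw2 hu0 hua hub huw (by linarith)

theorem cell_A5 {w u : ℝ} (hw1 : (11 / 20) ≤ w) (hw2 : w ≤ (3 / 5)) (hu0 : 0 < u) (hua : (327 / 1000) ≤ u)
    (hub : u ≤ (377 / 1000)) (huw : u ≤ w) :
    (-923 / 6250) + (77873 / 100000) * w ≤ Ef u + Kf ((1 + u) * (w - u)) :=
  cell' (q := (2 / 11)) (r := (11 / 2)) (p := (125 / 121)) (y1 := (17 / 50)) (P := (3252319 / 100000000)) (A := (9307629 / 100000000))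
    (B := (12513137 / 100000000)) (a := (327 / 1000)) (b := (377 / 1000))
    (wl := (11 / 20)) (wh := (3 / 5)) (by norm_num) (by norm_num) (by norm_num) (by norm_num) (by norm_num)
    (log_125_121.1.trans' (by norm_num)) log_11_2 (by norm_num) (by norm_num)
    (by norm_num) (by norm_num) (by norm_num) (by norm_num) (by norm_num [k6, k6'])
    (by norm_num [k6, k6']) (by norm_num [k6, k6']) (by norm_num [k6, k6'])
    hw1 hw2 hu0 hua hub huw (by linarith)

theorem cell_A6 {w u : ℝ} (hw1 : (11 / 20) ≤ w) (hw2 : w ≤ (3 / 5)) (hu0 : 0 < u) (hua : (377 / 1000) ≤ u)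
    (hub : u ≤ (449 / 1000)) (huw : u ≤ w) :
    (-923 / 6250) + (77873 / 100000) * w ≤ Ef u + Kf ((1 + u) * (w - u)) :=
  cell' (q := (1 / 5)) (r := 5) (p := (26 / 25)) (y1 := (11 / 50)) (P := (3922071 / 100000000)) (A := (2967401 / 25000000))
    (B := (16697917 / 100000000)) (a := (377 / 1000)) (b := (449 / 1000))
    (wl := (11 / 20)) (wh := (3 / 5)) (by norm_num) (by norm_num) (by norm_num) (by norm_num) (by norm_num)
    (log_26_25.1.trans' (by norm_num)) log_5_1 (by norm_num) (by norm_num)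
    (by norm_num) (by norm_num) (by norm_num) (by norm_num) (by norm_num [k6, k6'])
    (by norm_num [k6, k6']) (by norm_num [k6, k6']) (by norm_num [k6, k6'])
    hw1 hw2 hu0 hua hub huw (by linarith)

theorem cell_A7 {w u : ℝ} (hw1 : (11 / 20) ≤ w) (hw2 : w ≤ (3 / 5)) (hu0 : 0 < u) (hua : (449 / 1000) ≤ u)
    (hub : u ≤ (71 / 125)) (huw : u ≤ w) :
    (-923 / 6250) + (77873 / 100000) * w ≤ Ef u + Kf ((1 + u) * (w - u)) :=
  cell' (q := (1 / 4)) (r := 4) (p := (17 / 16)) (y1 := (2 / 25)) (P := (3031231 / 50000000)) (A := (3678301 / 25000000))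
    (B := (91842 / 390625)) (a := (449 / 1000)) (b := (71 / 125))
    (wl := (11 / 20)) (wh := (3 / 5)) (by norm_num) (by norm_num) (by norm_num) (by norm_num) (by norm_num)
    (log_17_16.1.trans' (by norm_num)) log_4_1 (by norm_num) (by norm_num)
    (by norm_num) (by norm_num) (by norm_num) (by norm_num) (by norm_num [k6, k6'])
    (by norm_num [k6, k6']) (by norm_num [k6, k6']) (by norm_num [k6, k6'])
    hw1 hw2 hu0 hua hub huw (by linarith)

theorem cell_A8 {w u : ℝ} (hw1 : (11 / 20) ≤ w) (hw2 : w ≤ (3 / 5)) (hu0 : 0 < u) (hua : (71 / 125) ≤ u)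
    (hub : u ≤ (3 / 5)) (huw : u ≤ w) :
    (-923 / 6250) + (77873 / 100000) * w ≤ Ef u + Kf ((1 + u) * (w - u)) :=
  cell' (q := (1 / 3)) (r := 3) (p := (10 / 9)) (y1 := (1 / 100)) (P := (10536051 / 100000000)) (A := (19335573 / 100000000))
    (B := (10986121 / 50000000)) (a := (71 / 125)) (b := (3 / 5))
    (wl := (11 / 20)) (wh := (3 / 5)) (by norm_num) (by norm_num) (by norm_num) (by norm_num) (by norm_num)
    (log_10_9.1.trans' (by norm_num)) log_3_1 (by norm_num) (by norm_num)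
    (by norm_num) (by norm_num) (by norm_num) (by norm_num) (by norm_num [k6, k6'])
    (by norm_num [k6, k6']) (by norm_num [k6, k6']) (by norm_num [k6, k6'])
    hw1 hw2 hu0 hua hub huw (by linarith)

theorem cell_B0 {w u : ℝ} (hw1 : (227 / 500) ≤ w) (hw2 : w ≤ (11 / 20)) (hu0 : 0 < u) (hua : 0 ≤ u)
    (hub : u ≤ (27 / 125)) (huw : u ≤ w) :
    (-12623 / 100000) + (36987 / 50000) * w ≤ Ef u + Kf ((1 + u) * (w - u)) :=
  cell' (q := (1 / 13)) (r := 13) (p := (170 / 169)) (y1 := (21 / 50)) (P := (147493 / 25000000)) (A := (-381689 / 12500000))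
    (B := (1380187 / 25000000)) (a := 0) (b := (27 / 125))
    (wl := (227 / 500)) (wh := (11 / 20)) (by norm_num) (by norm_num) (by norm_num) (by norm_num) (by norm_num)
    (log_170_169.1.trans' (by norm_num)) log_13_1 (by norm_num) (by norm_num)
    (by norm_num) (by norm_num) (by norm_num) (by norm_num) (by norm_num [k6, k6'])
    (by norm_num [k6, k6']) (by norm_num [k6, k6']) (by norm_num [k6, k6'])
    hw1 hw2 hu0 hua hub huw (by linarith)

theorem cell_B1 {w u : ℝ} (hw1 : (227 / 500) ≤ w) (hw2 : w ≤ (11 / 20)) (hu0 : 0 < u) (hua : (27 / 125) ≤ u)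
    (hub : u ≤ (157 / 500)) (huw : u ≤ w) :
    (-12623 / 100000) + (36987 / 50000) * w ≤ Ef u + Kf ((1 + u) * (w - u)) :=
  cell' (q := (2 / 15)) (r := (15 / 2)) (p := (229 / 225)) (y1 := (3 / 10)) (P := (22027 / 1250000)) (A := (904427 / 20000000))
    (B := (9883053 / 100000000)) (a := (27 / 125)) (b := (157 / 500))
    (wl := (227 / 500)) (wh := (11 / 20)) (by norm_num) (by norm_num) (by norm_num) (by norm_num) (by norm_num)
    (log_229_225.1.trans' (by norm_num)) log_15_2 (by norm_num) (by norm_num)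
    (by norm_num) (by norm_num) (by norm_num) (by norm_num) (by norm_num [k6, k6'])
    (by norm_num [k6, k6']) (by norm_num [k6, k6']) (by norm_num [k6, k6'])
    hw1 hw2 hu0 hua hub huw (by linarith)

theorem cell_B2 {w u : ℝ} (hw1 : (227 / 500) ≤ w) (hw2 : w ≤ (11 / 20)) (hu0 : 0 < u) (hua : (157 / 500) ≤ u)
    (hub : u ≤ (191 / 500)) (huw : u ≤ w) :
    (-12623 / 100000) + (36987 / 50000) * w ≤ Ef u + Kf ((1 + u) * (w - u)) :=
  cell' (q := (2 / 11)) (r := (11 / 2)) (p := (125 / 121)) (y1 := (23 / 100)) (P := (3252319 / 100000000)) (A := (8474197 / 100000000))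
    (B := (12833687 / 100000000)) (a := (157 / 500)) (b := (191 / 500))
    (wl := (227 / 500)) (wh := (11 / 20)) (by norm_num) (by norm_num) (by norm_num) (by norm_num) (by norm_num)
    (log_125_121.1.trans' (by norm_num)) log_11_2 (by norm_num) (by norm_num)
    (by norm_num) (by norm_num) (by norm_num) (by norm_num) (by norm_num [k6, k6'])
    (by norm_num [k6, k6']) (by norm_num [k6, k6']) (by norm_num [k6, k6'])
    hw1 hw2 hu0 hua hub huw (by linarith)

theorem cell_B3 {w u : ℝ} (hw1 : (227 / 500) ≤ w) (hw2 : w ≤ (11 / 20)) (hu0 : 0 < u) (hua : (191 / 500) ≤ u)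
    (hub : u ≤ (449 / 1000)) (huw : u ≤ w) :
    (-12623 / 100000) + (36987 / 50000) * w ≤ Ef u + Kf ((1 + u) * (w - u)) :=
  cell' (q := (2 / 9)) (r := (9 / 2)) (p := (85 / 81)) (y1 := (7 / 50)) (P := (482021 / 10000000)) (A := (11235653 / 100000000))
    (B := (15947127 / 100000000)) (a := (191 / 500)) (b := (449 / 1000))
    (wl := (227 / 500)) (wh := (11 / 20)) (by norm_num) (by norm_num) (by norm_num) (by norm_num) (by norm_num)
    (log_85_81.1.trans' (by norm_num)) log_9_2 (by norm_num) (by norm_num)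
    (by norm_num) (by norm_num) (by norm_num) (by norm_num) (by norm_num [k6, k6'])
    (by norm_num [k6, k6']) (by norm_num [k6, k6']) (by norm_num [k6, k6'])
    hw1 hw2 hu0 hua hub huw (by linarith)

theorem cell_B4 {w u : ℝ} (hw1 : (227 / 500) ≤ w) (hw2 : w ≤ (11 / 20)) (hu0 : 0 < u) (hua : (449 / 1000) ≤ u)
    (hub : u ≤ (131 / 250)) (huw : u ≤ w) :
    (-12623 / 100000) + (36987 / 50000) * w ≤ Ef u + Kf ((1 + u) * (w - u)) :=
  cell' (q := (1 / 4)) (r := 4) (p := (17 / 16)) (y1 := (1 / 100)) (P := (3031231 / 50000000)) (A := (3678301 / 25000000))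
    (B := (20258381 / 100000000)) (a := (449 / 1000)) (b := (131 / 250))
    (wl := (227 / 500)) (wh := (11 / 20)) (by norm_num) (by norm_num) (by norm_num) (by norm_num) (by norm_num)
    (log_17_16.1.trans' (by norm_num)) log_4_1 (by norm_num) (by norm_num)
    (by norm_num) (by norm_num) (by norm_num) (by norm_num) (by norm_num [k6, k6'])
    (by norm_num [k6, k6']) (by norm_num [k6, k6']) (by norm_num [k6, k6'])
    hw1 hw2 hu0 hua hub huw (by linarith)

theorem cell_B5 {w u : ℝ} (hw1 : (227 / 500) ≤ w) (hw2 : w ≤ (11 / 20)) (hu0 : 0 < u) (hua : (131 / 250) ≤ u)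
    (hub : u ≤ (11 / 20)) (huw : u ≤ w) :
    (-12623 / 100000) + (36987 / 50000) * w ≤ Ef u + Kf ((1 + u) * (w - u)) :=
  cell' (q := (2 / 7)) (r := (7 / 2)) (p := (53 / 49)) (y1 := (1 / 100)) (P := (7847161 / 100000000)) (A := (9287149 / 50000000))
    (B := (2060099 / 10000000)) (a := (131 / 250)) (b := (11 / 20))
    (wl := (227 / 500)) (wh := (11 / 20)) (by norm_num) (by norm_num) (by norm_num) (by norm_num) (by norm_num)
    (log_53_49.1.trans' (by norm_num)) log_7_2 (by norm_num) (by norm_num)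
    (by norm_num) (by norm_num) (by norm_num) (by norm_num) (by norm_num [k6, k6'])
    (by norm_num [k6, k6']) (by norm_num [k6, k6']) (by norm_num [k6, k6'])
    hw1 hw2 hu0 hua hub huw (by linarith)

theorem V_0 : Real.binEntropy (9 / 74) - Real.binEntropy (1 / 113) < (159779 / 500000) := by
  have h1 := log_74_9
  have h2 := log_74_65
  have h3 := log_113_1
  have h4 := log_113_112
  unfold Real.binEntropy
  rw [show ((9 / 74) : ℝ)⁻¹ = (74 / 9) by norm_num, show (1 - (9 / 74) : ℝ)⁻¹ = (74 / 65) by norm_num,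
    show ((1 / 113) : ℝ)⁻¹ = 113 by norm_num, show (1 - (1 / 113) : ℝ)⁻¹ = (113 / 112) by norm_num]
  linarith [h1.1, h1.2, h2.1, h2.2, h3.1, h3.2, h4.1, h4.2]

theorem con_0 : 1 - 2 * (1 / 5) ≤ 2 * ((9 / 74) - (1 / 113)) * (1 - (9 / 74) - (1 / 113)) /
    Real.sqrt ((9 / 74) * (1 - (9 / 74))) := by
  have h : Real.sqrt ((9 / 74) * (1 - (9 / 74))) ≤ 2 * ((9 / 74) - (1 / 113)) * (1 - (9 / 74) - (1 / 113)) / (3 / 5) := by
    apply Real.sqrt_le_iff.2
    norm_num
  have h0 : 0 < Real.sqrt (((9 / 74) : ℝ) * (1 - (9 / 74))) := Real.sqrt_pos.2 (by norm_num)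
  rw [le_div_iff₀ h0]
  rw [le_div_iff₀ (by norm_num)] at h
  linarith

theorem V_1 : Real.binEntropy (11 / 115) - Real.binEntropy (1 / 177) < (561243 / 2000000) := by
  have h1 := log_115_11
  have h2 := log_115_104
  have h3 := log_177_1
  have h4 := log_177_176
  unfold Real.binEntropy
  rw [show ((11 / 115) : ℝ)⁻¹ = (115 / 11) by norm_num, show (1 - (11 / 115) : ℝ)⁻¹ = (115 / 104) by norm_num,
    show ((1 / 177) : ℝ)⁻¹ = 177 by norm_num, show (1 - (1 / 177) : ℝ)⁻¹ = (177 / 176) by norm_num]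
  linarith [h1.1, h1.2, h2.1, h2.2, h3.1, h3.2, h4.1, h4.2]

theorem con_1 : 1 - 2 * (9 / 40) ≤ 2 * ((11 / 115) - (1 / 177)) * (1 - (11 / 115) - (1 / 177)) /
    Real.sqrt ((11 / 115) * (1 - (11 / 115))) := by
  have h : Real.sqrt ((11 / 115) * (1 - (11 / 115))) ≤ 2 * ((11 / 115) - (1 / 177)) * (1 - (11 / 115) - (1 / 177)) / (11 / 20) := by
    apply Real.sqrt_le_iff.2
    norm_num
  have h0 : 0 < Real.sqrt (((11 / 115) : ℝ) * (1 - (11 / 115))) := Real.sqrt_pos.2 (by norm_num)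
  rw [le_div_iff₀ h0]
  rw [le_div_iff₀ (by norm_num)] at h
  linarith

theorem V_2 : Real.binEntropy (7 / 115) - Real.binEntropy (1 / 345) < (5240299 / 25000000) := by
  have h1 := log_115_7
  have h2 := log_115_108
  have h3 := log_345_1
  have h4 := log_345_344
  unfold Real.binEntropy
  rw [show ((7 / 115) : ℝ)⁻¹ = (115 / 7) by norm_num, show (1 - (7 / 115) : ℝ)⁻¹ = (115 / 108) by norm_num,
    show ((1 / 345) : ℝ)⁻¹ = 345 by norm_num, show (1 - (1 / 345) : ℝ)⁻¹ = (345 / 344) by norm_num]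
  linarith [h1.1, h1.2, h2.1, h2.2, h3.1, h3.2, h4.1, h4.2]

theorem con_2 : 1 - 2 * (273 / 1000) ≤ 2 * ((7 / 115) - (1 / 345)) * (1 - (7 / 115) - (1 / 345)) /
    Real.sqrt ((7 / 115) * (1 - (7 / 115))) := by
  have h : Real.sqrt ((7 / 115) * (1 - (7 / 115))) ≤ 2 * ((7 / 115) - (1 / 345)) * (1 - (7 / 115) - (1 / 345)) / (227 / 500) := by
    apply Real.sqrt_le_iff.2
    norm_num
  have h0 : 0 < Real.sqrt (((7 / 115) : ℝ) * (1 - (7 / 115))) := Real.sqrt_pos.2 (by norm_num)
  rw [le_div_iff₀ h0]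
  rw [le_div_iff₀ (by norm_num)] at h
  linarith

theorem line_A {w u : ℝ} (hw1 : (11 / 20) ≤ w) (hw2 : w ≤ (3 / 5)) (hu0 : 0 < u) (huw : u ≤ w) :
    (-923 / 6250) + (77873 / 100000) * w ≤ Ef u + Kf ((1 + u) * (w - u)) := by
  rcases le_total u (177 / 1000) with h0 | h0
  · exact cell_A0 hw1 hw2 hu0 hu0.le h0 huw
  rcases le_total u (243 / 1000) with h1 | h1
  · exact cell_A1 hw1 hw2 hu0 h0 h1 huw
  rcases le_total u (279 / 1000) with h2 | h2
  · exact cell_A2 hw1 hw2 hu0 h1 h2 huw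
  rcases le_total u (3 / 10) with h3 | h3
  · exact cell_A3 hw1 hw2 hu0 h2 h3 huw
  rcases le_total u (327 / 1000) with h4 | h4
  · exact cell_A4 hw1 hw2 hu0 h3 h4 huw
  rcases le_total u (377 / 1000) with h5 | h5
  · exact cell_A5 hw1 hw2 hu0 h4 h5 huw
  rcases le_total u (449 / 1000) with h6 | h6
  · exact cell_A6 hw1 hw2 hu0 h5 h6 huw
  rcases le_total u (71 / 125) with h7 | h7
  · exact cell_A7 hw1 hw2 hu0 h6 h7 huw
  exact cell_A8 hw1 hw2 hu0 h7 (huw.trans hw2) huw

theorem line_B {w u : ℝ} (hw1 : (227 / 500) ≤ w) (hw2 : w ≤ (11 / 20)) (hu0 : 0 < u) (huw : u ≤ w) :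
    (-12623 / 100000) + (36987 / 50000) * w ≤ Ef u + Kf ((1 + u) * (w - u)) := by
  rcases le_total u (27 / 125) with h0 | h0
  · exact cell_B0 hw1 hw2 hu0 hu0.le h0 huw
  rcases le_total u (157 / 500) with h1 | h1
  · exact cell_B1 hw1 hw2 hu0 h0 h1 huw
  rcases le_total u (191 / 500) with h2 | h2
  · exact cell_B2 hw1 hw2 hu0 h1 h2 huw
  rcases le_total u (449 / 1000) with h3 | h3
  · exact cell_B3 hw1 hw2 hu0 h2 h3 huw
  rcases le_total u (131 / 250) with h4 | h4
  · exact cell_B4 hw1 hw2 hu0 h3 h4 huw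
  exact cell_B5 hw1 hw2 hu0 h4 (huw.trans hw2) huw

theorem bridge {δ u : ℝ} (c : ℝ)
    (h : c ≤ Ef u + Kf ((1 + u) * ((1 - 2 * δ) - u))) :
    c / Real.log 2 ≤ 1 + Real.binEntropy (1 / 2 - 1 / 2 * Real.sqrt (1 - u ^ 2)) / Real.log 2
      - Real.binEntropy (1 / 2 - 1 / 2 * Real.sqrt (1 - (u ^ 2 + 2 * δ * u + 2 * δ)))
        / Real.log 2 := by
  have hlog : 0 < Real.log 2 := Real.log_pos (by norm_num)
  have e2 : 1 - (u ^ 2 + 2 * δ * u + 2 * δ) = (1 + u) * ((1 - 2 * δ) - u) := by ring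
  rw [e2, div_le_iff₀ hlog]
  unfold Ef Kf at h
  refine h.trans (le_of_eq ?_)
  field_simp
  ring

/-- The new bound is below the second MRRW bound for `1/5 ≤ δ ≤ 273/1000`. -/
theorem ell_lt (hV : ∀ τ lam δ : ℝ, 0 ≤ lam → lam < τ → τ ≤ 1 / 2 →
      1 - 2 * δ ≤ 2 * (τ - lam) * (1 - τ - lam) / Real.sqrt (τ * (1 - τ)) →
      Tensor.ell δ ≤ (Real.binEntropy τ - Real.binEntropy lam) / Real.log 2)
    {δ : ℝ} (h1 : 1 / 5 ≤ δ) (h2 : δ ≤ 273 / 1000) :
    ∃ c : ℝ, Tensor.ell δ < c ∧ ∀ u : ℝ, 0 < u → u ≤ 1 - 2 * δ →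
      c ≤ 1 + Real.binEntropy (1 / 2 - 1 / 2 * Real.sqrt (1 - u ^ 2)) / Real.log 2
        - Real.binEntropy (1 / 2 - 1 / 2 * Real.sqrt (1 - (u ^ 2 + 2 * δ * u + 2 * δ)))
          / Real.log 2 := by
  have hlog : 0 < Real.log 2 := Real.log_pos (by norm_num)
  have H0 : Tensor.ell (1 / 5) * Real.log 2 < -923 / 6250 + 77873 / 100000 * (3 / 5) := by
    have h := hV _ _ _ (by norm_num) (by norm_num) (by norm_num) con_0
    rw [le_div_iff₀ hlog] at h
    have h' := V_0
    have e : ((1 : ℝ) - 3 / 5) / 2 = 1 / 5 := by norm_num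
    norm_num at h h' ⊢
    linarith
  have H1 : Tensor.ell (9 / 40) * Real.log 2 < -923 / 6250 + 77873 / 100000 * (11 / 20) := by
    have h := hV _ _ _ (by norm_num) (by norm_num) (by norm_num) con_1
    rw [le_div_iff₀ hlog] at h
    have h' := V_1
    norm_num at h h' ⊢
    linarith
  have H1' : Tensor.ell (9 / 40) * Real.log 2 < -12623 / 100000 + 36987 / 50000 * (11 / 20) := by
    have h := hV _ _ _ (by norm_num) (by norm_num) (by norm_num) con_1
    rw [le_div_iff₀ hlog] at h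
    have h' := V_1
    norm_num at h h' ⊢
    linarith
  have H2 : Tensor.ell (273 / 1000) * Real.log 2 <
      -12623 / 100000 + 36987 / 50000 * (227 / 500) := by
    have h := hV _ _ _ (by norm_num) (by norm_num) (by norm_num) con_2
    rw [le_div_iff₀ hlog] at h
    have h' := V_2
    norm_num at h h' ⊢
    linarith
  have hc := Tensor.ell_convexOn
  have interp : ∀ {x y α β : ℝ}, 0 ≤ x → x < y → x ≤ δ → δ ≤ y →
      Tensor.ell x * Real.log 2 < α + β * (1 - 2 * x) →
      Tensor.ell y * Real.log 2 < α + β * (1 - 2 * y) →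
      Tensor.ell δ < (α + β * (1 - 2 * δ)) / Real.log 2 := by
    intro x y α β hx hxy hxd hdy hX hY
    obtain ⟨t, ht⟩ : ∃ t, t = (δ - x) / (y - x) := ⟨_, rfl⟩
    have ht0 : 0 ≤ t := by rw [ht]; exact div_nonneg (by linarith) (by linarith)
    have ht1 : t ≤ 1 := by rw [ht, div_le_one (by linarith)]; linarith
    have hdt : δ = (1 - t) * x + t * y := by
      have : t * (y - x) = δ - x := by rw [ht, div_mul_cancel₀ _ (sub_pos.2 hxy).ne']
      linarith
    have hx' : x ∈ Set.Ici (0 : ℝ) := hx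
    have hy' : y ∈ Set.Ici (0 : ℝ) := hx.trans hxy.le
    have h3 := hc.2 hx' hy' (sub_nonneg.2 ht1) ht0 (by ring)
    simp only [smul_eq_mul] at h3
    rw [← hdt] at h3
    rw [lt_div_iff₀ hlog]
    have h4 : Tensor.ell δ * Real.log 2 ≤
        (1 - t) * (Tensor.ell x * Real.log 2) + t * (Tensor.ell y * Real.log 2) := by
      calc _ ≤ ((1 - t) * Tensor.ell x + t * Tensor.ell y) * Real.log 2 :=
            mul_le_mul_of_nonneg_right h3 hlog.le
        _ = _ := by ring
    have h5 : (1 - t) * (α + β * (1 - 2 * x)) + t * (α + β * (1 - 2 * y)) =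
        α + β * (1 - 2 * δ) := by rw [hdt]; ring
    rcases eq_or_lt_of_le ht0 with h6 | h6
    · rw [← h6] at h4 h5
      linarith
    · have h7 := mul_lt_mul_of_pos_left hY h6
      have h8 := mul_le_mul_of_nonneg_left hX.le (sub_nonneg.2 ht1)
      linarith
  rcases le_total δ (9 / 40) with h | h
  · refine ⟨(-923 / 6250 + 77873 / 100000 * (1 - 2 * δ)) / Real.log 2, ?_, ?_⟩
    · exact interp (by norm_num) (by norm_num) h1 h (by norm_num at H0 ⊢; linarith)
        (by norm_num at H1 ⊢; linarith)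
    · intro u hu0 hu1
      apply bridge
      have := line_A (w := 1 - 2 * δ) (by linarith) (by linarith) hu0 hu1
      norm_num at this ⊢
      linarith
  · refine ⟨(-12623 / 100000 + 36987 / 50000 * (1 - 2 * δ)) / Real.log 2, ?_, ?_⟩
    · exact interp (by norm_num) (by norm_num) h h2 (by norm_num at H1' ⊢; linarith)
        (by norm_num at H2 ⊢; linarith)
    · intro u hu0 hu1
      apply bridge
      have := line_B (w := 1 - 2 * δ) (by linarith) (by linarith) hu0 hu1
      norm_num at this ⊢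
      linarith

end Calc2

end Pool.Agent.Lib.MP_0430e4_lc.Harm
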