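import Mathlib

/-!
# Calculus for the comparison with the second MRRW bound: tangent bounds

`Ef u` is the entropy of `1/2 - √(1-u²)/2` and `Kf y` is `log 2` minus the entropy of
`1/2 - √y/2`.
-/

set_option autoImplicit false

namespace Pool.Agent.Lib.MP_0430e4_lc.Harm

open Filter Topology

namespace Calc2

/-- `E(u)` -/
noncomputable def Ef (u : ℝ) : ℝ := Real.binEntropy (1 / 2 - 1 / 2 * Real.sqrt (1 - u ^ 2))

/-- `K(y)` -/
noncomputable def Kf (y : ℝ) : ℝ := Real.log 2 - Real.binEntropy (1 / 2 - 1 / 2 * Real.sqrt y)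

/-- lower bound for `log (1+x) - log (1-x)` -/
theorem logdiff_ge {x : ℝ} (hx0 : 0 ≤ x) (hx1 : x < 1) (N : ℕ) :
    ∑ k ∈ Finset.range N, 2 * (1 / (2 * (k : ℝ) + 1)) * x ^ (2 * k + 1) ≤
      Real.log (1 + x) - Real.log (1 - x) := by
  have h := Real.hasSum_log_sub_log_of_abs_lt_one (x := x) (by rw [abs_of_nonneg hx0]; exact hx1)
  have h1 := h.summable.sum_le_tsum (Finset.range N) (fun k _ => by positivity)
  rw [h.tsum_eq] at h1
  exact h1

theorem logdiff_ge3 {x : ℝ} (hx0 : 0 ≤ x) (hx1 : x < 1) :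
    2 * (x + x ^ 3 / 3 + x ^ 5 / 5) ≤ Real.log (1 + x) - Real.log (1 - x) := by
  have h := logdiff_ge hx0 hx1 3
  simp only [Finset.sum_range_succ, Finset.sum_range_zero] at h
  norm_num at h
  linarith

theorem logdiff_ge6 {x : ℝ} (hx0 : 0 ≤ x) (hx1 : x < 1) :
    2 * (x + x ^ 3 / 3 + x ^ 5 / 5 + x ^ 7 / 7 + x ^ 9 / 9 + x ^ 11 / 11) ≤
      Real.log (1 + x) - Real.log (1 - x) := by
  have h := logdiff_ge hx0 hx1 6
  simp only [Finset.sum_range_succ, Finset.sum_range_zero] at h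
  norm_num at h
  linarith

theorem logdiff_ge1 {x : ℝ} (hx0 : 0 ≤ x) (hx1 : x < 1) :
    2 * x ≤ Real.log (1 + x) - Real.log (1 - x) := by
  have h := logdiff_ge hx0 hx1 1
  simp only [Finset.sum_range_succ, Finset.sum_range_zero] at h
  norm_num at h
  linarith

/-- upper bound for `log (1+x) - log (1-x)` -/
theorem logdiff_le {x : ℝ} (hx0 : 0 ≤ x) (hx1 : x < 1) :
    Real.log (1 + x) - Real.log (1 - x) ≤ 2 * (x + x ^ 3 / 3 + x ^ 5 / (5 * (1 - x ^ 2))) := by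
  have h := Real.hasSum_log_sub_log_of_abs_lt_one (x := x) (by rw [abs_of_nonneg hx0]; exact hx1)
  have hx2 : x ^ 2 < 1 := by nlinarith
  have hg := (hasSum_geometric_of_lt_one (sq_nonneg x) hx2).mul_left (2 * (1 / 5) * x ^ 5)
  have h2 := (hasSum_nat_add_iff' 2).2 h
  have h3 := hasSum_le (fun k => ?_) h2 hg
  · simp only [Finset.sum_range_succ, Finset.sum_range_zero] at h3
    norm_num at h3
    have e : x ^ 5 / (5 * (1 - x ^ 2)) = 1 / 5 * x ^ 5 * (1 - x ^ 2)⁻¹ := by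
      have : (1 - x ^ 2) ≠ 0 := by linarith
      field_simp
    rw [e]
    linarith
  · have e1 : x ^ (2 * (k + 2) + 1) = x ^ 5 * (x ^ 2) ^ k := by
      rw [← pow_mul, ← pow_add]; congr 1; ring
    rw [e1]
    push_cast
    have h5 : 2 * (1 / (2 * ((k : ℝ) + 2) + 1)) ≤ 2 * (1 / 5) := by
      apply mul_le_mul_of_nonneg_left _ (by norm_num)
      apply one_div_le_one_div_of_le (by norm_num)
      have : (0 : ℝ) ≤ k := Nat.cast_nonneg k
      linarith
    calc 2 * (1 / (2 * ((k : ℝ) + 2) + 1)) * (x ^ 5 * (x ^ 2) ^ k)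
        ≤ 2 * (1 / 5) * (x ^ 5 * (x ^ 2) ^ k) :=
          mul_le_mul_of_nonneg_right h5 (by positivity)
      _ = 2 * (1 / 5) * x ^ 5 * (x ^ 2) ^ k := by ring

/-! ### the derivative of `E` -/

/-- `E'(u)` -/
noncomputable def Ed (u : ℝ) : ℝ :=
  u * (Real.log (1 + Real.sqrt (1 - u ^ 2)) - Real.log u) / Real.sqrt (1 - u ^ 2)

theorem sqrt_facts {u : ℝ} (h0 : 0 < u) (h1 : u < 1) :
    0 < Real.sqrt (1 - u ^ 2) ∧ Real.sqrt (1 - u ^ 2) < 1 ∧
      Real.sqrt (1 - u ^ 2) ^ 2 = 1 - u ^ 2 := by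
  have hpos : (0 : ℝ) < 1 - u ^ 2 := by nlinarith
  refine ⟨Real.sqrt_pos.2 hpos, ?_, Real.sq_sqrt hpos.le⟩
  rw [Real.sqrt_lt' one_pos]; nlinarith [pow_pos h0 2]

theorem d_sqrt {u : ℝ} (h0 : 0 < u) (h1 : u < 1) :
    HasDerivAt (fun v : ℝ => Real.sqrt (1 - v ^ 2)) (-(2 * u) / (2 * Real.sqrt (1 - u ^ 2))) u := by
  have hpos : (0 : ℝ) < 1 - u ^ 2 := by nlinarith
  have d0 : HasDerivAt (fun w : ℝ => 1 - w ^ 2) (-(2 * u)) u := by
    have := (hasDerivAt_pow 2 u).const_sub 1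
    simpa using this
  exact d0.sqrt hpos.ne'

theorem Ef_deriv {u : ℝ} (h0 : 0 < u) (h1 : u < 1) : HasDerivAt Ef (Ed u) u := by
  obtain ⟨hs, hs1, hs2⟩ := sqrt_facts h0 h1
  have d1 := ((d_sqrt h0 h1).const_mul (1 / 2)).const_sub (1 / 2)
  have d2 := (Real.hasDerivAt_binEntropy
    (p := 1 / 2 - 1 / 2 * Real.sqrt (1 - u ^ 2)) (by linarith) (by linarith)).comp u d1
  refine HasDerivAt.congr_deriv (f := Ef) d2 ?_
  unfold Ed
  obtain ⟨s, hsd⟩ : ∃ s : ℝ, s = Real.sqrt (1 - u ^ 2) := ⟨_, rfl⟩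
  rw [← hsd] at hs hs1 hs2 ⊢
  have e1 : Real.log (1 - (1 / 2 - 1 / 2 * s)) - Real.log (1 / 2 - 1 / 2 * s) =
      2 * (Real.log (1 + s) - Real.log u) := by
    have a1 : 1 - (1 / 2 - 1 / 2 * s) = (1 + s) / 2 := by ring
    have a2 : 1 / 2 - 1 / 2 * s = u ^ 2 / (1 + s) / 2 := by
      have : u ^ 2 = (1 - s) * (1 + s) := by
        have : u ^ 2 = 1 - s ^ 2 := by rw [hs2]; ring
        rw [this]; ring
      rw [this]
      field_simp
    rw [a1, a2, Real.log_div (by positivity) (by norm_num),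
      Real.log_div (by positivity) (by norm_num), Real.log_div (by positivity) (by positivity),
      Real.log_pow]
    push_cast
    ring
  rw [e1]
  field_simp

theorem Ed_deriv {u : ℝ} (h0 : 0 < u) (h1 : u < 1) :
    ∃ d, 0 ≤ d ∧ HasDerivAt Ed d u := by
  obtain ⟨hs, hs1, hs2⟩ := sqrt_facts h0 h1
  have d1 := d_sqrt h0 h1
  have d2 := (d1.const_add 1).log (by positivity)
  have d3 := d2.sub (Real.hasDerivAt_log h0.ne')
  have d4 := ((hasDerivAt_id u).mul d3).div d1 hs.ne'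
  have hl := logdiff_ge1 hs.le hs1
  refine ⟨_, ?_, d4⟩
  simp only [id, Pi.mul_apply, Pi.sub_apply]
  obtain ⟨s, hsd⟩ : ∃ s : ℝ, s = Real.sqrt (1 - u ^ 2) := ⟨_, rfl⟩
  rw [← hsd] at hs hs1 hs2 hl ⊢
  have hu2 : u ^ 2 = (1 - s) * (1 + s) := by
    have : u ^ 2 = 1 - s ^ 2 := by rw [hs2]; ring
    rw [this]; ring
  have hl2 : s ≤ Real.log (1 + s) - Real.log u := by
    have : 2 * Real.log u = Real.log (1 - s) + Real.log (1 + s) := by
      rw [← Real.log_mul (by linarith) (by linarith), ← hu2, Real.log_pow]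
      norm_num
    linarith
  set l := Real.log (1 + s) - Real.log u with hldef
  apply div_nonneg _ (by positivity)
  have e : (1 * l + u * (-(2 * u) / (2 * s) / (1 + s) - u⁻¹)) * s -
      u * l * (-(2 * u) / (2 * s)) = (l - s) / s := by
    have hu' : u ≠ 0 := h0.ne'
    have hs' : s ≠ 0 := hs.ne'
    have h1s : (1 + s) ≠ 0 := by positivity
    field_simp
    rw [hu2]
    ring
  rw [e]
  exact div_nonneg (by linarith) hs.le

theorem Ed_mono {u v : ℝ} (hu : 0 < u) (huv : u ≤ v) (hv : v < 1) : Ed u ≤ Ed v := by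
  have hm : MonotoneOn Ed (Set.Icc u v) := by
    refine monotoneOn_of_deriv_nonneg (convex_Icc _ _) (fun z hz => ?_) (fun z hz => ?_) ?_
    · obtain ⟨d, -, h⟩ := Ed_deriv (hu.trans_le hz.1) (hz.2.trans_lt hv)
      exact h.continuousAt.continuousWithinAt
    · rw [interior_Icc] at hz
      obtain ⟨d, -, h⟩ := Ed_deriv (hu.trans hz.1) (hz.2.trans hv)
      exact h.differentiableAt.differentiableWithinAt
    · intro z hz
      rw [interior_Icc] at hz
      obtain ⟨d, hd, h⟩ := Ed_deriv (hu.trans hz.1) (hz.2.trans hv)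
      rw [h.deriv]
      exact hd
  exact hm (Set.left_mem_Icc.2 huv) (Set.right_mem_Icc.2 huv) huv

theorem Ef_tangent' {c u : ℝ} (hc0 : 0 < c) (hc1 : c < 1) (hu0 : 0 < u) (hu1 : u < 1) :
    Ef c + Ed c * (u - c) ≤ Ef u := by
  rcases lt_trichotomy u c with h | h | h
  · -- mean value
    obtain ⟨z, hz, hz2⟩ := exists_hasDerivAt_eq_slope Ef Ed h
      (fun z hz => (Ef_deriv (hu0.trans_le hz.1) (hz.2.trans_lt hc1)).continuousAt.continuousWithinAt)
      (fun z hz => Ef_deriv (hu0.trans hz.1) (hz.2.trans hc1))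
    have h3 := Ed_mono (hu0.trans hz.1) hz.2.le hc1
    rw [hz2, div_le_iff₀ (by linarith)] at h3
    nlinarith
  · subst h; simp
  · obtain ⟨z, hz, hz2⟩ := exists_hasDerivAt_eq_slope Ef Ed h
      (fun z hz => (Ef_deriv (hc0.trans_le hz.1) (hz.2.trans_lt hu1)).continuousAt.continuousWithinAt)
      (fun z hz => Ef_deriv (hc0.trans hz.1) (hz.2.trans hu1))
    have h3 := Ed_mono hc0 hz.1.le (hz.2.trans hu1)
    rw [hz2, le_div_iff₀ (by linarith)] at h3
    nlinarith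

/-- The tangent of `E` at `2q/(1+q²)`. -/
theorem Ef_tangent {q u : ℝ} (hq0 : 0 < q) (hq1 : q < 1) (hu0 : 0 < u) (hu1 : u < 1) :
    Real.log (1 + q ^ 2) + 2 * q / (1 - q ^ 2) * (-Real.log q) * (u - q) ≤ Ef u := by
  have hq2 : 0 < 1 - q ^ 2 := by nlinarith
  obtain ⟨c, hc⟩ : ∃ c : ℝ, c = 2 * q / (1 + q ^ 2) := ⟨_, rfl⟩
  have hc0 : 0 < c := by rw [hc]; positivity
  have hc1 : c < 1 := by
    rw [hc, div_lt_one (by positivity)]
    nlinarith [sq_nonneg (1 - q), mul_pos (sub_pos.2 hq1) (sub_pos.2 hq1)]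
  have hs : Real.sqrt (1 - c ^ 2) = (1 - q ^ 2) / (1 + q ^ 2) := by
    have : 1 - c ^ 2 = ((1 - q ^ 2) / (1 + q ^ 2)) ^ 2 := by
      rw [hc]; field_simp; ring
    rw [this, Real.sqrt_sq (by positivity)]
  have hE : Ef c = Real.log (1 + q ^ 2) - 2 * q ^ 2 / (1 + q ^ 2) * Real.log q := by
    unfold Ef
    rw [hs]
    have e1 : (1 / 2 - 1 / 2 * ((1 - q ^ 2) / (1 + q ^ 2)) : ℝ) = q ^ 2 / (1 + q ^ 2) := by
      field_simp; ring
    have e2 : 1 - q ^ 2 / (1 + q ^ 2) = 1 / (1 + q ^ 2) := by field_simp; ring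
    rw [e1]
    unfold Real.binEntropy
    rw [e2, inv_div, one_div, inv_inv, Real.log_div (by positivity) (by positivity), Real.log_pow]
    push_cast
    field_simp
    ring
  have hD : Ed c = 2 * q / (1 - q ^ 2) * (-Real.log q) := by
    unfold Ed
    rw [hs]
    have e1 : 1 + (1 - q ^ 2) / (1 + q ^ 2) = 2 / (1 + q ^ 2) := by field_simp; ring
    have e2 : Real.log c = Real.log 2 + Real.log q - Real.log (1 + q ^ 2) := by
      rw [hc, Real.log_div (by positivity) (by positivity),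
        Real.log_mul (by norm_num) hq0.ne']
    rw [e1, e2, Real.log_div (by norm_num) (by positivity), hc]
    field_simp
    ring
  have h := Ef_tangent' hc0 hc1 hu0 hu1
  rw [hE, hD] at h
  refine le_trans (le_of_eq ?_) h
  rw [hc]
  field_simp
  ring

/-! ### the lower bound for `K` -/

/-- truncated series -/
noncomputable def k6 (y : ℝ) : ℝ :=
  y / 2 + y ^ 2 / 12 + y ^ 3 / 30 + y ^ 4 / 56 + y ^ 5 / 90 + y ^ 6 / 132

/-- its derivative -/
noncomputable def k6' (y : ℝ) : ℝ :=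
  1 / 2 + y / 6 + y ^ 2 / 10 + y ^ 3 / 14 + y ^ 4 / 18 + y ^ 5 / 22

theorem pow_tangent {x y : ℝ} (hx : 0 ≤ x) (hy : 0 ≤ y) (n : ℕ) :
    x ^ (n + 1) + (n + 1) * x ^ n * (y - x) ≤ y ^ (n + 1) := by
  induction n with
  | zero => simp
  | succ n ih =>
    have h1 := mul_le_mul_of_nonneg_left ih hy
    have h2 : 0 ≤ ((n : ℝ) + 1) * x ^ n * (y - x) ^ 2 := by positivity
    push_cast
    have e : x ^ (n + 1 + 1) + ((n : ℝ) + 1 + 1) * x ^ (n + 1) * (y - x) =
      y * (x ^ (n + 1) + ((n : ℝ) + 1) * x ^ n * (y - x)) -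
        ((n : ℝ) + 1) * x ^ n * (y - x) ^ 2 := by ring
    have e2 : y ^ (n + 1 + 1) = y * y ^ (n + 1) := by ring
    rw [e, e2]
    linarith

theorem k6_tangent {x y : ℝ} (hx : 0 ≤ x) (hy : 0 ≤ y) :
    k6 x + k6' x * (y - x) ≤ k6 y := by
  have h1 := pow_tangent hx hy 1
  have h2 := pow_tangent hx hy 2
  have h3 := pow_tangent hx hy 3
  have h4 := pow_tangent hx hy 4
  have h5 := pow_tangent hx hy 5
  norm_num at h1 h2 h3 h4 h5
  unfold k6 k6'
  nlinarith

theorem Kf_ge {y : ℝ} (hy0 : 0 ≤ y) (hy1 : y < 1) : k6 y ≤ Kf y := by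
  obtain ⟨x, hx⟩ : ∃ x : ℝ, x = Real.sqrt y := ⟨_, rfl⟩
  have hx0 : 0 ≤ x := by rw [hx]; positivity
  have hx2 : x ^ 2 = y := by rw [hx]; exact Real.sq_sqrt hy0
  have hx1 : x < 1 := by
    rw [hx, Real.sqrt_lt' one_pos]; simpa using hy1
  have hd : ∀ z ∈ Set.Ioo (0 : ℝ) 1, HasDerivAt (fun z : ℝ =>
      Real.log 2 - Real.binEntropy (1 / 2 - 1 / 2 * z) - k6 (z ^ 2))
      (-((Real.log (1 - (1 / 2 - 1 / 2 * z)) - Real.log (1 / 2 - 1 / 2 * z)) *
        -(1 / 2 * 1)) - k6' (z ^ 2) * (2 * z)) z := by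
    intro z hz
    have d1 := ((hasDerivAt_id z).const_mul (1 / 2)).const_sub (1 / 2)
    have d2 := (Real.hasDerivAt_binEntropy (p := 1 / 2 - 1 / 2 * z)
      (by linarith [hz.2]) (by linarith [hz.1])).comp z d1
    have d3 : HasDerivAt (fun z : ℝ => k6 (z ^ 2)) (k6' (z ^ 2) * (2 * z)) z := by
      have e : (fun z : ℝ => k6 (z ^ 2)) = fun z : ℝ => z ^ 2 / 2 + z ^ 4 / 12 + z ^ 6 / 30 +
          z ^ 8 / 56 + z ^ 10 / 90 + z ^ 12 / 132 := by
        funext z; unfold k6; ring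
      rw [e]
      have := ((((((hasDerivAt_pow 2 z).div_const 2).add ((hasDerivAt_pow 4 z).div_const 12)).add
        ((hasDerivAt_pow 6 z).div_const 30)).add ((hasDerivAt_pow 8 z).div_const 56)).add
        ((hasDerivAt_pow 10 z).div_const 90)).add ((hasDerivAt_pow 12 z).div_const 132)
      refine HasDerivAt.congr_deriv this ?_
      unfold k6'
      norm_num
      ring
    exact ((d2.const_sub (Real.log 2)).sub d3)
  have hmono : MonotoneOn (fun z : ℝ =>
      Real.log 2 - Real.binEntropy (1 / 2 - 1 / 2 * z) - k6 (z ^ 2)) (Set.Icc 0 x) := by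
    refine monotoneOn_of_deriv_nonneg (convex_Icc _ _) ?_ (fun z hz => ?_) ?_
    · have c1 : Continuous fun v : ℝ => 1 / 2 - 1 / 2 * v := by fun_prop
      have c2 : Continuous fun v : ℝ => k6 (v ^ 2) := by
        unfold k6; fun_prop
      exact ((continuous_const.sub (Real.binEntropy_continuous.comp c1)).sub c2).continuousOn
    · rw [interior_Icc] at hz
      exact (hd z ⟨hz.1, hz.2.trans hx1⟩).differentiableAt.differentiableWithinAt
    · intro z hz
      rw [interior_Icc] at hz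
      have hz1 : z < 1 := hz.2.trans hx1
      rw [(hd z ⟨hz.1, hz1⟩).deriv]
      have h6 := logdiff_ge6 hz.1.le hz1
      have e1 : Real.log (1 - (1 / 2 - 1 / 2 * z)) - Real.log (1 / 2 - 1 / 2 * z) =
          Real.log (1 + z) - Real.log (1 - z) := by
        have a1 : 1 - (1 / 2 - 1 / 2 * z) = (1 + z) / 2 := by ring
        have a2 : 1 / 2 - 1 / 2 * z = (1 - z) / 2 := by ring
        rw [a1, a2, Real.log_div (by linarith [hz.1]) (by norm_num),
          Real.log_div (by linarith) (by norm_num)]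
        ring
      rw [e1]
      have e2 : k6' (z ^ 2) * (2 * z) =
          z + z ^ 3 / 3 + z ^ 5 / 5 + z ^ 7 / 7 + z ^ 9 / 9 + z ^ 11 / 11 := by
        unfold k6'; ring
      rw [e2]
      linarith
  have h := hmono (Set.left_mem_Icc.2 hx0) (Set.right_mem_Icc.2 hx0) hx0
  have e0 : Real.log 2 - Real.binEntropy (1 / 2 - 1 / 2 * 0) - k6 (0 ^ 2) = 0 := by
    have : (1 / 2 - 1 / 2 * 0 : ℝ) = 2⁻¹ := by norm_num
    rw [this, Real.binEntropy_two_inv]
    unfold k6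
    norm_num
  dsimp only at h
  rw [e0, hx2] at h
  unfold Kf
  rw [← hx]
  linarith

/-- One cell. -/
theorem cell {q y1 P e A B a b wl wh α β : ℝ} (hq0 : 0 < q) (hq1 : q < 1) (hy1 : 0 ≤ y1)
    (he : e = 2 * q / (1 - q ^ 2) * (-Real.log q)) (hP : P ≤ Real.log (1 + q ^ 2))
    (hab : a < b) (hwlh : wl < wh)
    (hA : A ≤ e * (a - q)) (hB : B ≤ e * (b - q))
    (c1 : α + β * wl ≤ P + A + k6 y1 + k6' y1 * ((1 + a) * (wl - a) - y1))
    (c2 : α + β * wh ≤ P + A + k6 y1 + k6' y1 * ((1 + a) * (wh - a) - y1))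
    (c3 : α + β * wl ≤ P + B + k6 y1 + k6' y1 * ((1 + b) * (wl - b) - y1))
    (c4 : α + β * wh ≤ P + B + k6 y1 + k6' y1 * ((1 + b) * (wh - b) - y1))
    {w u : ℝ} (hw1 : wl ≤ w) (hw2 : w ≤ wh) (hu0 : 0 < u) (hua : a ≤ u) (hub : u ≤ b)
    (huw : u ≤ w) (hw : w < 1) : α + β * w ≤ Ef u + Kf ((1 + u) * (w - u)) := by
  have hE := Ef_tangent hq0 hq1 hu0 (huw.trans_lt hw)
  rw [← he] at hE
  have hy0 : 0 ≤ (1 + u) * (w - u) := mul_nonneg (by linarith) (by linarith)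
  have hyl : (1 + u) * (w - u) < 1 := by nlinarith
  have hK := Kf_ge hy0 hyl
  have hK2 := k6_tangent hy1 hy0
  have hk : 0 ≤ k6' y1 := by unfold k6'; positivity
  obtain ⟨κ, hκ⟩ : ∃ κ, κ = k6' y1 := ⟨_, rfl⟩
  rw [← hκ] at c1 c2 c3 c4 hK2 hk
  obtain ⟨C, hC⟩ : ∃ C, C = k6 y1 := ⟨_, rfl⟩
  rw [← hC] at c1 c2 c3 c4 hK2
  -- interpolation
  obtain ⟨t, ht⟩ : ∃ t, t = (u - a) / (b - a) := ⟨_, rfl⟩
  have ht0 : 0 ≤ t := by rw [ht]; exact div_nonneg (by linarith) (by linarith)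
  have ht1 : t ≤ 1 := by rw [ht, div_le_one (by linarith)]; linarith
  have hut : u = a + t * (b - a) := by
    rw [ht, div_mul_cancel₀ _ (sub_pos.2 hab).ne']; ring
  obtain ⟨r, hr⟩ : ∃ r, r = (w - wl) / (wh - wl) := ⟨_, rfl⟩
  have hr0 : 0 ≤ r := by rw [hr]; exact div_nonneg (by linarith) (by linarith)
  have hr1 : r ≤ 1 := by rw [hr, div_le_one (by linarith)]; linarith
  have hwr : w = wl + r * (wh - wl) := by
    rw [hr, div_mul_cancel₀ _ (sub_pos.2 hwlh).ne']; ring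
  have g1 : α + β * w ≤ P + A + C + κ * ((1 + a) * (w - a) - y1) := by
    have h1 := mul_le_mul_of_nonneg_left c1 (sub_nonneg.2 hr1)
    have h2 := mul_le_mul_of_nonneg_left c2 hr0
    rw [hwr]
    nlinarith
  have g2 : α + β * w ≤ P + B + C + κ * ((1 + b) * (w - b) - y1) := by
    have h1 := mul_le_mul_of_nonneg_left c3 (sub_nonneg.2 hr1)
    have h2 := mul_le_mul_of_nonneg_left c4 hr0
    rw [hwr]
    nlinarith
  have g3 : (1 - t) * (P + A + C + κ * ((1 + a) * (w - a) - y1)) +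
      t * (P + B + C + κ * ((1 + b) * (w - b) - y1)) ≤
      P + e * (u - q) + C + κ * ((1 + u) * (w - u) - y1) := by
    have h1 := mul_le_mul_of_nonneg_left hA (sub_nonneg.2 ht1)
    have h2 := mul_le_mul_of_nonneg_left hB ht0
    have h3 : 0 ≤ κ * (t * (1 - t) * (b - a) ^ 2) := by
      have : 0 ≤ 1 - t := by linarith
      positivity
    have h4 : (1 - t) * ((1 + a) * (w - a)) + t * ((1 + b) * (w - b)) +
        t * (1 - t) * (b - a) ^ 2 = (1 + u) * (w - u) := by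
      rw [hut]; ring
    have h5 : (1 - t) * (e * (a - q)) + t * (e * (b - q)) = e * (u - q) := by
      rw [hut]; ring
    have h6 : κ * ((1 - t) * ((1 + a) * (w - a)) + t * ((1 + b) * (w - b)) +
        t * (1 - t) * (b - a) ^ 2) = κ * ((1 + u) * (w - u)) := by rw [h4]
    linarith
  have g4 := mul_le_mul_of_nonneg_left g1 (sub_nonneg.2 ht1)
  have g5 := mul_le_mul_of_nonneg_left g2 ht0
  linarith

/-! ### numerical logarithms -/

theorem log_bd1 {r x : ℝ} (k : ℕ) (hx0 : 0 ≤ x) (hx1 : x < 1) (h : r * (1 - x) = 2 ^ k * (1 + x)) :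
    (k : ℝ) * 0.6931471803 + 2 * (x + x ^ 3 / 3 + x ^ 5 / 5) ≤ Real.log r ∧
      Real.log r ≤ (k : ℝ) * 0.6931471808 + 2 * (x + x ^ 3 / 3 + x ^ 5 / (5 * (1 - x ^ 2))) := by
  have hr : r = 2 ^ k * ((1 + x) / (1 - x)) := by
    have : (1 - x) ≠ 0 := by linarith
    field_simp
    linarith
  have e : Real.log r = k * Real.log 2 + (Real.log (1 + x) - Real.log (1 - x)) := by
    rw [hr, Real.log_mul (by positivity) (div_pos (by linarith) (by linarith)).ne', Real.log_pow,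
      Real.log_div (by linarith) (by linarith)]
  have hk : (0 : ℝ) ≤ k := Nat.cast_nonneg k
  have h1 := mul_le_mul_of_nonneg_left Real.log_two_gt_d9.le hk
  have h2 := mul_le_mul_of_nonneg_left Real.log_two_lt_d9.le hk
  have h3 := logdiff_ge3 hx0 hx1
  have h4 := logdiff_le hx0 hx1
  rw [e]
  exact ⟨by linarith, by linarith⟩

theorem log_bd2 {r x : ℝ} (k : ℕ) (hx0 : 0 ≤ x) (hx1 : x < 1) (h : r * (1 + x) = 2 ^ k * (1 - x)) :
    (k : ℝ) * 0.6931471803 - 2 * (x + x ^ 3 / 3 + x ^ 5 / (5 * (1 - x ^ 2))) ≤ Real.log r ∧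
      Real.log r ≤ (k : ℝ) * 0.6931471808 - 2 * (x + x ^ 3 / 3 + x ^ 5 / 5) := by
  have hr : r = 2 ^ k * ((1 - x) / (1 + x)) := by
    have : (1 + x) ≠ 0 := by linarith
    field_simp
    linarith
  have e : Real.log r = k * Real.log 2 - (Real.log (1 + x) - Real.log (1 - x)) := by
    rw [hr, Real.log_mul (by positivity) (div_pos (by linarith) (by linarith)).ne', Real.log_pow,
      Real.log_div (by linarith) (by linarith)]
    ring
  have hk : (0 : ℝ) ≤ k := Nat.cast_nonneg k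
  have h1 := mul_le_mul_of_nonneg_left Real.log_two_gt_d9.le hk
  have h2 := mul_le_mul_of_nonneg_left Real.log_two_lt_d9.le hk
  have h3 := logdiff_ge3 hx0 hx1
  have h4 := logdiff_le hx0 hx1
  rw [e]
  exact ⟨by linarith, by linarith⟩

end Calc2

end Pool.Agent.Lib.MP_0430e4_lc.Harm
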