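import Pool.Agent.Lib.MP_0430e4_lc.Harm.Basic

/-!
# Existence of harmonic functions
-/

set_option autoImplicit false
set_option linter.unusedSectionVars false

namespace Pool.Agent.Lib.MP_0430e4_lc.Harm

open Finset Tensor

variable {ι : Type*} [Fintype ι] [DecidableEq ι]

instance decLe (S z : ι → Bool) : Decidable (S ≤ z) :=
  inferInstanceAs (Decidable (∀ i, S i ≤ z i))

/-- extension of a function on the `m`-th layer -/
def ext (x : (ι → Bool) → ℝ) (z : ι → Bool) : ℝ := ∑ S, if S ≤ z then x S else 0

theorem le_flp_true {S z : ι → Bool} {i : ι} (hz : z i = true) :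
    S ≤ flp z i ↔ S ≤ z ∧ S i = false := by
  constructor
  · intro h
    refine ⟨fun j => ?_, ?_⟩
    · by_cases hj : j = i
      · subst hj
        rw [hz]
        exact Bool.le_true _
      · have := h j
        rwa [flp_ne z hj] at this
    · have := h i
      rw [flp_self, hz] at this
      cases hS : S i
      · rfl
      · rw [hS] at this
        exact absurd this (by simp)
  · rintro ⟨h, h2⟩ j
    by_cases hj : j = i
    · subst hj
      rw [h2]
      exact Bool.false_le _
    · rw [flp_ne z hj]
      exact h j

theorem le_flp_false {S z : ι → Bool} {i : ι} (hz : z i = false) :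
    S ≤ flp z i ↔ (S ≤ z ∨ (S i = true ∧ flp S i ≤ z)) := by
  constructor
  · intro h
    cases hS : S i
    · left
      intro j
      by_cases hj : j = i
      · subst hj
        rw [hS]
        exact Bool.false_le _
      · have := h j
        rwa [flp_ne z hj] at this
    · right
      refine ⟨rfl, fun j => ?_⟩
      by_cases hj : j = i
      · subst hj
        rw [flp_self, hS]
        exact Bool.false_le _
      · rw [flp_ne S hj]
        have := h j
        rwa [flp_ne z hj] at this
  · rintro (h | ⟨h, h2⟩) j
    · by_cases hj : j = i
      · subst hj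
        rw [flp_self, hz]
        exact Bool.le_true _
      · rw [flp_ne z hj]
        exact h j
    · by_cases hj : j = i
      · subst hj
        rw [flp_self, hz]
        exact Bool.le_true _
      · rw [flp_ne z hj]
        have := h2 j
        rwa [flp_ne S hj] at this

theorem flp_le_true {S z : ι → Bool} {i : ι} (hz : z i = true) : flp S i ≤ z ↔ S ≤ z := by
  constructor
  · intro h j
    by_cases hj : j = i
    · subst hj
      rw [hz]
      exact Bool.le_true _
    · have := h j
      rwa [flp_ne S hj] at this
  · intro h j
    by_cases hj : j = i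
    · subst hj
      rw [hz]
      exact Bool.le_true _
    · rw [flp_ne S hj]
      exact h j

theorem ext_down {m : ℕ} {x : (ι → Bool) → ℝ} (hx : ∀ S, wt S ≠ m → x S = 0) (z : ι → Bool) :
    ∑ i, (if z i = true then ext x (flp z i) else 0) = ((wt z : ℝ) - m) * ext x z := by
  have h1 : ∀ i, (if z i = true then ext x (flp z i) else 0)
      = ∑ S, (if S ≤ z then ((if z i = true then (1 : ℝ) else 0)
        - (if S i = true then (1 : ℝ) else 0)) * x S else 0) := by
    intro i
    split_ifs with hz
    · unfold ext
      apply Finset.sum_congr rfl
      intro S _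
      by_cases hS : S ≤ z
      · cases hSi : S i
        · rw [if_pos ((le_flp_true hz).2 ⟨hS, hSi⟩), if_pos hS]
          simp
        · have : ¬ S ≤ flp z i := fun h => by
            have := ((le_flp_true hz).1 h).2
            rw [hSi] at this
            exact absurd this (by simp)
          rw [if_neg this, if_pos hS]
          simp
      · have : ¬ S ≤ flp z i := fun h => hS ((le_flp_true hz).1 h).1
        rw [if_neg this, if_neg hS]
    · symm
      apply Finset.sum_eq_zero
      intro S _
      split_ifs with h2 h3
      · have := h2 i
        rw [h3] at this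
        exact absurd (Bool.eq_true_of_true_le this) hz
      · simp
      · rfl
  simp only [h1]
  rw [Finset.sum_comm]
  unfold ext
  rw [Finset.mul_sum]
  apply Finset.sum_congr rfl
  intro S _
  split_ifs with h
  · rw [← Finset.sum_mul, Finset.sum_sub_distrib, ← wt_eq_sum, ← wt_eq_sum]
    by_cases hS : wt S = m
    · rw [hS]
    · rw [hx S hS]
      simp
  · simp

theorem ext_up {m : ℕ} {x : (ι → Bool) → ℝ} (hx : ∀ S, wt S ≠ m → x S = 0)
    (hd : ∀ T, ∑ i, (if T i = false then x (flp T i) else 0) = 0) (z : ι → Bool) :
    ∑ i, (if z i = false then ext x (flp z i) else 0)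
      = ((Fintype.card ι : ℝ) - wt z - m) * ext x z := by
  -- expansion of a single term
  have h1 : ∀ i, (if z i = false then ext x (flp z i) else 0)
      = (if z i = false then (1 : ℝ) else 0) * ext x z
        + ∑ T, (if T ≤ z then (if z i = false then x (flp T i) else 0) else 0) := by
    intro i
    cases hz : z i
    · simp only [if_true, one_mul]
      have e : ∑ T, (if T ≤ z then x (flp T i) else 0)
          = ∑ S, (if flp S i ≤ z then x S else 0) := by
        rw [← sum_flp i]
        simp only [flp_flp]
      rw [e]
      unfold ext
      rw [← Finset.sum_add_distrib]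
      apply Finset.sum_congr rfl
      intro S _
      cases hSi : S i
      · have h2 : ¬ flp S i ≤ z := fun h => by
          have := h i
          rw [flp_self, hSi, hz] at this
          exact absurd this (by simp)
        rw [if_neg h2]
        by_cases hS : S ≤ z
        · rw [if_pos ((le_flp_false hz).2 (Or.inl hS)), if_pos hS]
          simp
        · have : ¬ S ≤ flp z i := fun h => by
            rcases (le_flp_false hz).1 h with h | h
            · exact hS h
            · exact h2 h.2
          rw [if_neg this, if_neg hS]
          simp
      · have h2 : ¬ S ≤ z := fun h => by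
          have := h i
          rw [hSi, hz] at this
          exact absurd this (by simp)
        rw [if_neg h2]
        by_cases hS : flp S i ≤ z
        · rw [if_pos ((le_flp_false hz).2 (Or.inr ⟨hSi, hS⟩)), if_pos hS]
          simp
        · have : ¬ S ≤ flp z i := fun h => by
            rcases (le_flp_false hz).1 h with h | h
            · exact h2 h
            · exact hS h.2
          rw [if_neg this, if_neg hS]
          simp
    · simp
  simp only [h1]
  rw [Finset.sum_add_distrib, ← Finset.sum_mul, ← wt_co]
  -- second part
  have h3 : ∑ i, ∑ T, (if T ≤ z then (if z i = false then x (flp T i) else 0) else 0)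
      = - ∑ i, ∑ T, (if T ≤ z then (if T i = false ∧ z i = true then x (flp T i) else 0)
          else 0) := by
    rw [Finset.sum_comm, Finset.sum_comm (γ := ι), ← Finset.sum_neg_distrib]
    apply Finset.sum_congr rfl
    intro T _
    by_cases hT : T ≤ z
    · simp only [hT, if_true]
      rw [eq_neg_iff_add_eq_zero, ← Finset.sum_add_distrib]
      refine Eq.trans ?_ (hd T)
      apply Finset.sum_congr rfl
      intro i _
      have := hT i
      cases hTi : T i
      · cases hzi : z i <;> simp
      · rw [hTi] at this
        have hz := Bool.eq_true_of_true_le this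
        simp [hz]
    · simp [hT]
  have h4 : ∑ i, ∑ T, (if T ≤ z then (if T i = false ∧ z i = true then x (flp T i) else 0)
      else 0) = m * ext x z := by
    have h5 : ∀ i, ∑ T, (if T ≤ z then (if T i = false ∧ z i = true then x (flp T i) else 0)
        else 0) = ∑ S, (if S ≤ z then (if S i = true then 1 else 0) * x S else 0) := by
      intro i
      rw [← sum_flp i]
      apply Finset.sum_congr rfl
      intro S _
      rw [flp_self, flp_flp]
      cases hz : z i
      · simp only [Bool.false_eq_true, and_false, if_false, ite_self]
        split_ifs with h6 h7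
        · have := h6 i
          rw [h7, hz] at this
          exact absurd this (by simp)
        · simp
        · rfl
      · simp only [flp_le_true hz, and_true]
        by_cases hS : S ≤ z
        · simp only [hS, if_true]
          cases hSi : S i <;> simp
        · simp [hS]
    simp only [h5]
    rw [Finset.sum_comm]
    unfold ext
    rw [Finset.mul_sum]
    apply Finset.sum_congr rfl
    intro S _
    split_ifs with h
    · rw [← Finset.sum_mul, ← wt_eq_sum]
      by_cases hS : wt S = m
      · rw [hS]
      · rw [hx S hS]
        simp
    · simp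
  rw [h3, h4]
  ring

theorem ext_isHarm {m : ℕ} {x : (ι → Bool) → ℝ} (hx : ∀ S, wt S ≠ m → x S = 0)
    (hd : ∀ T, ∑ i, (if T i = false then x (flp T i) else 0) = 0) : IsHarm m (ext x) :=
  ⟨ext_up hx hd, ext_down hx⟩

theorem eq_of_le_of_wt {S z : ι → Bool} (h : S ≤ z) (hw : wt S = wt z) : S = z := by
  unfold wt at hw
  have h1 : (univ.filter fun i => S i = true) ⊆ (univ.filter fun i => z i = true) := by
    intro i hi
    simp only [mem_filter, mem_univ, true_and] at hi ⊢
    have := h i
    rw [hi] at this
    exact Bool.eq_true_of_true_le this
  have h2 := Finset.eq_of_subset_of_card_le h1 (le_of_eq hw.symm)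
  funext i
  have h3 : (i ∈ (univ.filter fun i => S i = true)) ↔ (i ∈ (univ.filter fun i => z i = true)) := by
    rw [h2]
  simp only [mem_filter, mem_univ, true_and] at h3
  cases hS : S i <;> cases hz : z i <;> simp_all

theorem ext_layer {m : ℕ} {x : (ι → Bool) → ℝ} (hx : ∀ S, wt S ≠ m → x S = 0) {z : ι → Bool}
    (hz : wt z = m) : ext x z = x z := by
  unfold ext
  rw [Finset.sum_eq_single z]
  · simp
  · intro S _ hS
    by_cases h : S ≤ z
    · rw [if_pos h]
      apply hx
      intro h2
      exact hS (eq_of_le_of_wt h (by omega))
    · rw [if_neg h]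
  · simp

theorem N_ext {m : ℕ} {x y : (ι → Bool) → ℝ} (hx : ∀ S, wt S ≠ m → x S = 0)
    (hy : ∀ S, wt S ≠ m → y S = 0) : N m (ext x) (ext y) = ∑ z, x z * y z := by
  unfold N
  apply Finset.sum_congr rfl
  intro z _
  split_ifs with h
  · rw [ext_layer hx h, ext_layer hy h]
  · rw [hx z h]
    simp

theorem card_layer (m : ℕ) : Fintype.card {z : ι → Bool // wt z = m}
    = (Fintype.card ι).choose m := by
  rw [← Fintype.card_finset_len]
  apply Fintype.card_congr
  exact
    { toFun := fun z => ⟨univ.filter fun i => z.1 i = true, z.2⟩
      invFun := fun s => ⟨fun i => decide (i ∈ s.1), by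
        have : (univ.filter fun i => decide (i ∈ s.1) = true) = s.1 := by
          ext i
          simp
        unfold wt
        rw [this]
        exact s.2⟩
      left_inv := by
        intro z
        apply Subtype.ext
        funext i
        simp
      right_inv := by
        intro s
        apply Subtype.ext
        ext i
        simp }

/-- the linear map whose kernel is the space of harmonic coefficient vectors -/
noncomputable def Phi (ι : Type*) [Fintype ι] [DecidableEq ι] (m : ℕ) :
    EuclideanSpace ℝ (ι → Bool) →ₗ[ℝ]
      ({S : ι → Bool // wt S ≠ m} → ℝ) × ({T : ι → Bool // wt T + 1 = m} → ℝ) where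
  toFun x := (fun S => x S.1, fun T => ∑ i, (if T.1 i = false then x (flp T.1 i) else 0))
  map_add' x y := by
    apply Prod.ext
    · funext S
      simp
    · funext T
      simp only [PiLp.add_apply, Prod.snd_add, Pi.add_apply]
      rw [← Finset.sum_add_distrib]
      apply Finset.sum_congr rfl
      intro i _
      split_ifs <;> simp
  map_smul' c x := by
    apply Prod.ext
    · funext S
      simp
    · funext T
      simp only [PiLp.smul_apply, Prod.smul_snd, Pi.smul_apply, smul_eq_mul, RingHom.id_apply]
      rw [Finset.mul_sum]
      apply Finset.sum_congr rfl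
      intro i _
      split_ifs <;> simp

theorem ker_supp {m : ℕ} {x : EuclideanSpace ℝ (ι → Bool)} (hx : x ∈ LinearMap.ker (Phi ι m)) :
    ∀ S, wt S ≠ m → x S = 0 := by
  intro S hS
  have := LinearMap.mem_ker.1 hx
  have h2 := congrFun (congrArg Prod.fst this) ⟨S, hS⟩
  exact h2

theorem ker_dn {m : ℕ} {x : EuclideanSpace ℝ (ι → Bool)} (hx : x ∈ LinearMap.ker (Phi ι m)) :
    ∀ T : ι → Bool, ∑ i, (if T i = false then x (flp T i) else 0) = 0 := by
  intro T
  by_cases hT : wt T + 1 = m
  · have := LinearMap.mem_ker.1 hx
    have h2 := congrFun (congrArg Prod.snd this) ⟨T, hT⟩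
    exact h2
  · apply Finset.sum_eq_zero
    intro i _
    split_ifs with h
    · apply ker_supp hx
      rw [wt_flp_false h]
      exact hT
    · rfl

theorem exists_family (m : ℕ) (hm : 2 * m ≤ Fintype.card ι) :
    ∃ (D : ℕ) (f : Fin D → (ι → Bool) → ℝ), (∀ k, IsHarm m (f k)) ∧
      (∀ k k', N m (f k) (f k') = if k = k' then 1 else 0) ∧
      (Fintype.card ι).choose m ≤ (Fintype.card ι + 1) * D := by
  set V := LinearMap.ker (Phi ι m) with hV
  refine ⟨Module.finrank ℝ V, fun k => ext (fun z => (stdOrthonormalBasis ℝ V k : V).1 z),
    ?_, ?_, ?_⟩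
  · intro k
    exact ext_isHarm (ker_supp (stdOrthonormalBasis ℝ V k).2) (ker_dn (stdOrthonormalBasis ℝ V k).2)
  · intro k k'
    rw [N_ext (ker_supp (stdOrthonormalBasis ℝ V k).2) (ker_supp (stdOrthonormalBasis ℝ V k').2)]
    have h1 := (orthonormal_iff_ite.1 (stdOrthonormalBasis ℝ V).orthonormal) k k'
    rw [← h1]
    rw [Submodule.coe_inner, PiLp.inner_apply]
    apply Finset.sum_congr rfl
    intro z _
    simp only [RCLike.inner_apply, conj_trivial]
    ring
  · have h1 := (Phi ι m).finrank_range_add_finrank_ker
    have h2 : Module.finrank ℝ (LinearMap.range (Phi ι m))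
        ≤ Module.finrank ℝ (({S : ι → Bool // wt S ≠ m} → ℝ)
          × ({T : ι → Bool // wt T + 1 = m} → ℝ)) := Submodule.finrank_le _
    rw [Module.finrank_prod, Module.finrank_fintype_fun_eq_card,
      Module.finrank_fintype_fun_eq_card] at h2
    rw [finrank_euclideanSpace] at h1
    have h3 : Fintype.card {S : ι → Bool // wt S ≠ m} + (Fintype.card ι).choose m
        = Fintype.card (ι → Bool) := by
      rw [← card_layer (ι := ι) m]
      have := Fintype.card_subtype_compl (fun S : ι → Bool => wt S = m)
      have h4 := Fintype.card_subtype_le (fun S : ι → Bool => wt S = m)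
      have h5 : Fintype.card {S : ι → Bool // wt S ≠ m}
        = Fintype.card {S : ι → Bool // ¬ wt S = m} := rfl
      omega
    rw [← hV] at h1
    -- now the last count
    rcases Nat.eq_zero_or_pos m with h0 | h0
    · subst h0
      have h6 : Fintype.card {T : ι → Bool // wt T + 1 = 0} = 0 := by
        rw [Fintype.card_eq_zero_iff]
        exact ⟨fun T => absurd T.2 (by omega)⟩
      rw [h6] at h2
      simp only [Nat.choose_zero_right] at h3 ⊢
      have : 1 ≤ Module.finrank ℝ V := by omega
      nlinarith
    · obtain ⟨q, rfl⟩ : ∃ q, m = q + 1 := ⟨m - 1, by omega⟩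
      have h6 : Fintype.card {T : ι → Bool // wt T + 1 = q + 1} = (Fintype.card ι).choose q := by
        rw [← card_layer (ι := ι) q]
        apply Fintype.card_congr
        exact Equiv.subtypeEquivRight fun T => by omega
      rw [h6] at h2
      have h7 := Nat.choose_succ_right_eq (Fintype.card ι) q
      have h8 : (Fintype.card ι).choose (q + 1)
          ≤ Module.finrank ℝ V + (Fintype.card ι).choose q := by omega
      set n := Fintype.card ι with hn
      set A := n.choose (q + 1)
      set B := n.choose q
      -- A (q+1) = B (n-q), 2(q+1) ≤ n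
      have h9 : (n + 1) * B ≤ n * A := by
        have h10 : (n + 1) * (q + 1) ≤ n * (n - q) := by
          obtain ⟨r, hr⟩ : ∃ r, n = 2 * (q + 1) + r := ⟨n - 2 * (q + 1), by omega⟩
          have : n - q = q + 2 + r := by omega
          rw [this, hr]
          nlinarith
        have h11 : 0 < n - q := by omega
        have h12 : (n - q) * ((n + 1) * B) ≤ (n - q) * (n * A) := by
          calc (n - q) * ((n + 1) * B) = (n + 1) * (B * (n - q)) := by ring
            _ = (n + 1) * (A * (q + 1)) := by rw [h7]
            _ = A * ((n + 1) * (q + 1)) := by ring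
            _ ≤ A * (n * (n - q)) := Nat.mul_le_mul_left _ h10
            _ = _ := by ring
        exact Nat.le_of_mul_le_mul_left h12 h11
      nlinarith

end Pool.Agent.Lib.MP_0430e4_lc.Harm
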